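import Pool.Agent.H583_GP.Ana2
import Pool.Agent.TH152.HY.Ext

/-!
Products of linear forms of functions near infinity: the quotients are meromorphic at infinity.
-/

set_option autoImplicit false
set_option linter.unusedSectionVars false

namespace Pool.Agent.H583_GQ

open Filter Metric Real Set Topology Pool.Agent.H159R3.NV Pool.Agent.W602.NC Pool.Agent.W602.TL
open Pool.Agent.H583_GP
open Pool.Agent.W603.BP (Ext)

variable {ι : Type} [Fintype ι] [DecidableEq ι] {q : ι → ℕ}

/-- a system of functions near infinity with the conditions for the multiplicities -/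
structure SysX (r0 : ℝ) (a : ∀ i, Fin (q i) → ℂ) (α : ι → ℕ) (β : ∀ i, Fin (q i) → ℕ)
    (f g : ι → ℂ → ℂ) : Prop where
  hf : ∀ i, AnalyticOnNhd ℂ (f i) (Ext r0)
  hg : ∀ i, AnalyticOnNhd ℂ (g i) (Ext r0)
  nz : ∀ i, ∀ z ∈ Ext r0, f i z ≠ 0 ∨ g i z ≠ 0
  ne : ∀ i j, ∃ z ∈ Ext r0, ell a f g i j z ≠ 0
  ord : ∀ z ∈ Ext r0, ∀ (k : ∀ i, Fin (q i) → ℕ),
    (∀ i j, analyticOrderAt (ell a f g i j) z = k i j) →
    ∑ i, (if k i = 0 then 0 else α i) ≤ ∑ i, ∑ j, β i j * k i j

variable {a : ∀ i, Fin (q i) → ℂ} {α : ι → ℕ} {β : ∀ i, Fin (q i) → ℕ} {f g : ι → ℂ → ℂ}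


theorem x_an {i : ι} {z : ℂ} (hf : AnalyticAt ℂ (f i) z) (hg : AnalyticAt ℂ (g i) z)
    (j : Fin (q i)) : AnalyticAt ℂ (ell a f g i j) z :=
  hg.sub (analyticAt_const.mul hf)

theorem x_wan {i : ι} {z : ℂ} (hf : AnalyticAt ℂ (f i) z) (hg : AnalyticAt ℂ (g i) z) :
    AnalyticAt ℂ (Wr f g i) z :=
  (hf.mul hg.deriv).sub (hf.deriv.mul hg)

theorem x_deriv {i : ι} {z : ℂ} (hf : AnalyticAt ℂ (f i) z) (hg : AnalyticAt ℂ (g i) z)
    (j : Fin (q i)) : deriv (ell a f g i j) z = deriv (g i) z - a i j * deriv (f i) z :=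
  (hg.differentiableAt.hasDerivAt.sub
    (hf.differentiableAt.hasDerivAt.const_mul (a i j))).deriv

theorem x_wr_ell {i : ι} {z : ℂ} (hf : AnalyticAt ℂ (f i) z) (hg : AnalyticAt ℂ (g i) z)
    (j : Fin (q i)) :
    Wr f g i z = f i z * deriv (ell a f g i j) z - deriv (f i) z * ell a f g i j z := by
  rw [x_deriv hf hg]
  unfold Wr ell
  ring

theorem x_wr_pair' {i : ι} {z : ℂ} (hf : AnalyticAt ℂ (f i) z) (hg : AnalyticAt ℂ (g i) z)
    (j k : Fin (q i)) :
    ell a f g i j z * deriv (ell a f g i k) z - deriv (ell a f g i j) z * ell a f g i k z =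
      (a i k - a i j) * Wr f g i z := by
  rw [x_deriv hf hg, x_deriv hf hg]
  unfold Wr ell
  ring

theorem x_wr_order {i : ι} {z : ℂ} (hf : AnalyticAt ℂ (f i) z) (hg : AnalyticAt ℂ (g i) z)
    (j : Fin (q i)) {k : ℕ} (hk : analyticOrderAt (ell a f g i j) z = k) :
    ((k - 1 : ℕ) : ℕ∞) ≤ analyticOrderAt (Wr f g i) z := by
  have hell := x_an (a := a) hf hg j
  have h1 : ((k - 1 : ℕ) : ℕ∞) ≤ analyticOrderAt (deriv (ell a f g i j)) z := by
    have h2 := ord_deriv hell
    rw [hk] at h2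
    rw [ENat.natCast_sub, Nat.cast_one, tsub_le_iff_right]
    exact h2
  have h3 : ((k - 1 : ℕ) : ℕ∞) ≤ analyticOrderAt (ell a f g i j) z := by
    rw [hk]
    exact_mod_cast Nat.sub_le _ _
  have e : Wr f g i =ᶠ[𝓝 z] (f i * deriv (ell a f g i j)) - (deriv (f i) * ell a f g i j) := by
    filter_upwards [hf.eventually_analyticAt, hg.eventually_analyticAt] with w h4 h5
    exact x_wr_ell h4 h5 j
  rw [analyticOrderAt_congr e]
  refine ord_sub_ge (N := ((k - 1 : ℕ) : ℕ∞)) ?_ ?_
  · rw [analyticOrderAt_mul hf hell.deriv]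
    exact h1.trans (self_le_add_left _ _)
  · rw [analyticOrderAt_mul hf.deriv hell]
    exact h3.trans (self_le_add_left _ _)

theorem x_one (ha : ∀ i, Function.Injective (a i)) {i : ι} {j j' : Fin (q i)} {z : ℂ}
    (hnz : f i z ≠ 0 ∨ g i z ≠ 0)
    (h : ell a f g i j z = 0) (h' : ell a f g i j' z = 0) : j = j' := by
  by_contra hne
  have hd : a i j - a i j' ≠ 0 := sub_ne_zero.2 fun h => hne (ha i h)
  unfold ell at h h'
  have h1 : (a i j - a i j') * f i z = 0 := by linear_combination h' - h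
  have h2 : f i z = 0 := (mul_eq_zero.1 h1).resolve_left hd
  have h3 : g i z = 0 := by linear_combination h + a i j * h2
  exact hnz.elim (fun h => h h2) (fun h => h h3)

theorem x_fin {r0 : ℝ} (hr0 : 0 < r0) {h : ℂ → ℂ} (hh : AnalyticOnNhd ℂ h (Ext r0))
    (hne : ∃ z ∈ Ext r0, h z ≠ 0) {z : ℂ} (hz : z ∈ Ext r0) :
    ∃ k : ℕ, analyticOrderAt h z = k := by
  have h1 : analyticOrderAt h z ≠ ⊤ := by
    intro h0
    obtain ⟨z2, hz2, h2⟩ := hne
    exact h2 (hh.eqOn_zero_of_preconnected_of_eventuallyEq_zero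
      (Pool.Agent.W603.BP.Ext_preconn hr0) hz (analyticOrderAt_eq_top.mp h0) hz2)
  obtain ⟨n, hn⟩ := ENat.ne_top_iff_exists.mp h1
  exact ⟨n, hn.symm⟩

theorem SysX.hord {r0 : ℝ} (hr0 : 0 < r0) (S : SysX r0 a α β f g)
    (ha : ∀ i, Function.Injective (a i)) (hq : ∀ i, 0 < q i)
    {p : ℕ} (e : Fin (p + 1) ≃ (∀ i, Fin (q i))) {D c : ℕ} {A : ι → ℕ} (hA : ∀ i, A i ≤ D * α i)
    (hc : ∀ i, A i ≤ c) {z : ℂ} (hz : z ∈ Ext r0) (b : Fin (p + 1) → ℕ)
    (hb : ∀ t, analyticOrderAt (HH e a f g t) z = b t) :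
    ((∑ t, c * b t : ℕ) : ℕ∞) ≤
      analyticOrderAt (PP a A (fun i j => D * β i j + (c * cnt q i j - A i)) f g) z := by
  have hel0 : ∀ i j, AnalyticOnNhd ℂ (ell a f g i j) (Ext r0) := fun i j z hz =>
    x_an (S.hf i z hz) (S.hg i z hz) j
  have hk0 : ∀ i j, ∃ k : ℕ, analyticOrderAt (ell a f g i j) z = k := fun i j =>
    x_fin hr0 (hel0 i j) (S.ne i j) hz
  choose k hk using hk0
  have hel : ∀ i j, AnalyticAt ℂ (ell a f g i j) z := fun i j => hel0 i j z hz
  have hwa : ∀ i, AnalyticAt ℂ (Wr f g i) z := fun i => x_wan (S.hf i z hz) (S.hg i z hz)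
  -- the left hand side
  have hL : (∑ t, c * b t : ℕ) = (c * ∑ i, ∑ j, cnt q i j * k i j : ℕ) := by
    have h1 : ∀ t, b t = ∑ i, k i (e t i) := by
      intro t
      have e2 : analyticOrderAt (HH e a f g t) z = ((∑ i, k i (e t i) : ℕ) : ℕ∞) := by
        have e3 : HH e a f g t = fun z => ∏ i, ell a f g i (e t i) z := rfl
        rw [e3, ord_prod _ (fun i z => ell a f g i (e t i) z) z (fun i _ => hel i _)]
        push_cast
        exact Finset.sum_congr rfl fun i _ => hk i _
      rw [hb t] at e2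
      exact_mod_cast e2
    rw [Finset.sum_congr rfl fun t _ => by rw [h1 t]]
    rw [← sum_cnt, ← e.sum_comp (fun J => ∑ i, k i (J i)), Finset.mul_sum]
  rw [hL]
  -- the right hand side
  have hone : ∀ i j j', k i j ≠ 0 → k i j' ≠ 0 → j = j' := by
    intro i j j' h h'
    apply x_one ha (S.nz i z hz)
    · by_contra h0
      have := (hel i j).analyticOrderAt_eq_zero.2 h0
      rw [hk i j] at this
      exact h (by exact_mod_cast this)
    · by_contra h0
      have := (hel i j').analyticOrderAt_eq_zero.2 h0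
      rw [hk i j'] at this
      exact h' (by exact_mod_cast this)
  have hsum : ∀ i, ∑ j, k i j = ∑ j, (k i j - 1) + (if k i = 0 then 0 else 1) := by
    intro i
    split_ifs with h0
    · rw [h0]
      simp
    · obtain ⟨j, hj⟩ := Function.ne_iff.1 h0
      have hj' : k i j ≠ 0 := hj
      have hz : ∀ j', j' ≠ j → k i j' = 0 := by
        intro j' hne
        by_contra h1
        exact hne (hone i j' j h1 hj')
      rw [Finset.sum_eq_single j (fun j' _ hne => hz j' hne) (fun h => absurd (Finset.mem_univ _) h),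
        Finset.sum_eq_single j (fun j' _ hne => by rw [hz j' hne, Nat.zero_sub])
          (fun h => absurd (Finset.mem_univ _) h)]
      omega
  have hw : ∀ i, ((∑ j, (k i j - 1) : ℕ) : ℕ∞) ≤ analyticOrderAt (Wr f g i) z := by
    intro i
    by_cases h0 : k i = 0
    · rw [h0]
      simp
    · obtain ⟨j, hj⟩ := Function.ne_iff.1 h0
      have hj' : k i j ≠ 0 := hj
      rw [Finset.sum_eq_single j (fun j' _ hne => by
        have : k i j' = 0 := by
          by_contra h1
          exact hne (hone i j' j h1 hj')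
        rw [this, Nat.zero_sub]) (fun h => absurd (Finset.mem_univ _) h)]
      exact x_wr_order (S.hf i z hz) (S.hg i z hz) j (hk i j)
  have hR : ((∑ i, (A i * ∑ j, (k i j - 1) + ∑ j, (D * β i j + (c * cnt q i j - A i)) * k i j)
      : ℕ) : ℕ∞) ≤ analyticOrderAt (PP a A (fun i j => D * β i j + (c * cnt q i j - A i)) f g) z := by
    have e1 : PP a A (fun i j => D * β i j + (c * cnt q i j - A i)) f g = fun z => ∏ i,
      (Wr f g i z ^ A i * ∏ j, ell a f g i j z ^ (D * β i j + (c * cnt q i j - A i))) := rfl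
    have hpa : ∀ i, AnalyticAt ℂ (fun z => ∏ j, ell a f g i j z ^
        (D * β i j + (c * cnt q i j - A i))) z := fun i =>
      Finset.analyticAt_fun_prod _ fun j _ => (hel i j).fun_pow _
    rw [e1, ord_prod _ (fun i z => Wr f g i z ^ A i * ∏ j, ell a f g i j z ^
      (D * β i j + (c * cnt q i j - A i))) z (fun i _ => ((hwa i).pow _).mul (hpa i))]
    push_cast
    refine Finset.sum_le_sum fun i _ => ?_
    have e2 : (fun z => Wr f g i z ^ A i * ∏ j, ell a f g i j z ^
      (D * β i j + (c * cnt q i j - A i))) = (Wr f g i ^ A i) * fun z => ∏ j, ell a f g i j z ^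
      (D * β i j + (c * cnt q i j - A i)) := rfl
    rw [e2, analyticOrderAt_mul ((hwa i).pow _) (hpa i), analyticOrderAt_pow (hwa i)]
    refine add_le_add ?_ ?_
    · rw [nsmul_eq_mul]
      have := hw i
      push_cast at this
      gcongr
    · rw [ord_prod _ (fun j z => ell a f g i j z ^ (D * β i j + (c * cnt q i j - A i))) z
        (fun j _ => (hel i j).pow _)]
      refine Finset.sum_le_sum fun j _ => ?_
      have e3 : (fun z => ell a f g i j z ^ (D * β i j + (c * cnt q i j - A i))) =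
        ell a f g i j ^ (D * β i j + (c * cnt q i j - A i)) := rfl
      rw [e3, analyticOrderAt_pow (hel i j), hk i j, nsmul_eq_mul]
      push_cast
      exact le_rfl
  refine le_trans ?_ hR
  -- the numbers
  have hS := S.ord z hz k hk
  have hi : ∀ i, A i * ∑ j, (k i j - 1) + ∑ j, (D * β i j + (c * cnt q i j - A i)) * k i j +
      (if k i = 0 then 0 else A i) = D * ∑ j, β i j * k i j + c * ∑ j, cnt q i j * k i j := by
    intro i
    have h1 : ∑ j, (D * β i j + (c * cnt q i j - A i)) * k i j + A i * ∑ j, k i j =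
        D * ∑ j, β i j * k i j + c * ∑ j, cnt q i j * k i j := by
      rw [Finset.mul_sum, Finset.mul_sum, Finset.mul_sum, ← Finset.sum_add_distrib,
        ← Finset.sum_add_distrib]
      refine Finset.sum_congr rfl fun j _ => ?_
      have h2 : A i ≤ c * cnt q i j := (hc i).trans (Nat.le_mul_of_pos_right _ (cnt_pos hq i j))
      obtain ⟨s, hs⟩ := Nat.exists_eq_add_of_le h2
      rw [hs, Nat.add_sub_cancel_left]
      have h3 : c * (cnt q i j * k i j) = (A i + s) * k i j := by rw [← mul_assoc, hs]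
      rw [h3]
      ring
    have h2 := hsum i
    have h3 : A i * ∑ j, k i j = A i * ∑ j, (k i j - 1) + (if k i = 0 then 0 else A i) := by
      rw [h2, mul_add]
      split_ifs <;> simp
    omega
  have htot : ∑ i, (A i * ∑ j, (k i j - 1) + ∑ j, (D * β i j + (c * cnt q i j - A i)) * k i j) +
      ∑ i, (if k i = 0 then 0 else A i) =
      D * ∑ i, ∑ j, β i j * k i j + c * ∑ i, ∑ j, cnt q i j * k i j := by
    rw [← Finset.sum_add_distrib, Finset.mul_sum, Finset.mul_sum, ← Finset.sum_add_distrib]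
    exact Finset.sum_congr rfl fun i _ => hi i
  have hle : ∑ i, (if k i = 0 then 0 else A i) ≤ D * ∑ i, ∑ j, β i j * k i j := by
    refine le_trans ?_ (Nat.mul_le_mul_left D hS)
    rw [Finset.mul_sum]
    refine Finset.sum_le_sum fun i _ => ?_
    split_ifs
    · simp
    · exact hA i
  have hfin : c * ∑ i, ∑ j, cnt q i j * k i j ≤
      ∑ i, (A i * ∑ j, (k i j - 1) + ∑ j, (D * β i j + (c * cnt q i j - A i)) * k i j) := by
    omega
  exact_mod_cast hfin

/-- Cauchy's estimate for the quotient of two functions -/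
theorem x_cauchy {h k : ℂ → ℂ} {z : ℂ} {ε B : ℝ} (hε : 0 < ε)
    (hh : ∀ w ∈ closedBall z ε, AnalyticAt ℂ h w) (hk : ∀ w ∈ closedBall z ε, AnalyticAt ℂ k w)
    (h0 : ∀ w ∈ closedBall z ε, h w ≠ 0)
    (hr : ∀ w ∈ closedBall z ε, ‖k w / h w‖ ≤ B * ‖k z / h z‖) :
    ‖h z * deriv k z - deriv h z * k z‖ ≤ (B / ε) * (‖h z‖ * ‖k z‖) := by
  have hzz := mem_closedBall_self (x := z) hε.le
  have haz := h0 z hzz
  have hd : DiffContOnCl ℂ (fun w => k w / h w) (ball z ε) := by
    apply DifferentiableOn.diffContOnCl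
    rw [closure_ball z hε.ne']
    intro w hw
    exact ((hk w hw).differentiableAt.div (hh w hw).differentiableAt
      (h0 w hw)).differentiableWithinAt
  have h1 := Complex.norm_deriv_le_of_forall_mem_sphere_norm_le hε hd
    (fun w hw => hr w (sphere_subset_closedBall hw))
  have h2 : deriv (fun w => k w / h w) z = (deriv k z * h z - k z * deriv h z) / h z ^ 2 :=
    deriv_fun_div (hk z hzz).differentiableAt (hh z hzz).differentiableAt haz
  rw [h2, norm_div, norm_div, norm_pow] at h1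
  have hp : 0 < ‖h z‖ := norm_pos_iff.mpr haz
  have e : h z * deriv k z - deriv h z * k z = deriv k z * h z - k z * deriv h z := by ring
  rw [e]
  rw [div_le_iff₀ (by positivity)] at h1
  refine h1.trans (le_of_eq ?_)
  field_simp

theorem x_good_ne {p : ℕ} {e : Fin (p + 1) ≃ (∀ i, Fin (q i))} (hq : ∀ i, 0 < q i) {z : ℂ}
    {ε B : ℝ} (h : Pool.Agent.TH152.HY.Calm (HH e a f g) z ε B) {w : ℂ} (hw : w ∈ closedBall z ε)
    (i : ι) (j : Fin (q i)) :
    ell a f g i j w ≠ 0 := by
  obtain ⟨J, hJ⟩ := exists_J hq i j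
  have h1 := h.1 (e.symm J) w hw
  unfold HH at h1
  rw [e.apply_symm_apply] at h1
  have h2 := Finset.prod_ne_zero_iff.1 h1 i (Finset.mem_univ i)
  rwa [hJ] at h2

/-- the pointwise estimate -/
theorem x_hpt (ha : ∀ i, Function.Injective (a i)) (hq : ∀ i, 2 ≤ q i) {p : ℕ}
    (e : Fin (p + 1) ≃ (∀ i, Fin (q i))) {D c : ℕ} {A : ι → ℕ}
    (hAD : ∀ i, A i * (q i - 2) = D * (∑ j, β i j) + D) (hc : ∀ i, A i ≤ c) :
    ∃ (C : ℝ), 1 ≤ C ∧ ∀ (r0 : ℝ) (f g : ι → ℂ → ℂ), (∀ i, AnalyticOnNhd ℂ (f i) (Ext r0)) →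
      (∀ i, AnalyticOnNhd ℂ (g i) (Ext r0)) → ∀ z ε B, 0 < ε → ε ≤ 1 → 1 ≤ B →
      closedBall z ε ⊆ Ext r0 → Pool.Agent.TH152.HY.Calm (HH e a f g) z ε B →
      ‖PP a A (fun i j => D * β i j + (c * cnt q i j - A i)) f g z‖ * sup (HH e a f g) z ^ D ≤
        C * (B / ε) ^ (∑ i, A i) * ∏ t, ‖HH e a f g t z‖ ^ c := by
  have hq0 : ∀ i, 0 < q i := fun i => lt_of_lt_of_le Nat.zero_lt_two (hq i)
  choose K hK1 hK using fun i => pw_point (hq i) (a i) (ha i)
  refine ⟨∏ i, K i ^ A i, ?_, ?_⟩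
  · exact Finset.one_le_prod fun i _ => one_le_pow₀ (hK1 i)
  intro r0 f g hf hg z ε B hε hε1 hB1 hsub hgood
  have hzz : z ∈ closedBall z ε := mem_closedBall_self hε.le
  set u : ∀ i, Fin (q i) → ℝ := fun i j => ‖ell a f g i j z‖ with hu
  have hup : ∀ i j, 0 < u i j := fun i j => norm_pos_iff.2 (x_good_ne hq0 hgood hzz i j)
  have hmax : ∀ i, ∃ l, ∀ j, u i j ≤ u i l := by
    intro i
    have hne : (Finset.univ : Finset (Fin (q i))).Nonempty := ⟨⟨0, hq0 i⟩, Finset.mem_univ _⟩
    obtain ⟨l, -, hl⟩ := Finset.exists_max_image Finset.univ (u i) hne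
    exact ⟨l, fun j => hl j (Finset.mem_univ j)⟩
  choose l hl using hmax
  have hratio : ∀ i j k, ∀ w ∈ closedBall z ε,
      ‖ell a f g i k w / ell a f g i j w‖ ≤ B * ‖ell a f g i k z / ell a f g i j z‖ := by
    intro i j k w hw
    obtain ⟨J, hJ⟩ := exists_J hq0 i j
    have h1 := hgood.2 (e.symm J) (e.symm (Function.update J i k)) w hw
    rw [HH_update e hJ fun i j => x_good_ne hq0 hgood hw i j,
      HH_update e hJ fun i j => x_good_ne hq0 hgood hzz i j] at h1
    exact h1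
  have hwr : ∀ i j k, ‖(a i j - a i k) * Wr f g i z‖ ≤
      (B / ε) * (u i j * u i k) := by
    intro i j k
    have h1 := x_cauchy (h := ell a f g i j) (k := ell a f g i k) hε
      (fun w hw => x_an (hf i w (hsub hw)) (hg i w (hsub hw)) j)
      (fun w hw => x_an (hf i w (hsub hw)) (hg i w (hsub hw)) k)
      (fun w hw => x_good_ne hq0 hgood hw i j)
      (fun w hw => hratio i j k w hw)
    rw [x_wr_pair' (hf i z (hsub hzz)) (hg i z (hsub hzz))] at h1
    have h2 : ‖(a i j - a i k) * Wr f g i z‖ = ‖(a i k - a i j) * Wr f g i z‖ := by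
      rw [norm_mul, norm_mul, norm_sub_rev]
    rw [h2]
    exact h1
  have hE : 0 ≤ B / ε := by positivity
  have hpw : ∀ i, ‖Wr f g i z‖ * u i (l i) ^ (q i - 2) ≤
      K i * (B / ε) * ∏ j, u i j := fun i =>
    hK i (f i z) (g i z) (Wr f g i z) _ hE (hwr i) (l i) (hl i)
  have hsup : sup (HH e a f g) z ≤ ∏ i, u i (l i) := by
    obtain ⟨t, ht⟩ := sup_attained (HH e a f g) z
    rw [ht]
    unfold HH
    rw [norm_prod]
    exact Finset.prod_le_prod (fun _ _ => norm_nonneg _) fun i _ => hl i _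
  have hsup0 : 0 ≤ sup (HH e a f g) z := (norm_nonneg _).trans (le_sup (HH e a f g) z 0)
  have hfac : ∀ i, (‖Wr f g i z‖ ^ A i * ∏ j, u i j ^ (D * β i j + (c * cnt q i j - A i))) *
      u i (l i) ^ D ≤ (K i * (B / ε)) ^ A i * ∏ j, u i j ^ (c * cnt q i j) := by
    intro i
    have hM := hup i (l i)
    have hP0 : 0 ≤ ∏ j, u i j ^ (c * cnt q i j - A i) :=
      Finset.prod_nonneg fun j _ => pow_nonneg (hup i j).le _
    have hPu : 0 ≤ ∏ j, u i j := Finset.prod_nonneg fun j _ => (hup i j).le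
    have h1 : ∏ j, u i j ^ (D * β i j) ≤ u i (l i) ^ (D * ∑ j, β i j) := by
      rw [Finset.mul_sum, ← Finset.prod_pow_eq_pow_sum]
      exact Finset.prod_le_prod (fun j _ => pow_nonneg (hup i j).le _) fun j _ =>
        pow_le_pow_left₀ (hup i j).le (hl i j) _
    calc (‖Wr f g i z‖ ^ A i * ∏ j, u i j ^ (D * β i j + (c * cnt q i j - A i))) * u i (l i) ^ D
        = ‖Wr f g i z‖ ^ A i * ((∏ j, u i j ^ (D * β i j)) * u i (l i) ^ D) *
          ∏ j, u i j ^ (c * cnt q i j - A i) := by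
          simp only [pow_add, Finset.prod_mul_distrib]
          ring
      _ ≤ ‖Wr f g i z‖ ^ A i * (u i (l i) ^ (D * ∑ j, β i j) * u i (l i) ^ D) *
          ∏ j, u i j ^ (c * cnt q i j - A i) := by gcongr
      _ = (‖Wr f g i z‖ * u i (l i) ^ (q i - 2)) ^ A i *
          ∏ j, u i j ^ (c * cnt q i j - A i) := by
          rw [← pow_add, ← hAD i, mul_pow, ← pow_mul, mul_comm (q i - 2)]
      _ ≤ (K i * (B / ε) * ∏ j, u i j) ^ A i *
          ∏ j, u i j ^ (c * cnt q i j - A i) := by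
          have := hpw i
          gcongr
      _ = (K i * (B / ε)) ^ A i * ∏ j, u i j ^ (c * cnt q i j) := by
          rw [mul_pow, mul_assoc, ← Finset.prod_pow, ← Finset.prod_mul_distrib]
          congr 1
          refine Finset.prod_congr rfl fun j _ => ?_
          rw [← pow_add]
          congr 1
          have : A i ≤ c * cnt q i j := (hc i).trans (Nat.le_mul_of_pos_right _ (cnt_pos hq0 i j))
          omega
  have hPP : ‖PP a A (fun i j => D * β i j + (c * cnt q i j - A i)) f g z‖ =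
      ∏ i, (‖Wr f g i z‖ ^ A i * ∏ j, u i j ^ (D * β i j + (c * cnt q i j - A i))) := by
    unfold PP
    rw [norm_prod]
    refine Finset.prod_congr rfl fun i _ => ?_
    rw [norm_mul, norm_pow, norm_prod]
    congr 1
    exact Finset.prod_congr rfl fun j _ => norm_pow _ _
  have hHH : ∏ t, ‖HH e a f g t z‖ ^ c = ∏ i, ∏ j, u i j ^ (c * cnt q i j) := by
    have h1 : ∀ t, ‖HH e a f g t z‖ ^ c = ∏ i, u i (e t i) ^ c := by
      intro t
      unfold HH
      rw [norm_prod, Finset.prod_pow]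
    rw [Finset.prod_congr rfl fun t _ => h1 t,
      e.prod_comp (fun J => ∏ i, u i (J i) ^ c), prod_cnt fun i j => u i j ^ c]
    simp only [← pow_mul]
  rw [hPP, hHH]
  calc _ ≤ (∏ i, (‖Wr f g i z‖ ^ A i * ∏ j, u i j ^ (D * β i j + (c * cnt q i j - A i)))) *
        (∏ i, u i (l i)) ^ D := by
        refine mul_le_mul_of_nonneg_left (pow_le_pow_left₀ hsup0 hsup D) ?_
        exact Finset.prod_nonneg fun i _ => mul_nonneg (by positivity)
          (Finset.prod_nonneg fun j _ => pow_nonneg (hup i j).le _)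
    _ = ∏ i, ((‖Wr f g i z‖ ^ A i * ∏ j, u i j ^ (D * β i j + (c * cnt q i j - A i))) *
        u i (l i) ^ D) := by rw [← Finset.prod_pow, ← Finset.prod_mul_distrib]
    _ ≤ ∏ i, ((K i * (B / ε)) ^ A i * ∏ j, u i j ^ (c * cnt q i j)) := by
        refine Finset.prod_le_prod (fun i _ => ?_) fun i _ => hfac i
        exact mul_nonneg (mul_nonneg (by positivity)
          (Finset.prod_nonneg fun j _ => pow_nonneg (hup i j).le _)) (pow_nonneg (hup i _).le _)
    _ = (∏ i, K i ^ A i) * (B / ε) ^ (∑ i, A i) *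
        ∏ i, ∏ j, u i j ^ (c * cnt q i j) := by
        rw [Finset.prod_mul_distrib]
        congr 1
        rw [← Finset.prod_pow_eq_pow_sum, ← Finset.prod_mul_distrib]
        refine Finset.prod_congr rfl fun i _ => ?_
        rw [← mul_pow]

/-- TARGET. Proof: this is the version on the exterior domain `Ext r0 = {z | r0 < ‖z‖}` of
`Pool.Agent.H583_GP.no_curves` (files H583_GP/Ana.lean and H583_GP/Ana2.lean, which treat entire
functions). Apply `Pool.Agent.TH152.HY.abstract_ext` (file TH152/HY/Ext.lean) with `U = HH e a f g`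
(the products of the linear forms, defined in H583_GP/Ana.lean), the constant exponents
`c t = ∑ i, A i`, `κ = D = ∏ i, (q i - 2)`,
`A i = (∑ j, β i j + 1) * ∏ i' ∈ univ.erase i, (q i' - 2)` and
`P = PP a A (fun i j => D * β i j + (c * cnt q i j - A i)) f g`, exactly as in `no_curves`:
* analyticity of `ell`, `Wr`, `HH`, `PP` on `Ext r0`: the functions are polynomials in `f i`, `g i`
  and their derivatives (`AnalyticOnNhd.deriv`);
* orders (`hord` of `abstract_ext`): as `Sys.hord` in Ana.lean, at a point `z ∈ Ext r0` (redo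
  `Sys.one`, `Sys.wr_ell`, `Sys.wr_pair'`, `Sys.wr_order`, `Sys.hord` at such a point; the identity
  `Wr = f * ell' - f' * ell` now only holds near `z`, so use `analyticOrderAt_congr`); finite orders
  at all points of `Ext r0` follow from `S.ne` and the preconnectedness of `Ext r0`
  (see the proof of `abstract_ext` for the argument, with `Ext_preconn`);
* pointwise estimate (`hpt` of `abstract_ext`): as `hpt` in Ana2.lean, with `Calm U z ε B` instead of
  `GoodAt`, i.e. with `B` instead of `Real.exp 1`, so that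
  `‖(a i j - a i k) * Wr f g i z‖ ≤ (B / ε) * (‖ell_j‖ * ‖ell_k‖)` and `Nn = ∑ i, A i`,
  `C1 = ∏ i, K i ^ A i` with the constants `K i` of `pw_point`. The lemma `wr_pair` (file
  W602/TL/Line.lean) is the Cauchy estimate for the derivative of the quotient of two nonvanishing
  functions on a closed disc; it is stated for entire functions and has to be redone for functions
  which are analytic on `Ext r0 ⊇ closedBall z ε` (Cauchy's estimate
  `Complex.norm_deriv_le_of_forall_mem_sphere_norm_le` for the quotient `ell_k / ell_j`);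
* `HH` and `PP` do not vanish identically: a product of finitely many analytic functions on the
  connected set `Ext r0` which do not vanish identically does not vanish identically (see `prod_ne`
  used in the proof of `abstract_ext`). -/
theorem hh_mero [Nonempty ι] {r0 : ℝ} (hr0 : 0 < r0) (ha : ∀ i, Function.Injective (a i))
    (hq : ∀ i, 3 ≤ q i) (hαβ : ∀ i, ∑ j, β i j < α i * (q i - 2)) (S : SysX r0 a α β f g)
    (hW : ∀ i, ∃ z ∈ Ext r0, Wr f g i z ≠ 0) {p : ℕ} (e : Fin (p + 1) ≃ (∀ i, Fin (q i)))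
    (t : Fin (p + 1)) : ∃ R : ℂ → ℂ, MeromorphicAt (fun w => R w⁻¹) 0 ∧ ∃ R0 : ℝ, ∀ z, R0 < ‖z‖ →
      HH e a f g t z = R z * HH e a f g 0 z := by
  classical
  have hq0 : ∀ i, 0 < q i := fun i => by have := hq i; omega
  have hq2 : ∀ i, 2 ≤ q i := fun i => by have := hq i; omega
  -- the numbers
  set D : ℕ := ∏ i, (q i - 2) with hD
  have hDpos : 0 < D := Finset.prod_pos fun i _ => by have := hq i; omega
  set A : ι → ℕ := fun i => (∑ j, β i j + 1) * ∏ i' ∈ Finset.univ.erase i, (q i' - 2) with hA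
  have hDi : ∀ i, (∏ i' ∈ Finset.univ.erase i, (q i' - 2)) * (q i - 2) = D := fun i => by
    rw [mul_comm, hD]
    exact Finset.mul_prod_erase Finset.univ (fun i => q i - 2) (Finset.mem_univ i)
  have hAD : ∀ i, A i * (q i - 2) = D * (∑ j, β i j) + D := by
    intro i
    rw [hA]
    simp only
    rw [mul_assoc, hDi i]
    ring
  have hAα : ∀ i, A i ≤ D * α i := by
    intro i
    have h1 : ∑ j, β i j + 1 ≤ α i * (q i - 2) := hαβ i
    calc A i ≤ (α i * (q i - 2)) * ∏ i' ∈ Finset.univ.erase i, (q i' - 2) :=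
          Nat.mul_le_mul_right _ h1
      _ = α i * ((∏ i' ∈ Finset.univ.erase i, (q i' - 2)) * (q i - 2)) := by ring
      _ = D * α i := by rw [hDi i, mul_comm]
  set c : ℕ := ∑ i, A i with hc
  have hAc : ∀ i, A i ≤ c := fun i =>
    Finset.single_le_sum (f := A) (fun _ _ => Nat.zero_le _) (Finset.mem_univ i)
  obtain ⟨C, hC1, hC⟩ := x_hpt (β := β) ha hq2 e hAD hAc
  set γ : ∀ i, Fin (q i) → ℕ := fun i j => D * β i j + (c * cnt q i j - A i) with hγ
  have hel : ∀ i j, AnalyticOnNhd ℂ (ell a f g i j) (Ext r0) := fun i j z hz =>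
    x_an (S.hf i z hz) (S.hg i z hz) j
  have hwa : ∀ i, AnalyticOnNhd ℂ (Wr f g i) (Ext r0) := fun i z hz =>
    x_wan (S.hf i z hz) (S.hg i z hz)
  have hHan : ∀ t, AnalyticOnNhd ℂ (HH e a f g t) (Ext r0) ∧
      ∃ z ∈ Ext r0, HH e a f g t z ≠ 0 := fun t =>
    Pool.Agent.W603.BP.prod_ne hr0 Finset.univ (fun i => ell a f g i (e t i))
      (fun i _ => hel i _) (fun i _ => S.ne i _)
  have hpow : ∀ (h : ℂ → ℂ) (n : ℕ), AnalyticOnNhd ℂ h (Ext r0) → (∃ z ∈ Ext r0, h z ≠ 0) →
      AnalyticOnNhd ℂ (fun z => h z ^ n) (Ext r0) ∧ ∃ z ∈ Ext r0, h z ^ n ≠ 0 := by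
    intro h n h1 h2
    obtain ⟨z, hz, h3⟩ := h2
    exact ⟨fun w hw => (h1 w hw).fun_pow n, z, hz, pow_ne_zero _ h3⟩
  have hPan : AnalyticOnNhd ℂ (PP a A γ f g) (Ext r0) ∧ ∃ z ∈ Ext r0, PP a A γ f g z ≠ 0 := by
    have h1 : ∀ i, AnalyticOnNhd ℂ (fun z => ∏ j, ell a f g i j z ^ γ i j) (Ext r0) ∧
        ∃ z ∈ Ext r0, ∏ j, ell a f g i j z ^ γ i j ≠ 0 := fun i =>
      Pool.Agent.W603.BP.prod_ne hr0 Finset.univ (fun j z => ell a f g i j z ^ γ i j)
        (fun j _ => (hpow _ (γ i j) (hel i j) (S.ne i j)).1)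
        (fun j _ => (hpow _ (γ i j) (hel i j) (S.ne i j)).2)
    have h2 : ∀ i, AnalyticOnNhd ℂ (fun z => Wr f g i z ^ A i *
        ∏ j, ell a f g i j z ^ γ i j) (Ext r0) ∧
        ∃ z ∈ Ext r0, Wr f g i z ^ A i * ∏ j, ell a f g i j z ^ γ i j ≠ 0 := by
      intro i
      have h3 := Pool.Agent.W603.BP.prod_ne hr0 (Finset.univ : Finset Bool)
        (fun b z => if b then Wr f g i z ^ A i else ∏ j, ell a f g i j z ^ γ i j)
        (by
          rintro (_ | _) _
          · simpa using (h1 i).1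
          · simpa using (hpow _ (A i) (hwa i) (hW i)).1)
        (by
          rintro (_ | _) _
          · simpa using (h1 i).2
          · obtain ⟨z, hz, h4⟩ := (hpow _ (A i) (hwa i) (hW i)).2
            exact ⟨z, hz, by simpa using h4⟩)
      simpa [Fintype.prod_bool] using h3
    exact Pool.Agent.W603.BP.prod_ne hr0 Finset.univ (fun i z => Wr f g i z ^ A i *
        ∏ j, ell a f g i j z ^ γ i j) (fun i _ => (h2 i).1) (fun i _ => (h2 i).2)
  exact Pool.Agent.TH152.HY.abstract_ext (U := HH e a f g) (P := PP a A γ f g) hr0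
    (fun _ => c) (κ := D) (Nn := ∑ i, A i) hDpos hC1 (fun t => (hHan t).1)
    (fun t => (hHan t).2) hPan.1 hPan.2
    (fun z hz b hb => S.hord hr0 ha hq0 e hAα hAc hz b hb)
    (fun z ε B hε hε1 hB1 hsub hcalm => hC r0 f g S.hf S.hg z ε B hε hε1 hB1 hsub hcalm) t

end Pool.Agent.H583_GQ
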