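import Pool.Agent.H583_GQ.Spec

/-!
The abelian covers of products of projective lines.
-/

set_option autoImplicit false
set_option linter.overlappingInstances false
set_option linter.unusedSectionVars false

open FF IntermediateField Filter Pool.Agent.W602.GT Pool.Agent.TH466.QG

namespace Pool.Agent.H583_GQ

open Pool.Agent.H583_GP (Branch Sp.inv')

variable {N r : ℕ} {B : Branch N r} {M : ℕ} {L : Type} [Field L] [Algebra ℂ L]
  {y : Fin (M + 1) → L} {D : Set (MvPolynomial (Fin (M + 1)) ℂ)} {x : Fin N → L} {w : Fin r → L}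

/-- **The family of the coordinate functions of a cover.** -/
theorem cover_family (hM : B.Map x w) (hy : y ≠ 0) (hgen : coords ℂ y = ⊤)
    {O : ∀ i, Set (Fin (B.p i))} (hD : Fibres B.a y D x O) : Family B.a y D x (AdmO B O) := by
  classical
  refine ⟨hM.ne, hM.alg, ?_⟩
  obtain ⟨i1, hi1'⟩ := Function.ne_iff.1 hy
  have hi1 : y i1 ≠ 0 := hi1'
  obtain ⟨R, hR, hyR, hsp⟩ := spec_fun hi1 hgen
    (Θ := (Set.range x) ∪ (Set.range w ∪ (Set.range fun s : (i : Fin N) × Fin (B.p i) =>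
      (x s.1 - algebraMap ℂ L (B.a s.1 s.2))⁻¹)))
    ((Set.finite_range _).union ((Set.finite_range _).union (Set.finite_range _)))
  refine ⟨R, hR, hyR, fun E _ _ z x' hz hzR hv hne' P hP => ?_⟩
  obtain ⟨hz1, S, hSx, hSΘ⟩ := hsp E z hz hzR
  have hx' : ∀ i, S.T (x i) (x' i) := by
    intro i
    obtain ⟨t, ht, htv⟩ := hSΘ (x i) (Or.inl ⟨i, rfl⟩)
    rwa [(hv i).uniq hz htv]
  choose w' hw' using fun l => hSΘ (w l) (Or.inr (Or.inl ⟨l, rfl⟩))
  have hinv : ∀ i j, ∃ t, S.T (x i - algebraMap ℂ L (B.a i j))⁻¹ t := fun i j => by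
    obtain ⟨t, ht, -⟩ := hSΘ _ (Or.inr (Or.inr ⟨⟨i, j⟩, rfl⟩))
    exact ⟨t, ht⟩
  have hxa : ∀ i j, S.T (x i - algebraMap ℂ L (B.a i j)) (x' i - algebraMap ℂ E (B.a i j)) :=
    fun i j => S.sub (hx' i) (S.const _)
  have hne : ∀ i j, x i - algebraMap ℂ L (B.a i j) ≠ 0 := fun i j => sub_ne_zero.2 (hM.ne i j)
  refine ⟨adm_mult P hne' (w := w') fun l => ?_, fun i j hj => ?_⟩
  · have h1 := S.pow (hw' l).1 (B.m l)
    rw [hM.eqn l] at h1
    refine S.ext h1 (S.prod _ fun i _ => S.prod _ fun j _ => ?_)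
    exact Sp.inv' S (hxa i j) (hinv i j) (hne i j) _
  · have h1 : ¬ 0 < P.ord (x' i - algebraMap ℂ E (B.a i j)) := fun h =>
      hP ((hD E z x' hz hv hne' P).2 ⟨i, j, hj, h⟩)
    exact Int.toNat_of_nonpos (not_lt.1 h1)

end Pool.Agent.H583_GQ
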