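import Pool.Agent.H583_GP.Defs
import Pool.Agent.Y221.PD.Defs
import Pool.Agent.TH466.QG.Strong

/-!
Quasi-projective varieties with rational functions, the multiplicities of these functions, and the
numerical criteria.
-/

set_option autoImplicit false

namespace Pool.Agent.H583_GQ

open FF Pool.Agent.W602.GT Metric
open Pool.Agent.Y221.PD (EssentialDisc TorusCurve)
open Pool.Agent.Y221.BD (EntireCurve)
open Pool.Agent.TH466.QG (SubOf)

section variety

variable {M : ℕ}

/-- The point with the coordinates `z` over the field `E` lies in the closed set `D = 0` (the set of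
the common zeros of the forms in `D`). -/
def In (D : Set (MvPolynomial (Fin (M + 1)) ℂ)) {E : Type} [Field E] [Algebra ℂ E]
    (z : Fin (M + 1) → E) : Prop :=
  ∀ G ∈ D, IsForm G → val z G = 0

/-- The centre of the place `P` of `E`, with respect to the point with the coordinates `z`, lies in
the closed set `D = 0`: all forms in `D` vanish at the centre. -/
def CentreIn (D : Set (MvPolynomial (Fin (M + 1)) ℂ)) {E : Type} [Field E] [Algebra ℂ E]
    (z : Fin (M + 1) → E) (P : Place ℂ E) : Prop :=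
  ∀ G ∈ D, ∀ d : ℕ, G.IsHomogeneous d →
    val z G = 0 ∨ ∃ j, z j ≠ 0 ∧ d * P.ord (z j) < P.ord (val z G)

variable {L : Type} [Field L] [Algebra ℂ L]

/-- `z` is a point over `E` of the projective variety with the generic point `y` (the variety of the
forms which vanish at `y`). -/
def Pt (y : Fin (M + 1) → L) {E : Type} [Field E] [Algebra ℂ E] (z : Fin (M + 1) → E) : Prop :=
  z ≠ 0 ∧ ∀ G : MvPolynomial (Fin (M + 1)) ℂ, IsForm G → val y G = 0 → val z G = 0

/-- The rational function `f` on the projective variety with the generic point `y` is defined at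
the point `z` over `E`, by a quotient of forms of the same degree, and has there the value `f'`. -/
def Value (y : Fin (M + 1) → L) (f : L) {E : Type} [Field E] [Algebra ℂ E] (z : Fin (M + 1) → E)
    (f' : E) : Prop :=
  ∃ (d : ℕ) (A B : MvPolynomial (Fin (M + 1)) ℂ), A.IsHomogeneous d ∧ B.IsHomogeneous d ∧
    val z B ≠ 0 ∧ f * val y B = val y A ∧ f' * val z B = val z A

/-- The quasi-projective variety `X - {D = 0}`, where `X` is the projective variety with the generic
point `y`, is pseudo-Picard hyperbolic: the holomorphic maps from the punctured disc to it with an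
essential singularity lie in a proper closed subset. -/
def PseudoPicard (y : Fin (M + 1) → L) (D : Set (MvPolynomial (Fin (M + 1)) ℂ)) : Prop :=
  ∃ R : MvPolynomial (Fin (M + 1)) ℂ, IsForm R ∧ val y R ≠ 0 ∧
    ∀ f, EssentialDisc y f → (∀ t ∈ ball (0 : ℂ) 1 \ {0}, ¬ In D (f t)) →
      ∀ t ∈ ball (0 : ℂ) 1 \ {0}, MvPolynomial.eval (f t) R = 0

/-- The variety `X - {D = 0}` is pseudo-Brody hyperbolic: the nonconstant entire curves in it lie in
a proper closed subset. -/
def PseudoBrody (y : Fin (M + 1) → L) (D : Set (MvPolynomial (Fin (M + 1)) ℂ)) : Prop :=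
  ∃ R : MvPolynomial (Fin (M + 1)) ℂ, IsForm R ∧ val y R ≠ 0 ∧
    ∀ f, EntireCurve y f → (∀ t, ¬ In D fun i => f i t) →
      ∀ t, MvPolynomial.eval (fun i => f i t) R = 0

/-- The images of the nonconstant morphisms from the multiplicative group to the variety
`X - {D = 0}` lie in a proper closed subset. -/
def PseudoGm (y : Fin (M + 1) → L) (D : Set (MvPolynomial (Fin (M + 1)) ℂ)) : Prop :=
  ∃ R : MvPolynomial (Fin (M + 1)) ℂ, IsForm R ∧ val y R ≠ 0 ∧
    ∀ f, TorusCurve y f → (∀ t, t ≠ 0 → ¬ In D fun i => (f i).eval t) →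
      ∀ t, t ≠ 0 → MvPolynomial.eval (fun i => (f i).eval t) R = 0

/-- The variety `X - {D = 0}`, of dimension `w`, is of logarithmic general type. -/
def LogGT (y : Fin (M + 1) → L) (D : Set (MvPolynomial (Fin (M + 1)) ℂ)) (w : ℕ) : Prop :=
  LogGeneralType ℂ L w (CentreIn D y)

/-- The variety `X - {D = 0}` is strongly of logarithmic general type: all closed subvarieties of
positive dimension which are not contained in a proper closed subset are of logarithmic general
type. -/
def StronglyLog (y : Fin (M + 1) → L) (D : Set (MvPolynomial (Fin (M + 1)) ℂ)) : Prop :=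
  ∃ R : MvPolynomial (Fin (M + 1)) ℂ, IsForm R ∧ val y R ≠ 0 ∧
    ∀ (E : Type) [Field E] [Algebra ℂ E] (w : ℕ) (z : Fin (M + 1) → E), SubOf ℂ y z → ¬ In D z →
      val z R ≠ 0 → 1 ≤ w → Algebra.trdeg ℂ E = w → LogGT z D w

end variety

section weights

variable {N : ℕ} (p : Fin N → ℕ) (S : Set (∀ i, Fin (p i) → ℕ))

/-- There are weights `α i > 0`, `β i j ≥ 0` with `∑ j, β i j < α i * (p i - 2)` for all `i`, such
that `∑ α i ≤ ∑ β i j * k i j` for all vectors `k ≠ 0` in `S` (with the sum over all `i` on the left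
hand side). -/
def Strong : Prop :=
  ∃ (α : Fin N → ℝ) (β : ∀ i, Fin (p i) → ℝ), (∀ i, 0 < α i) ∧ (∀ i j, 0 ≤ β i j) ∧
    (∀ i, ∑ j, β i j < α i * ((p i : ℝ) - 2)) ∧
    ∀ k ∈ S, k ≠ 0 → ∑ i, α i ≤ ∑ i, ∑ j, β i j * k i j

/-- The weaker criterion, with the sum over those `i` for which `k i ≠ 0` on the left hand side. -/
def Good : Prop :=
  ∃ (α : Fin N → ℝ) (β : ∀ i, Fin (p i) → ℝ), (∀ i, 0 < α i) ∧ (∀ i j, 0 ≤ β i j) ∧
    (∀ i, ∑ j, β i j < α i * ((p i : ℝ) - 2)) ∧
    ∀ k ∈ S, ∑ i, (if k i = 0 then 0 else α i) ≤ ∑ i, ∑ j, β i j * k i j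

/-- The conditions of `Strong`, up to the conditions `p i ≥ 3`. -/
def WideStrong : Prop :=
  ∃ (α : Fin N → ℝ) (β : ∀ i, Fin (p i) → ℝ), (∀ i, 0 < α i) ∧ (∀ i j, 0 ≤ β i j) ∧
    (∀ i, ∑ j, β i j < α i * max 1 ((p i : ℝ) - 2)) ∧
    ∀ k ∈ S, k ≠ 0 → ∑ i, α i ≤ ∑ i, ∑ j, β i j * k i j

/-- The conditions of `Good`, up to the conditions `p i ≥ 3`. -/
def Wide : Prop :=
  ∃ (α : Fin N → ℝ) (β : ∀ i, Fin (p i) → ℝ), (∀ i, 0 < α i) ∧ (∀ i j, 0 ≤ β i j) ∧
    (∀ i, ∑ j, β i j < α i * max 1 ((p i : ℝ) - 2)) ∧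
    ∀ k ∈ S, ∑ i, (if k i = 0 then 0 else α i) ≤ ∑ i, ∑ j, β i j * k i j

/-- the criterion `Good` with integral weights -/
def NGood (α : Fin N → ℕ) (β : ∀ i, Fin (p i) → ℕ) : Prop :=
  (∀ i, ∑ j, β i j < α i * (p i - 2)) ∧
    ∀ k ∈ S, ∑ i, (if k i = 0 then 0 else α i) ≤ ∑ i, ∑ j, β i j * k i j

/-- the criterion `Strong` with integral weights -/
def NStrong (α : Fin N → ℕ) (β : ∀ i, Fin (p i) → ℕ) : Prop :=
  (∀ i, ∑ j, β i j < α i * (p i - 2)) ∧
    ∀ k ∈ S, k ≠ 0 → ∑ i, α i ≤ ∑ i, ∑ j, β i j * k i j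

/-- the criterion for one form -/
def NOne (α : ℕ) (β : ∀ i, Fin (p i) → ℕ) : Prop :=
  (∀ i, ∑ j, β i j < α * (p i - 2)) ∧
    ∀ k ∈ S, k ≠ 0 → α ≤ ∑ i, ∑ j, β i j * k i j

end weights

section functions

variable {N : ℕ} {p : Fin N → ℕ} (a : ∀ i, Fin (p i) → ℂ)

/-- The multiplicities of the values `a i j` of the functions `x i` at the place `P`. -/
noncomputable def mult {E : Type} [Field E] [Algebra ℂ E] (P : Place ℂ E) (x : Fin N → E) :
    ∀ i, Fin (p i) → ℕ :=
  fun i j => (P.ord (x i - algebraMap ℂ E (a i j))).toNat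

variable {M : ℕ} {L : Type} [Field L] [Algebra ℂ L]

/-- `x i`, `i < N`, are rational functions on the variety `X - {D = 0}` which define a generically
finite rational map to the product of `N` projective lines, with the values `a i j`, and all vectors
of multiplicities of these values are in the set `S`: for every point `z` of the variety `X` over a
field `E`, not in a fixed proper closed subset `R = 0`, where the functions are defined and different
from the `a i j`, and every discrete valuation `P` of `E` with the centre in `X - {D = 0}`. -/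
structure Family (y : Fin (M + 1) → L) (D : Set (MvPolynomial (Fin (M + 1)) ℂ)) (x : Fin N → L)
    (S : Set (∀ i, Fin (p i) → ℕ)) : Prop where
  ne : ∀ i j, x i ≠ algebraMap ℂ L (a i j)
  alg : Algebra.IsAlgebraic (IntermediateField.adjoin ℂ (Set.range x)) L
  mem : ∃ R : MvPolynomial (Fin (M + 1)) ℂ, IsForm R ∧ val y R ≠ 0 ∧
    ∀ (E : Type) [Field E] [Algebra ℂ E] (z : Fin (M + 1) → E) (x' : Fin N → E), Pt y z →
      val z R ≠ 0 → (∀ i, Value y (x i) z (x' i)) → (∀ i j, x' i ≠ algebraMap ℂ E (a i j)) →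
      ∀ P : Place ℂ E, ¬ CentreIn D z P → mult a P x' ∈ S

/-- The closed set `D = 0` is the union of the fibres of the functions `x i` over the values `a i j`,
`j ∈ O i`: for every point `z` over a field `E` where the functions are defined and different from
all values `a i j`, and every discrete valuation `P` of `E`, the centre of `P` is in `D = 0` if and
only if one of the functions `x i` has the value `a i j`, `j ∈ O i`, at `P`. -/
def Fibres (y : Fin (M + 1) → L) (D : Set (MvPolynomial (Fin (M + 1)) ℂ)) (x : Fin N → L)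
    (O : ∀ i, Set (Fin (p i))) : Prop :=
  ∀ (E : Type) [Field E] [Algebra ℂ E] (z : Fin (M + 1) → E) (x' : Fin N → E), Pt y z →
    (∀ i, Value y (x i) z (x' i)) → (∀ i j, x' i ≠ algebraMap ℂ E (a i j)) →
    ∀ P : Place ℂ E, CentreIn D z P ↔ ∃ i, ∃ j ∈ O i, 0 < P.ord (x' i - algebraMap ℂ E (a i j))

end functions

section covers

variable {N r : ℕ} (B : Pool.Agent.H583_GP.Branch N r)

/-- the possible vectors of multiplicities for the complement of the fibres over the points
`a i j`, `j ∈ O i` -/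
def AdmO (O : ∀ i, Set (Fin (B.p i))) : Set (∀ i, Fin (B.p i) → ℕ) :=
  {k | B.Adm k ∧ ∀ i, ∀ j ∈ O i, k i j = 0}

end covers

end Pool.Agent.H583_GQ
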