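import Pool.Agent.H583_GP.GT
import Pool.Agent.H583_GQ.Defs

/-!
Logarithmic general type.
-/

set_option autoImplicit false

open FF Pool.Agent.W602.GT Pool.Agent.W603.LV Pool.Agent.W602.Cov.G

namespace Pool.Agent.H583_GQ

open Pool.Agent.H583_GP (eta eta_mul eta_ge eta_reg eta_exists eta_ne exists_basis0 exists_basis
  const_of_alg num num_sum num_nonneg num_ge)

variable {N d : ℕ} {p : Fin N → ℕ} {a : ∀ i, Fin (p i) → ℂ} {L : Type} [Field L] [Algebra ℂ L]

open Pool.Agent.H583_GP (Branch form form_pluri)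

/-- the branch datum without equations -/
abbrev lgB (a : ∀ i, Fin (p i) → ℂ) (ha : ∀ i, Function.Injective (a i)) : Branch N 0 where
  p := p
  a := a
  inj := ha
  m := fun l => l.elim0
  pos := fun l => l.elim0
  e := fun l => l.elim0
  inf := fun l => l.elim0

/-- the multiplicities and the pole orders at a place -/
theorem lg_place (ha : ∀ i, Function.Injective (a i)) (P : Place ℂ L) {x : Fin N → L}
    (hne : ∀ i j, x i ≠ algebraMap ℂ L (a i j)) :
    ∃ l : Fin N → ℕ, (lgB a ha).Adm (mult a P x) ∧ ∀ i,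
      (l i = 0 ∧ P.Reg (x i) ∧ ∀ j, P.ord (x i - algebraMap ℂ L (a i j)) = mult a P x i j) ∨
      (0 < l i ∧ mult a P x i = 0 ∧ x i ≠ 0 ∧ P.ord (x i) = -l i ∧
        ∀ c, x i - algebraMap ℂ L c ≠ 0 ∧ P.ord (x i - algebraMap ℂ L c) = -l i) := by
  obtain ⟨K, l, hK, hP⟩ := Branch.place (B := lgB a ha) P (x := x) (w := fun l => l.elim0) hne
    (fun l => l.elim0)
  have hKm : K = mult a P x := by
    funext i j
    rcases hP i with ⟨-, -, h3⟩ | ⟨-, h2, -, -, h3⟩
    · have h4 := h3 j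
      show K i j = (P.ord (x i - algebraMap ℂ L (a i j))).toNat
      rw [h4]
      exact (Int.toNat_natCast _).symm
    · have h4 := (h3 (a i j)).2
      show K i j = (P.ord (x i - algebraMap ℂ L (a i j))).toNat
      rw [h4, h2]
      simp
  rw [hKm] at hK hP
  exact ⟨l, hK, hP⟩

/-- determinants with regular entries -/
theorem lg_det (P : Place ℂ L) (M : Matrix (Fin d) (Fin d) L) (h : ∀ i j, Ge P 0 (M i j)) :
    Ge P 0 M.det := by
  rw [Matrix.det_apply]
  refine Ge.sum _ _ fun σ _ => ?_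
  rw [Units.smul_def, zsmul_eq_mul]
  have h1 : Ge P (∑ _i : Fin d, (0 : ℤ)) (∏ i, M (σ i) i) := Ge.prod _ _ _ fun i _ => h _ _
  rw [Finset.sum_const_zero] at h1
  have h2 := (Ge.intCast (P := P) ((Equiv.Perm.sign σ : ℤˣ) : ℤ)).mul h1
  rw [zero_add] at h2
  exact h2

/-- the orders of the wedge products at a place of the boundary -/
theorem lg_eta_log (P : Place ℂ L) (D : Fin d → Derivation ℂ L L)
    (hD : ∀ i, DerLog P (D i)) {x : Fin N → L} (c : Fin d → Fin N) (b : Fin d → ℂ)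
    (hb : ∀ s, x (c s) - algebraMap ℂ L (b s) ≠ 0) :
    Ge P (∑ s, P.ord (x (c s) - algebraMap ℂ L (b s))) (eta x c D) := by
  have h1 : eta x c D = (∏ s, (x (c s) - algebraMap ℂ L (b s))) *
      (Matrix.of fun l s : Fin d => D l (x (c s) - algebraMap ℂ L (b s)) /
        (x (c s) - algebraMap ℂ L (b s))).det := by
    unfold Pool.Agent.H583_GP.eta
    rw [← Matrix.det_mul_row]
    congr 1
    ext i s
    simp only [Matrix.of_apply]
    rw [mul_div_cancel₀ _ (hb s), map_sub, Derivation.map_algebraMap, sub_zero]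
  rw [h1]
  have h2 : Ge P (∑ s, P.ord (x (c s) - algebraMap ℂ L (b s)))
      (∏ s, (x (c s) - algebraMap ℂ L (b s))) :=
    Ge.prod _ _ _ fun s _ => ge_ord P _
  have h3 := h2.mul (lg_det P (Matrix.of fun l s : Fin d =>
    D l (x (c s) - algebraMap ℂ L (b s)) / (x (c s) - algebraMap ℂ L (b s))) fun l s => hD l _)
  rw [add_zero] at h3
  exact h3

theorem lg_eta_place (ha : ∀ i, Function.Injective (a i)) (hp : ∀ i, 3 ≤ p i) (P : Place ℂ L)
    (D : Fin d → Derivation ℂ L L) (hD : ∀ i, DerLog P (D i)) {x : Fin N → L}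
    {K : ∀ i, Fin (p i) → ℕ} {l : Fin N → ℕ}
    (hne : ∀ i j, x i ≠ algebraMap ℂ L (a i j)) (hK : (lgB a ha).Adm K)
    (h : ∀ i, (l i = 0 ∧ P.Reg (x i) ∧ ∀ j, P.ord (x i - algebraMap ℂ L (a i j)) = K i j) ∨
      (0 < l i ∧ K i = 0 ∧ x i ≠ 0 ∧ P.ord (x i) = -l i ∧
        ∀ c, x i - algebraMap ℂ L c ≠ 0 ∧ P.ord (x i - algebraMap ℂ L c) = -l i))
    (c : Fin d → Fin N) :
    Ge P (∑ s, ((∑ j, (K (c s) j : ℤ)) - 2 * l (c s))) (eta x c D) := by
  classical
  choose j hj using Branch.Adm.sel (B := lgB a ha) hp hK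
  have hb : ∀ i, ∃ b : ℂ, x i - algebraMap ℂ L b ≠ 0 ∧
      (∑ j, (K i j : ℤ)) - 2 * l i ≤ P.ord (x i - algebraMap ℂ L b) := by
    intro i
    rcases h i with ⟨h3, -, h4⟩ | ⟨h3, h6, -, -, h7⟩
    · refine ⟨a i (j i), sub_ne_zero.2 (hne i _), ?_⟩
      rw [h4, h3]
      have h5 := hj i
      have h8 : ((K i (j i) : ℕ) : ℤ) = ∑ j', (K i j' : ℤ) := by
        rw [h5]
        push_cast
        rfl
      rw [h8]
      simp
    · refine ⟨0, (h7 0).1, ?_⟩
      rw [(h7 0).2, h6]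
      simp only [Pi.zero_apply, Nat.cast_zero, Finset.sum_const_zero]
      omega
  choose b hb1 hb2 using hb
  refine (lg_eta_log P D hD c (fun s => b (c s)) fun s => hb1 _).mono ?_
  exact Finset.sum_le_sum fun s _ => hb2 (c s)

theorem lg_form_ge (ha : ∀ i, Function.Injective (a i)) {α : Fin N → ℕ}
    {β : ∀ i, Fin (p i) → ℕ} {x : Fin N → L} {T : Finset (Fin N)} {c : Fin N → Fin d → Fin N}
    (hnum : ∀ i, Transcendental ℂ (x i) →
      ∑ j, (β i j : ℤ) < num T α c i * ((p i : ℤ) - 2)) (P : Place ℂ L)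
    {h : L} (hh : h = 1 ∨ ∃ i, h = x i) {K : ∀ i, Fin (p i) → ℕ} {l : Fin N → ℕ}
    (hP : ∀ i, (l i = 0 ∧ P.Reg (x i) ∧ ∀ j, P.ord (x i - algebraMap ℂ L (a i j)) = K i j) ∨
      (0 < l i ∧ K i = 0 ∧ x i ≠ 0 ∧ P.ord (x i) = -l i ∧
        ∀ c, x i - algebraMap ℂ L c ≠ 0 ∧ P.ord (x i - algebraMap ℂ L c) = -l i))
    (δ : ℤ) (D : Fin d → Derivation ℂ L L)
    (hη : ∀ t, Ge P ((∑ s, ((∑ j, (K (c t s) j : ℤ)) - 2 * l (c t s))) - δ) (eta x (c t) D))
    (hδ : δ * ∑ t ∈ T, (α t : ℤ) ≤ ∑ i, ∑ j, (β i j : ℤ) * K i j) :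
    P.Reg (form (lgB a ha) x T α β c h D) := by
  classical
  -- the constant coordinates
  have hl0 : ∀ i, ¬ Transcendental ℂ (x i) → l i = 0 := by
    intro i hi
    obtain ⟨b, hb⟩ := const_of_alg (of_not_not hi)
    rcases hP i with ⟨h1, -⟩ | ⟨-, -, -, -, h1⟩
    · exact h1
    · exact absurd (sub_eq_zero.2 hb) (h1 b).1
  -- the order of the factor `h`
  obtain ⟨lam, hlam1, hlam2⟩ : ∃ lam : ℤ, lam ≤ ∑ i, (l i : ℤ) ∧ Ge P (-lam) h := by
    rcases hh with rfl | ⟨i, rfl⟩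
    · refine ⟨0, Finset.sum_nonneg fun i _ => Int.natCast_nonneg _, ?_⟩
      rw [neg_zero]
      exact Ge.one
    · refine ⟨l i, Finset.single_le_sum (f := fun i => (l i : ℤ))
        (fun i _ => Int.natCast_nonneg _) (Finset.mem_univ i), ?_⟩
      rcases hP i with ⟨h1, h2, -⟩ | ⟨h1, -, h3, h2, -⟩
      · rw [h1]
        exact h2
      · exact Or.inr h2.ge
  have h1 : Ge P (∑ t ∈ T, (α t : ℤ) * ((∑ s, ((∑ j, (K (c t s) j : ℤ)) - 2 * l (c t s))) -
      δ)) (∏ t ∈ T, eta x (c t) D ^ α t) := by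
    refine Ge.prod _ _ _ fun t _ => ?_
    exact (hη t).pow (α t)
  have hord : ∀ i j, P.ord (x i - algebraMap ℂ L (a i j)) = K i j - l i := by
    intro i j
    rcases hP i with ⟨h2, -, h3⟩ | ⟨-, h2, -, -, h3⟩
    · rw [h3, h2]
      simp
    · rw [(h3 _).2, h2]
      simp
  have h2 : Ge P (∑ i, ∑ j, ((β i j : ℤ) - num T α c i) * (K i j - l i))
      (∏ i, ∏ j, (x i - algebraMap ℂ L (a i j)) ^ ((β i j : ℤ) - num T α c i)) := by
    refine Ge.prod _ _ _ fun i _ => Ge.prod _ _ _ fun j _ => ?_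
    rw [← hord, ← P.ord_zpow]
    exact ge_ord P _
  have h3 := h1.mul (h2.mul hlam2)
  unfold Pool.Agent.H583_GP.form
  refine h3.mono ?_
  -- the computation
  have e1 : ∑ t ∈ T, (α t : ℤ) * ((∑ s, ((∑ j, (K (c t s) j : ℤ)) - 2 * l (c t s))) - δ) =
      ∑ i, num T α c i * ((∑ j, (K i j : ℤ)) - 2 * l i) - δ * ∑ t ∈ T, (α t : ℤ) := by
    rw [num_sum]
    rw [Finset.mul_sum, ← Finset.sum_sub_distrib]
    exact Finset.sum_congr rfl fun t _ => by ring
  have e2 : ∑ i, ∑ j, ((β i j : ℤ) - num T α c i) * (K i j - l i) =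
      ∑ i, ∑ j, (β i j : ℤ) * K i j - ∑ i, num T α c i * (∑ j, (K i j : ℤ)) +
        ∑ i, (l i : ℤ) * (p i * num T α c i - ∑ j, (β i j : ℤ)) := by
    rw [← Finset.sum_sub_distrib, ← Finset.sum_add_distrib]
    refine Finset.sum_congr rfl fun i _ => ?_
    have e3 : ∀ j, ((β i j : ℤ) - num T α c i) * (K i j - l i) =
        ((β i j : ℤ) * K i j - num T α c i * K i j) + (l i * num T α c i - l i * β i j) :=
      fun j => by ring
    have e8 : ∑ j, (l i : ℤ) * β i j = l i * ∑ j, (β i j : ℤ) := (Finset.mul_sum _ _ _).symm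
    have e9 : ∑ j, num T α c i * K i j = num T α c i * ∑ j, (K i j : ℤ) :=
      (Finset.mul_sum _ _ _).symm
    rw [Finset.sum_congr rfl fun j _ => e3 j, Finset.sum_add_distrib, Finset.sum_sub_distrib,
      Finset.sum_sub_distrib, e8, e9, Finset.sum_const,
      Finset.card_univ, Fintype.card_fin, nsmul_eq_mul]
    ring
  have e5 : ∑ i, (l i : ℤ) ≤ ∑ i, (l i : ℤ) *
      ((p i * num T α c i - ∑ j, (β i j : ℤ)) - 2 * num T α c i) := by
    refine Finset.sum_le_sum fun i _ => ?_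
    by_cases hi : Transcendental ℂ (x i)
    · have h4 := hnum i hi
      have h9 : (1 : ℤ) ≤ (p i * num T α c i - ∑ j, (β i j : ℤ)) - 2 * num T α c i := by
        have : (p i * num T α c i - ∑ j, (β i j : ℤ)) - 2 * num T α c i =
          num T α c i * ((p i : ℤ) - 2) - ∑ j, (β i j : ℤ) := by ring
        rw [this]
        linarith
      have h10 : (0 : ℤ) ≤ l i := Int.natCast_nonneg _
      nlinarith
    · rw [hl0 i hi]
      simp
  rw [e1, e2]
  have e6 : ∑ i, num T α c i * ((∑ j, (K i j : ℤ)) - 2 * l i) =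
      ∑ i, num T α c i * (∑ j, (K i j : ℤ)) - ∑ i, (l i : ℤ) * (2 * num T α c i) := by
    rw [← Finset.sum_sub_distrib]
    exact Finset.sum_congr rfl fun i _ => by ring
  have e7 : ∑ i, (l i : ℤ) * ((p i * num T α c i - ∑ j, (β i j : ℤ)) - 2 * num T α c i) =
      ∑ i, (l i : ℤ) * (p i * num T α c i - ∑ j, (β i j : ℤ)) -
        ∑ i, (l i : ℤ) * (2 * num T α c i) := by
    rw [← Finset.sum_sub_distrib]
    exact Finset.sum_congr rfl fun i _ => by ring
  rw [e6]
  rw [e7] at e5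
  linarith

theorem lg_general_of (ha : ∀ i, Function.Injective (a i)) {α : Fin N → ℕ}
    {β : ∀ i, Fin (p i) → ℕ} (hp : ∀ i, 3 ≤ p i) {x : Fin N → L}
    (hne : ∀ i j, x i ≠ algebraMap ℂ L (a i j))
    (halg : Algebra.IsAlgebraic (IntermediateField.adjoin ℂ (Set.range x)) L)
    (hd : Algebra.trdeg ℂ L = d) {Bd : Place ℂ L → Prop}
    {T : Finset (Fin N)} (hT : 0 < ∑ t ∈ T, α t) {c : Fin N → Fin d → Fin N}
    (hcost : ∀ P : Place ℂ L, Divisorial d P → ¬ Bd P → mult a P x ≠ 0 →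
      ∑ t ∈ T, α t ≤ ∑ i, ∑ j, β i j * mult a P x i j)
    (hnum : ∀ i, Transcendental ℂ (x i) →
      ∑ j, (β i j : ℤ) < num T α c i * ((p i : ℤ) - 2))
    (hc : ∀ t ∈ T, IsTranscendenceBasis ℂ fun s => x (c t s)) : LogGeneralType ℂ L d Bd := by
  classical
  obtain ⟨c0, hc0⟩ := exists_basis0 halg hd
  have hh : ∀ s : Fin (d + 1), (Fin.cases 1 (fun s => x (c0 s)) s : L) = 1 ∨
      ∃ i, (Fin.cases 1 (fun s => x (c0 s)) s : L) = x i := by
    intro s
    refine Fin.cases (Or.inl rfl) (fun s => Or.inr ⟨c0 s, rfl⟩) s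
  refine ⟨hd, ∑ t ∈ T, α t, hT, fun s => form (lgB a ha) x T α β c
    ((Fin.cases 1 (fun s => x (c0 s)) s : L)), fun s => form_pluri _ _ _ _ _ _, ?_, ?_, ?_⟩
  · intro P _ s D hD
    obtain ⟨l, hK, hP⟩ := lg_place ha P hne
    refine lg_form_ge ha hnum P (hh s) hP 0 D (fun t => ?_) ?_
    · rw [sub_zero]
      exact lg_eta_place ha hp P D hD hne hK hP (c t)
    · rw [zero_mul]
      exact Finset.sum_nonneg fun i _ => Finset.sum_nonneg fun j _ => by positivity
  · intro P hPd hPB s D hD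
    obtain ⟨l, hK, hP⟩ := lg_place ha P hne
    refine lg_form_ge ha hnum P (hh s) hP (if mult a P x = 0 then 0 else 1) D (fun t => ?_) ?_
    · exact Branch.eta_place (B := lgB a ha) hp P D hD hne hK hP (c t)
    · by_cases hK0 : mult a P x = 0
      · rw [if_pos hK0, zero_mul]
        exact Finset.sum_nonneg fun i _ => Finset.sum_nonneg fun j _ => by positivity
      · rw [if_neg hK0, one_mul]
        exact_mod_cast hcost P hPd hPB hK0
  · obtain ⟨D, hD⟩ := eta_exists x c0 hc0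
    have h2 : (∏ t ∈ T, eta x (c t) D ^ α t) ≠ 0 := by
      refine Finset.prod_ne_zero_iff.2 fun t ht => pow_ne_zero _ ?_
      exact eta_ne hc0 (hc t ht) hD
    have h3 : (∏ i, ∏ j, (x i - algebraMap ℂ L (a i j)) ^ ((β i j : ℤ) - num T α c i)) ≠ 0 :=
      Finset.prod_ne_zero_iff.2 fun i _ => Finset.prod_ne_zero_iff.2 fun j _ =>
        zpow_ne_zero _ (sub_ne_zero.2 (hne i j))
    refine ⟨D, ?_, ?_⟩
    · simp only [Pool.Agent.H583_GP.form, Fin.cases_zero, mul_one]
      exact mul_ne_zero h2 h3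
    · have h4 : (fun i : Fin d => form (lgB a ha) x T α β c
          ((Fin.cases 1 (fun s => x (c0 s)) i.succ : L)) D /
          form (lgB a ha) x T α β c ((Fin.cases 1 (fun s => x (c0 s)) (0 : Fin (d + 1)) : L)) D) =
          fun s => x (c0 s) := by
        funext s
        simp only [Pool.Agent.H583_GP.form, Fin.cases_zero, Fin.cases_succ, mul_one]
        rw [← mul_assoc, mul_div_right_comm, div_self (mul_ne_zero h2 h3), one_mul]
      rw [h4]
      exact hc0.1

/-- TARGET 1. Logarithmic general type, with several forms. -/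
theorem general_log {α : Fin N → ℕ} {β : ∀ i, Fin (p i) → ℕ} (ha : ∀ i, Function.Injective (a i))
    (hαβ : ∀ i, ∑ j, β i j < α i * (p i - 2)) {x : Fin N → L}
    (hne : ∀ i j, x i ≠ algebraMap ℂ L (a i j))
    (halg : Algebra.IsAlgebraic (IntermediateField.adjoin ℂ (Set.range x)) L)
    (hd : Algebra.trdeg ℂ L = d) (hd1 : 1 ≤ d) {Bd : Place ℂ L → Prop}
    (hmult : ∀ P : Place ℂ L, Divisorial d P → ¬ Bd P → mult a P x ≠ 0 →
      ∑ i, α i ≤ ∑ i, ∑ j, β i j * mult a P x i j) : LogGeneralType ℂ L d Bd := by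
  classical
  have hp : ∀ i, 3 ≤ p i := by
    intro i
    have h1 := hαβ i
    by_contra hcon
    have h2 : p i - 2 = 0 := by omega
    rw [h2, mul_zero] at h1
    omega
  obtain ⟨c0, hc0⟩ := exists_basis0 halg hd
  set T : Finset (Fin N) := Finset.univ.filter fun i => Transcendental ℂ (x i) with hT
  have h1 : ∀ i, ∃ c : Fin d → Fin N, i ∈ T →
      ((∃ s, c s = i) ∧ IsTranscendenceBasis ℂ fun s => x (c s)) := by
    intro i
    by_cases hi : i ∈ T
    · obtain ⟨c, hc⟩ := exists_basis halg hd (i := i) (by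
        simpa [hT] using hi)
      exact ⟨c, fun _ => hc⟩
    · exact ⟨c0, fun h => absurd h hi⟩
  choose c hc using h1
  have hc0T : ∀ s, c0 s ∈ T := by
    intro s
    simp only [hT, Finset.mem_filter, Finset.mem_univ, true_and]
    exact hc0.1.transcendental s
  have hα : ∀ i, 0 < α i := by
    intro i
    by_contra hcon
    have h2 := hαβ i
    have h3 : α i = 0 := by omega
    rw [h3, zero_mul] at h2
    omega
  refine lg_general_of ha (T := T) (c := c) (β := β) hp hne halg hd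
    (Finset.sum_pos (fun i _ => hα i) ⟨c0 ⟨0, hd1⟩, hc0T _⟩) (fun P hPd hPB hK0 => ?_)
    (fun i hi => ?_) fun t ht => (hc t ht).2
  · exact le_trans (Finset.sum_le_univ_sum_of_nonneg fun i => Nat.zero_le _) (hmult P hPd hPB hK0)
  · have hiT : i ∈ T := by simpa [hT] using hi
    have h4 := num_ge (α := α) hiT (hc i hiT).1
    have h5 := hαβ i
    have h6 : (2 : ℕ) ≤ p i := by have := hp i; omega
    have h7 : ((∑ j, β i j : ℕ) : ℤ) < ((α i * (p i - 2) : ℕ) : ℤ) := by exact_mod_cast h5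
    rw [Nat.cast_mul, Nat.cast_sub h6] at h7
    push_cast at h7
    have h8 : (α i : ℤ) * ((p i : ℤ) - 2) ≤ num T α c i * ((p i : ℤ) - 2) := by
      refine mul_le_mul_of_nonneg_right h4 ?_
      have : (2 : ℤ) ≤ p i := by exact_mod_cast h6
      linarith
    linarith

/-- TARGET 2. The logarithmic version of `Pool.Agent.H583_GP.general_one`. -/
theorem general_log_one {α : ℕ} {β : ∀ i, Fin (p i) → ℕ} (ha : ∀ i, Function.Injective (a i))
    (hαβ : ∀ i, ∑ j, β i j < α * (p i - 2)) {x : Fin N → L}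
    (hne : ∀ i j, x i ≠ algebraMap ℂ L (a i j))
    (halg : Algebra.IsAlgebraic (IntermediateField.adjoin ℂ (Set.range x)) L)
    (hx : AlgebraicIndependent ℂ x) (hN : 1 ≤ N) {Bd : Place ℂ L → Prop}
    (hmult : ∀ P : Place ℂ L, Divisorial N P → ¬ Bd P → mult a P x ≠ 0 →
      α ≤ ∑ i, ∑ j, β i j * mult a P x i j) : LogGeneralType ℂ L N Bd := by
  classical
  have hp : ∀ i, 3 ≤ p i := by
    intro i
    have h1 := hαβ i
    by_contra hcon
    have h2 : p i - 2 = 0 := by omega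
    rw [h2, mul_zero] at h1
    omega
  have hb : IsTranscendenceBasis ℂ x := by
    refine hx.isTranscendenceBasis_iff_isAlgebraic.2 ?_
    exact alg_adjoin halg
  have hd : Algebra.trdeg ℂ L = N := by
    have h1 := hb.cardinalMk_eq_trdeg
    rw [Cardinal.mk_fin] at h1
    exact h1.symm
  have hα : 0 < α := by
    by_contra hcon
    have h1 := hαβ ⟨0, hN⟩
    have h2 : α = 0 := by omega
    rw [h2, zero_mul] at h1
    omega
  have hnum : ∀ i, num {⟨0, hN⟩} (fun _ => α) (fun _ => id) i = (α : ℤ) := by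
    intro i
    unfold num
    rw [Finset.sum_singleton]
    simp
  refine lg_general_of ha (T := {⟨0, hN⟩}) (α := fun _ => α) (β := β) (c := fun _ => id) hp hne
    halg hd ?_ (fun P hPd hPB hK0 => ?_) (fun i _ => ?_) fun t ht => hb
  · rw [Finset.sum_singleton]
    exact hα
  · rw [Finset.sum_singleton]
    exact hmult P hPd hPB hK0
  · rw [hnum]
    have h6 : (2 : ℕ) ≤ p i := by have := hp i; omega
    have h7 : ((∑ j, β i j : ℕ) : ℤ) < ((α * (p i - 2) : ℕ) : ℤ) := by exact_mod_cast hαβ i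
    rw [Nat.cast_mul, Nat.cast_sub h6] at h7
    push_cast at h7
    exact h7

end Pool.Agent.H583_GQ

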