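import Pool.Agent.H583_GQ.NoGT
import Pool.Agent.H583_GQ.Defs
import Pool.Agent.Y221.PD.Tor

/-!
Images of the multiplicative group in the covers with at most two branch points on one of the lines.
-/

set_option autoImplicit false

open FF IntermediateField Pool.Agent.W602.GT

namespace Pool.Agent.H583_GQ

open Pool.Agent.H583_GP (Branch)
open Pool.Agent.TH466.QG (Sp)

variable {N r : ℕ} {B : Branch N r} {L : Type} [Field L] [Algebra ℂ L]

/-! ### auxiliary lemmas (J7) -/

/-! ### places of `ℂ(T)` -/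

/-- order at `s` -/
noncomputable def rordX (s : ℂ) (f : RatFunc ℂ) : ℤ :=
  (f.num.rootMultiplicity s : ℤ) - (f.denom.rootMultiplicity s : ℤ)

theorem rordX_eq (s : ℂ) {f : RatFunc ℂ} {p q : Polynomial ℂ} (hp : p ≠ 0) (hq : q ≠ 0)
    (h : f * algebraMap (Polynomial ℂ) (RatFunc ℂ) q = algebraMap (Polynomial ℂ) (RatFunc ℂ) p) :
    rordX s f = (p.rootMultiplicity s : ℤ) - (q.rootMultiplicity s : ℤ) := by
  have hq' : algebraMap (Polynomial ℂ) (RatFunc ℂ) q ≠ 0 := by
    rw [Ne, FaithfulSMul.algebraMap_eq_zero_iff]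
    exact hq
  have hd : f.denom ≠ 0 := f.denom_ne_zero
  have hd' : algebraMap (Polynomial ℂ) (RatFunc ℂ) f.denom ≠ 0 := by
    rw [Ne, FaithfulSMul.algebraMap_eq_zero_iff]
    exact hd
  have h1 : f * algebraMap (Polynomial ℂ) (RatFunc ℂ) f.denom =
      algebraMap (Polynomial ℂ) (RatFunc ℂ) f.num := by
    conv_lhs => rw [← RatFunc.num_div_denom f]
    rw [RatFunc.num_div_denom f]
    have := RatFunc.num_div_denom f
    rw [div_eq_iff hd'] at this
    exact this.symm
  have h2 : f.num * q = p * f.denom := by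
    apply RatFunc.algebraMap_injective ℂ
    rw [map_mul, map_mul, ← h1, ← h]
    ring
  have hn : f.num ≠ 0 := by
    rintro h0
    rw [h0, zero_mul] at h2
    exact (mul_ne_zero hp hd) h2.symm
  have h3 := congrArg (Polynomial.rootMultiplicity s) h2
  rw [Polynomial.rootMultiplicity_mul (mul_ne_zero hn hq),
    Polynomial.rootMultiplicity_mul (mul_ne_zero hp hd)] at h3
  unfold rordX
  omega

theorem rordX_poly (s : ℂ) {p : Polynomial ℂ} (hp : p ≠ 0) :
    rordX s (algebraMap (Polynomial ℂ) (RatFunc ℂ) p) = (p.rootMultiplicity s : ℤ) := by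
  have h := rordX_eq s (f := algebraMap (Polynomial ℂ) (RatFunc ℂ) p) hp one_ne_zero
    (by rw [map_one, mul_one])
  have h1 : (1 : Polynomial ℂ).rootMultiplicity s = 0 := by
    rw [Polynomial.rootMultiplicity_eq_zero_iff]
    intro h2
    simp at h2
  rw [h, h1]
  simp

theorem ratX_rep (f : RatFunc ℂ) (hf : f ≠ 0) : ∃ p q : Polynomial ℂ, p ≠ 0 ∧ q ≠ 0 ∧
    f * algebraMap (Polynomial ℂ) (RatFunc ℂ) q = algebraMap (Polynomial ℂ) (RatFunc ℂ) p := by
  have hd : f.denom ≠ 0 := f.denom_ne_zero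
  have hd' : algebraMap (Polynomial ℂ) (RatFunc ℂ) f.denom ≠ 0 := by
    rw [Ne, FaithfulSMul.algebraMap_eq_zero_iff]
    exact hd
  refine ⟨f.num, f.denom, ?_, hd, ?_⟩
  · rw [Ne, RatFunc.num_eq_zero_iff]
    exact hf
  · have := RatFunc.num_div_denom f
    rw [div_eq_iff hd'] at this
    exact this.symm

/-- the place of `ℂ(T)` at `T = s` -/
noncomputable def placeX (s : ℂ) : Place ℂ (RatFunc ℂ) where
  ord := rordX s
  ord_zero := by
    unfold rordX
    rw [RatFunc.num_zero, RatFunc.denom_zero]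
    have h1 : (1 : Polynomial ℂ).rootMultiplicity s = 0 := by
      rw [Polynomial.rootMultiplicity_eq_zero_iff]
      intro h2
      simp at h2
    rw [h1]
    simp
  ord_mul := by
    intro f g hf hg
    obtain ⟨p, q, hp, hq, h⟩ := ratX_rep f hf
    obtain ⟨p', q', hp', hq', h'⟩ := ratX_rep g hg
    rw [rordX_eq s hp hq h, rordX_eq s hp' hq' h',
      rordX_eq s (f := f * g) (mul_ne_zero hp hp') (mul_ne_zero hq hq')
        (by rw [map_mul, map_mul, ← h, ← h']; ring),
      Polynomial.rootMultiplicity_mul (mul_ne_zero hp hp'),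
      Polynomial.rootMultiplicity_mul (mul_ne_zero hq hq')]
    push_cast
    ring
  ord_add := by
    intro f g hf hg hfg
    obtain ⟨p, q, hp, hq, h⟩ := ratX_rep f hf
    obtain ⟨p', q', hp', hq', h'⟩ := ratX_rep g hg
    have h2 : (f + g) * algebraMap (Polynomial ℂ) (RatFunc ℂ) (q * q') =
        algebraMap (Polynomial ℂ) (RatFunc ℂ) (p * q' + p' * q) := by
      rw [map_mul, map_add, map_mul, map_mul, ← h, ← h']
      ring
    have hqq : algebraMap (Polynomial ℂ) (RatFunc ℂ) (q * q') ≠ 0 := by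
      rw [Ne, FaithfulSMul.algebraMap_eq_zero_iff]
      exact mul_ne_zero hq hq'
    have h3 : p * q' + p' * q ≠ 0 := by
      intro h0
      rw [h0, map_zero] at h2
      exact (mul_ne_zero hfg hqq) h2
    have h4 := Polynomial.rootMultiplicity_add (a := s) h3
    rw [Polynomial.rootMultiplicity_mul (mul_ne_zero hp hq'),
      Polynomial.rootMultiplicity_mul (mul_ne_zero hp' hq)] at h4
    rw [rordX_eq s hp hq h, rordX_eq s hp' hq' h', rordX_eq s h3 (mul_ne_zero hq hq') h2,
      Polynomial.rootMultiplicity_mul (mul_ne_zero hq hq')]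
    push_cast
    omega
  ord_const := by
    intro c hc
    have h1 : algebraMap ℂ (RatFunc ℂ) c =
        algebraMap (Polynomial ℂ) (RatFunc ℂ) (Polynomial.C c) := by
      rw [RatFunc.algebraMap_eq_C, RatFunc.algebraMap_C]
    have h2 : (Polynomial.C c).rootMultiplicity s = 0 := by
      rw [Polynomial.rootMultiplicity_eq_zero_iff]
      intro h2
      rw [Polynomial.IsRoot, Polynomial.eval_C] at h2
      exact absurd h2 hc
    rw [h1, rordX_poly s (Polynomial.C_ne_zero.2 hc), h2]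
    rfl
  surj := by
    refine ⟨algebraMap (Polynomial ℂ) (RatFunc ℂ) (Polynomial.X - Polynomial.C s), ?_, ?_⟩
    · rw [Ne, FaithfulSMul.algebraMap_eq_zero_iff]
      exact Polynomial.X_sub_C_ne_zero s
    · rw [rordX_poly s (Polynomial.X_sub_C_ne_zero s), Polynomial.rootMultiplicity_X_sub_C_self]
      rfl

theorem placeX_poly (s : ℂ) {p : Polynomial ℂ} (hp : p ≠ 0) :
    (placeX s).ord (algebraMap (Polynomial ℂ) (RatFunc ℂ) p) = (p.rootMultiplicity s : ℤ) :=
  rordX_poly s hp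

theorem placeX_pos (s : ℂ) {p : Polynomial ℂ} (hp : p ≠ 0) (h : p.eval s = 0) :
    0 < (placeX s).ord (algebraMap (Polynomial ℂ) (RatFunc ℂ) p) := by
  rw [placeX_poly s hp]
  have := (Polynomial.rootMultiplicity_pos hp).2 (show p.IsRoot s from h)
  exact_mod_cast this

theorem placeX_zero (s : ℂ) {p : Polynomial ℂ} (h : p.eval s ≠ 0) :
    (placeX s).ord (algebraMap (Polynomial ℂ) (RatFunc ℂ) p) = 0 := by
  have hp : p ≠ 0 := by
    rintro rfl
    simp at h
  rw [placeX_poly s hp, Polynomial.rootMultiplicity_eq_zero h]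
  rfl

/-! ### quotients of forms -/

theorem form_quotX {M : ℕ} {L : Type} [Field L] [Algebra ℂ L] {y : Fin (M + 1) → L} {f : L}
    (hf : f ∈ coords ℂ y) : ∃ (d : ℕ) (A B : MvPolynomial (Fin (M + 1)) ℂ), A.IsHomogeneous d ∧
      B.IsHomogeneous d ∧ val y B ≠ 0 ∧ f * val y B = val y A := by
  unfold coords at hf
  induction hf using IntermediateField.adjoin_induction with
  | mem f hf =>
    obtain ⟨i, j, hj, rfl⟩ := hf
    refine ⟨1, MvPolynomial.X i, MvPolynomial.X j, MvPolynomial.isHomogeneous_X _ _,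
      MvPolynomial.isHomogeneous_X _ _, ?_, ?_⟩
    · unfold Pool.Agent.W602.GT.val
      rwa [MvPolynomial.aeval_X]
    · unfold Pool.Agent.W602.GT.val
      rw [MvPolynomial.aeval_X, MvPolynomial.aeval_X]
      field_simp
  | algebraMap c =>
    refine ⟨0, MvPolynomial.C c, MvPolynomial.C 1, MvPolynomial.isHomogeneous_C _ _,
      MvPolynomial.isHomogeneous_C _ _, ?_, ?_⟩
    · unfold Pool.Agent.W602.GT.val
      simp
    · unfold Pool.Agent.W602.GT.val
      simp
  | add f g _ _ hf hg =>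
    obtain ⟨d, A, B, hA, hB, hB0, h⟩ := hf
    obtain ⟨d', A', B', hA', hB', hB0', h'⟩ := hg
    refine ⟨d + d', A * B' + B * A', B * B', (hA.mul hB').add (hB.mul hA'), hB.mul hB', ?_, ?_⟩
    · unfold Pool.Agent.W602.GT.val at *
      rw [map_mul]
      exact mul_ne_zero hB0 hB0'
    · unfold Pool.Agent.W602.GT.val at *
      rw [map_mul, map_add, map_mul, map_mul, ← h, ← h']
      ring
  | inv f _ hf =>
    obtain ⟨d, A, B, hA, hB, hB0, h⟩ := hf
    by_cases h0 : f = 0
    · refine ⟨0, MvPolynomial.C 0, MvPolynomial.C 1, MvPolynomial.isHomogeneous_C _ _,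
        MvPolynomial.isHomogeneous_C _ _, ?_, ?_⟩
      · unfold Pool.Agent.W602.GT.val
        simp
      · unfold Pool.Agent.W602.GT.val
        simp [h0]
    · refine ⟨d, B, A, hB, hA, ?_, ?_⟩
      · rw [← h]
        exact mul_ne_zero h0 hB0
      · rw [← h]
        field_simp
  | mul f g _ _ hf hg =>
    obtain ⟨d, A, B, hA, hB, hB0, h⟩ := hf
    obtain ⟨d', A', B', hA', hB', hB0', h'⟩ := hg
    refine ⟨d + d', A * A', B * B', hA.mul hA', hB.mul hB', ?_, ?_⟩
    · unfold Pool.Agent.W602.GT.val at *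
      rw [map_mul]
      exact mul_ne_zero hB0 hB0'
    · unfold Pool.Agent.W602.GT.val at *
      rw [map_mul, map_mul, ← h, ← h']
      ring


/-- the specialization of fractions given by a pair of homomorphisms of a ring -/
def spFracX {k K K'' A : Type} [Field k] [Field K] [Field K''] [Algebra k K] [Algebra k K'']
    [CommRing A] [Algebra k A] (α : A →ₐ[k] K) (β : A →ₐ[k] K'') (h : ∀ a, α a = 0 → β a = 0) :
    Sp k K K'' where
  T f g := ∃ a b, β b ≠ 0 ∧ f * α b = α a ∧ g * β b = β a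
  add := by
    rintro x y x' y' ⟨a, b, hb, h1, h2⟩ ⟨a', b', hb', h1', h2'⟩
    refine ⟨a * b' + a' * b, b * b', ?_, ?_, ?_⟩
    · rw [map_mul]
      exact mul_ne_zero hb hb'
    · rw [map_mul, map_add, map_mul, map_mul, ← h1, ← h1']
      ring
    · rw [map_mul, map_add, map_mul, map_mul, ← h2, ← h2']
      ring
  mul := by
    rintro x y x' y' ⟨a, b, hb, h1, h2⟩ ⟨a', b', hb', h1', h2'⟩
    refine ⟨a * a', b * b', ?_, ?_, ?_⟩
    · rw [map_mul]
      exact mul_ne_zero hb hb'
    · rw [map_mul, map_mul, ← h1, ← h1']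
      ring
    · rw [map_mul, map_mul, ← h2, ← h2']
      ring
  const c := by
    refine ⟨algebraMap k A c, 1, ?_, ?_, ?_⟩
    · rw [map_one]
      exact one_ne_zero
    · rw [map_one, mul_one, AlgHom.commutes]
    · rw [map_one, mul_one, AlgHom.commutes]
  uniq := by
    rintro x' ⟨a, b, hb, h1, h2⟩
    rw [zero_mul] at h1
    rw [h a h1.symm] at h2
    exact (mul_eq_zero.1 h2).resolve_right hb


/-- a polynomial curve gives a morphism from the multiplicative group, with the relation to the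
polynomials -/
theorem torusX {M : ℕ} {L : Type} [Field L] [Algebra ℂ L] {x : Fin (M + 1) → L}
    (p : Fin (M + 1) → Polynomial ℂ)
    (hp : ∀ G : MvPolynomial (Fin (M + 1)) ℂ, IsForm G → val x G = 0 → MvPolynomial.aeval p G = 0)
    {i j : Fin (M + 1)} {a b : ℂ} (hab : (p i).eval a * (p j).eval b ≠ (p j).eval a * (p i).eval b)
    {R : MvPolynomial (Fin (M + 1)) ℂ} (hR : IsForm R) (hRp : MvPolynomial.aeval p R ≠ 0) :
    ∃ (e : Fin (M + 1) → Polynomial ℂ) (g : Polynomial ℂ), Pool.Agent.Y221.PD.TorusCurve x e ∧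
      (∃ t, t ≠ 0 ∧ MvPolynomial.eval (fun i => (e i).eval t) R ≠ 0) ∧ g ≠ 0 ∧
      (∀ i, p i = g * e i) ∧ ∀ t, ∃ i, (e i).eval t ≠ 0 := by
  classical
  obtain ⟨g, hg⟩ : ∃ g : Polynomial ℂ, Ideal.span (Set.range p) = Ideal.span {g} :=
    (IsPrincipalIdealRing.principal (Ideal.span (Set.range p))).principal
  have hdvd : ∀ i, g ∣ p i := by
    intro i
    rw [← Ideal.mem_span_singleton, ← hg]
    exact Ideal.subset_span ⟨i, rfl⟩
  choose e he using hdvd
  have hg0 : g ≠ 0 := by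
    intro h0
    apply hab
    rw [he i, he j, h0]
    simp
  obtain ⟨c, hc⟩ : ∃ c : Fin (M + 1) → Polynomial ℂ, ∑ i, c i * p i = g := by
    have h1 : g ∈ Ideal.span (Set.range p) := by
      rw [hg]
      exact Ideal.mem_span_singleton_self g
    exact Ideal.mem_span_range_iff_exists_fun.1 h1
  have hc1 : ∑ i, c i * e i = 1 := by
    apply mul_left_cancel₀ hg0
    rw [mul_one, Finset.mul_sum]
    conv_rhs => rw [← hc]
    refine Finset.sum_congr rfl fun i _ => ?_
    conv_rhs => rw [he i]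
    ring
  have hpe : ∀ (G : MvPolynomial (Fin (M + 1)) ℂ) {d : ℕ}, G.IsHomogeneous d → ∀ t,
      (MvPolynomial.aeval p G).eval t = g.eval t ^ d * (MvPolynomial.aeval e G).eval t := by
    intro G d hG t
    rw [Pool.Agent.Y221.BD.eval_poly, Pool.Agent.Y221.BD.eval_poly]
    have h1 := val_smul hG (g.eval t) (fun i => (e i).eval t)
    have h2 : (fun i => g.eval t * (e i).eval t) = fun i => (p i).eval t := by
      funext i
      rw [he i, Polynomial.eval_mul]
    rw [h2] at h1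
    unfold Pool.Agent.W602.GT.val at h1
    rw [MvPolynomial.aeval_eq_eval, MvPolynomial.aeval_eq_eval] at h1
    exact h1
  have hinf : Set.Infinite ({0}ᶜ : Set ℂ) := (Set.finite_singleton 0).infinite_compl
  have hzero : ∀ q : Polynomial ℂ, (∀ t, t ≠ 0 → q.eval t = 0) → q = 0 := by
    intro q hq
    exact Polynomial.eq_zero_of_infinite_isRoot q (hinf.mono fun t ht => hq t ht)
  have hne : ∀ t, ∃ i, (e i).eval t ≠ 0 := by
    intro t
    by_contra hcon
    push Not at hcon
    have h1 := congrArg (Polynomial.eval t) hc1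
    rw [Polynomial.eval_finsetSum, Polynomial.eval_one] at h1
    rw [Finset.sum_eq_zero fun i _ => by rw [Polynomial.eval_mul, hcon i, mul_zero]] at h1
    exact zero_ne_one h1
  refine ⟨e, g, ⟨fun t _ => hne t, ?_, ?_⟩, ?_, hg0, he, hne⟩
  · intro G hG hxG t _
    rw [← Pool.Agent.Y221.BD.eval_poly]
    have h0 := hp G hG hxG
    obtain ⟨d, hd⟩ := hG
    have h1 : g ^ d * MvPolynomial.aeval e G = 0 := by
      apply Polynomial.funext
      intro t
      rw [Polynomial.eval_mul, Polynomial.eval_pow, ← hpe G hd, h0]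
    rw [(mul_eq_zero.1 h1).resolve_left (pow_ne_zero _ hg0), Polynomial.eval_zero]
  · by_contra hcon
    push Not at hcon
    have hcon' : ∀ a b, a ≠ 0 → b ≠ 0 → (e i).eval a * (e j).eval b = (e j).eval a * (e i).eval b :=
      fun a b ha hb => hcon i j a b ha hb
    apply hab
    have h1 : ∀ b, b ≠ 0 → ∀ a, (e i).eval a * (e j).eval b = (e j).eval a * (e i).eval b := by
      intro b hb a
      have h2 := hzero (e i * Polynomial.C ((e j).eval b) - e j * Polynomial.C ((e i).eval b))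
        fun t ht => by
          rw [Polynomial.eval_sub, Polynomial.eval_mul, Polynomial.eval_mul, Polynomial.eval_C,
            Polynomial.eval_C, hcon' t b ht hb, sub_self]
      have h3 := congrArg (Polynomial.eval a) h2
      rw [Polynomial.eval_sub, Polynomial.eval_mul, Polynomial.eval_mul, Polynomial.eval_C,
            Polynomial.eval_C, Polynomial.eval_zero] at h3
      exact sub_eq_zero.1 h3
    have h4 : (e i).eval a * (e j).eval b = (e j).eval a * (e i).eval b := by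
      have h2 := hzero (Polynomial.C ((e i).eval a) * e j - Polynomial.C ((e j).eval a) * e i)
        fun t ht => by
          rw [Polynomial.eval_sub, Polynomial.eval_mul, Polynomial.eval_mul, Polynomial.eval_C,
            Polynomial.eval_C, h1 t ht a, sub_self]
      have h3 := congrArg (Polynomial.eval b) h2
      rw [Polynomial.eval_sub, Polynomial.eval_mul, Polynomial.eval_mul, Polynomial.eval_C,
            Polynomial.eval_C, Polynomial.eval_zero] at h3
      exact sub_eq_zero.1 h3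
    rw [he i, he j]
    simp only [Polynomial.eval_mul]
    linear_combination g.eval a * g.eval b * h4
  · by_contra hcon
    push Not at hcon
    apply hRp
    obtain ⟨d, hd⟩ := hR
    apply hzero
    intro t ht
    rw [hpe R hd, Pool.Agent.Y221.BD.eval_poly, hcon t ht, mul_zero]

/-- a common denominator -/
theorem common_denX {m : ℕ} (z : Fin m → RatFunc ℂ) : ∃ (Q : Polynomial ℂ)
    (P : Fin m → Polynomial ℂ), Q ≠ 0 ∧ ∀ j, algebraMap (Polynomial ℂ) (RatFunc ℂ) Q * z j =
      algebraMap (Polynomial ℂ) (RatFunc ℂ) (P j) := by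
  classical
  refine ⟨∏ j, (z j).denom, fun j => (z j).num * ∏ l ∈ Finset.univ.erase j, (z l).denom,
    Finset.prod_ne_zero_iff.2 fun j _ => (z j).denom_ne_zero, fun j => ?_⟩
  rw [← Finset.mul_prod_erase _ _ (Finset.mem_univ j), map_mul, map_mul]
  have hd : algebraMap (Polynomial ℂ) (RatFunc ℂ) (z j).denom ≠ 0 := by
    rw [Ne, FaithfulSMul.algebraMap_eq_zero_iff]
    exact (z j).denom_ne_zero
  have h1 := RatFunc.num_div_denom (z j)
  rw [div_eq_iff hd] at h1
  rw [h1]
  ring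

theorem val_polyX {M : ℕ} (P : Fin (M + 1) → Polynomial ℂ)
    (G : MvPolynomial (Fin (M + 1)) ℂ) :
    val (fun j => algebraMap (Polynomial ℂ) (RatFunc ℂ) (P j)) G =
      algebraMap (Polynomial ℂ) (RatFunc ℂ) (MvPolynomial.aeval P G) := by
  unfold Pool.Agent.W602.GT.val
  exact MvPolynomial.aeval_algebraMap_apply (RatFunc ℂ) P G

theorem zpow_nonconstX {c : ℂ} (hc : c ≠ 0) {k : ℤ} (hk : k ≠ 0) (e : ℂ) :
    algebraMap ℂ (RatFunc ℂ) c * RatFunc.X ^ k ≠ algebraMap ℂ (RatFunc ℂ) e := by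
  intro h
  have hX : (RatFunc.X : RatFunc ℂ) ≠ 0 := RatFunc.X_ne_zero
  have hcc : algebraMap ℂ (RatFunc ℂ) c ≠ 0 := by
    rw [Ne, FaithfulSMul.algebraMap_eq_zero_iff]
    exact hc
  have he : e ≠ 0 := by
    rintro rfl
    rw [map_zero] at h
    exact (mul_ne_zero hcc (zpow_ne_zero _ hX)) h
  have h1 : (placeX 0).ord RatFunc.X = 1 := by
    rw [← RatFunc.algebraMap_X, placeX_poly 0 Polynomial.X_ne_zero]
    have h2 := Polynomial.rootMultiplicity_X_sub_C_self (x := (0 : ℂ))
    rw [map_zero, sub_zero] at h2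
    rw [h2]
    rfl
  have h2 := congrArg (placeX 0).ord h
  rw [(placeX 0).ord_mul hcc (zpow_ne_zero _ hX), (placeX 0).ord_const hc,
    (placeX 0).ord_const he, (placeX 0).ord_zpow, h1] at h2
  omega


/-- TARGET 1: a specialisation of `C(σ)` to the rational function field `ℂ(T)` which maps `σ` to `T`
and finitely many elements of `C` to constants. Proof: write each `ϑ ∈ Θ` as a quotient of two
polynomials in `σ` over `C`, with denominator not zero. Let `R₀` be the subalgebra of `C` generated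
over `ℂ` by the coefficients of all these polynomials and by `Γ`; by Hilbert's Nullstellensatz
(`Pool.Agent.Y221.BD.specialise`, used in `poly_spec`, file Y221/BD/Cv.lean; or Mathlib) there is an
algebra homomorphism `φ : R₀ → ℂ` which does not map a given nonzero element of `R₀` to zero; take the
product of nonzero coefficients of the denominators. Then `T f g` holds if there are polynomials
`A, B` over `R₀` with `aeval σ B ≠ 0`, `φ B ≠ 0`, `f * aeval σ B = aeval σ A` and
`g * φ B = φ A` in `ℂ(T)`. -/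
theorem spx {C : IntermediateField ℂ L} {σ : L} (hσ : Transcendental C σ) (htop : C⟮σ⟯ = ⊤)
    {Γ Θ : Set L} (hΓ : Γ.Finite) (hΓC : ∀ c ∈ Γ, c ∈ C) (hΘ : Θ.Finite) :
    ∃ S : Sp ℂ L (RatFunc ℂ), S.T σ RatFunc.X ∧
      (∀ c ∈ Γ, ∃ c' : ℂ, S.T c (algebraMap ℂ (RatFunc ℂ) c')) ∧ ∀ ϑ ∈ Θ, ∃ g, S.T ϑ g := by
  classical
  -- quotients of polynomials
  have hrep : ∀ ϑ : L, ∃ r s : Polynomial C, Polynomial.aeval σ s ≠ 0 ∧
      ϑ * Polynomial.aeval σ s = Polynomial.aeval σ r := by
    intro ϑ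
    have h1 : ϑ ∈ C⟮σ⟯ := by
      rw [htop]
      exact IntermediateField.mem_top
    obtain ⟨r, s, h2⟩ := IntermediateField.mem_adjoin_simple_iff C _ |>.1 h1
    by_cases h3 : Polynomial.aeval σ s = 0
    · refine ⟨0, 1, by simp, ?_⟩
      rw [h2, h3, div_zero, zero_mul, map_zero]
    · refine ⟨r, s, h3, ?_⟩
      rw [h2]
      field_simp
  choose r s hs hrs using hrep
  have hΓf : Finite Γ := hΓ.to_subtype
  have hΘf : Finite Θ := hΘ.to_subtype
  -- a bound for the degrees
  obtain ⟨D, hD⟩ : ∃ D, ∀ ϑ : Θ, (r ϑ).natDegree < D ∧ (s ϑ).natDegree < D := by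
    obtain ⟨D1, hD1⟩ := (Set.finite_range fun ϑ : Θ => (r ϑ).natDegree).bddAbove
    obtain ⟨D2, hD2⟩ := (Set.finite_range fun ϑ : Θ => (s ϑ).natDegree).bddAbove
    refine ⟨D1 + D2 + 1, fun ϑ => ⟨?_, ?_⟩⟩
    · have := hD1 ⟨ϑ, rfl⟩
      simp only at this
      omega
    · have := hD2 ⟨ϑ, rfl⟩
      simp only at this
      omega
  let I : Type := Γ ⊕ (Θ × Bool × Fin D)
  let z : I → C := fun i => match i with
    | Sum.inl c => ⟨c.1, hΓC c.1 c.2⟩
    | Sum.inr (ϑ, b, l) => if b then (r ϑ).coeff l else (s ϑ).coeff l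
  let PP : Θ → Bool → Polynomial (MvPolynomial I ℂ) := fun ϑ b =>
    ∑ l : Fin D, Polynomial.C (MvPolynomial.X (Sum.inr (ϑ, b, l))) * Polynomial.X ^ (l : ℕ)
  let ev : ∀ (A : Type) [Field A] [Algebra ℂ A] (u : I → A),
      Polynomial (MvPolynomial I ℂ) →ₐ[ℂ] Polynomial A := fun A _ _ u =>
    Polynomial.mapAlgHom (MvPolynomial.aeval u)
  have hevP : ∀ ϑ, ev C z (PP ϑ true) = r ϑ := by
    intro ϑ
    simp only [ev, PP, z]
    rw [map_sum, Polynomial.as_sum_range' (r ϑ) D (hD ϑ).1, ← Fin.sum_univ_eq_sum_range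
      (fun l => Polynomial.monomial l ((r ϑ).coeff l))]
    refine Finset.sum_congr rfl fun l _ => ?_
    rw [map_mul, map_pow, Polynomial.coe_mapAlgHom, Polynomial.map_C, Polynomial.map_X,
      ← Polynomial.C_mul_X_pow_eq_monomial]
    simp
  have hevS : ∀ ϑ, ev C z (PP ϑ false) = s ϑ := by
    intro ϑ
    simp only [ev, PP, z]
    rw [map_sum, Polynomial.as_sum_range' (s ϑ) D (hD ϑ).2, ← Fin.sum_univ_eq_sum_range
      (fun l => Polynomial.monomial l ((s ϑ).coeff l))]
    refine Finset.sum_congr rfl fun l _ => ?_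
    rw [map_mul, map_pow, Polynomial.coe_mapAlgHom, Polynomial.map_C, Polynomial.map_X,
      ← Polynomial.C_mul_X_pow_eq_monomial]
    simp
  have hco : ∀ (A : Type) [Field A] [Algebra ℂ A] (u : I → A) (Q : Polynomial (MvPolynomial I ℂ))
      (l : ℕ), (ev A u Q).coeff l = MvPolynomial.aeval u (Q.coeff l) := by
    intro A _ _ u Q l
    simp only [ev]
    rw [Polynomial.coe_mapAlgHom, Polynomial.coeff_map]
    rfl
  -- nonzero coefficients
  have hl : ∀ ϑ : Θ, ∃ l, MvPolynomial.aeval z ((PP ϑ false).coeff l) ≠ 0 := by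
    intro ϑ
    by_contra hcon
    push Not at hcon
    apply hs ϑ
    have : s ϑ = 0 := by
      rw [← hevS]
      ext l
      rw [hco, hcon l, Polynomial.coeff_zero]
    rw [this, map_zero]
  choose l hl using hl
  have : Fintype Θ := Fintype.ofFinite Θ
  obtain ⟨z0, hz0, hrel⟩ := specialise z (∏ ϑ : Θ, (PP ϑ false).coeff (l ϑ)) (by
    rw [map_prod]
    exact Finset.prod_ne_zero_iff.2 fun ϑ _ => hl ϑ)
  rw [map_prod] at hz0
  have hz0' := Finset.prod_ne_zero_iff.1 hz0
  -- the homomorphisms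
  let α : Polynomial (MvPolynomial I ℂ) →ₐ[ℂ] L :=
    ((Polynomial.aeval σ : Polynomial C →ₐ[C] L).restrictScalars ℂ).comp (ev C z)
  let β : Polynomial (MvPolynomial I ℂ) →ₐ[ℂ] RatFunc ℂ :=
    (IsScalarTower.toAlgHom ℂ (Polynomial ℂ) (RatFunc ℂ)).comp (ev ℂ z0)
  have hα : ∀ a, α a = Polynomial.aeval σ (ev C z a) := fun a => rfl
  have hβ : ∀ a, β a = algebraMap (Polynomial ℂ) (RatFunc ℂ) (ev ℂ z0 a) := fun a => rfl
  have hαβ : ∀ a, α a = 0 → β a = 0 := by
    intro a ha
    rw [hα] at ha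
    have h1 : ev C z a = 0 := by
      apply (transcendental_iff_injective.1 hσ)
      rw [ha, map_zero]
    have h2 : ev ℂ z0 a = 0 := by
      ext l
      rw [hco, Polynomial.coeff_zero]
      apply hrel
      rw [← hco, h1, Polynomial.coeff_zero]
    rw [hβ, h2, map_zero]
  refine ⟨spFracX α β hαβ, ?_, ?_, ?_⟩
  · refine ⟨Polynomial.X, 1, ?_, ?_, ?_⟩
    · rw [map_one]
      exact one_ne_zero
    · rw [map_one, mul_one, hα]
      simp [ev]
    · rw [map_one, mul_one, hβ]
      simp [ev, RatFunc.algebraMap_X]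
  · intro c hc
    refine ⟨z0 (Sum.inl ⟨c, hc⟩), Polynomial.C (MvPolynomial.X (Sum.inl ⟨c, hc⟩)), 1, ?_, ?_, ?_⟩
    · rw [map_one]
      exact one_ne_zero
    · rw [map_one, mul_one, hα]
      simp [ev, z]
    · rw [map_one, mul_one, hβ]
      simp [ev, RatFunc.algebraMap_eq_C]
  · intro ϑ hϑ
    have h1 : β (PP ⟨ϑ, hϑ⟩ false) ≠ 0 := by
      rw [hβ, Ne, FaithfulSMul.algebraMap_eq_zero_iff]
      intro h0
      apply hz0' ⟨ϑ, hϑ⟩ (Finset.mem_univ _)
      rw [← hco, h0, Polynomial.coeff_zero]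
    refine ⟨β (PP ⟨ϑ, hϑ⟩ true) / β (PP ⟨ϑ, hϑ⟩ false), PP ⟨ϑ, hϑ⟩ true, PP ⟨ϑ, hϑ⟩ false, h1,
      ?_, ?_⟩
    · rw [hα, hα, hevP, hevS]
      exact hrs ϑ
    · field_simp


/-- TARGET 2. Proof: suppose `R` is a form with `val y R ≠ 0` which vanishes on the images of all
nonconstant morphisms from the multiplicative group to `X - {D = 0}`. Fix `i1` with `y i1 ≠ 0` and
write `x i = A i (y) / B i (y)` with forms `A i`, `B i` of the same degree (possible as
`coords ℂ y = ⊤`). Apply `spx` to the data of `cover_gm` with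
`Γ = {y', y'⁻¹} ∪ {x i, (x i - a i j)⁻¹ | i ≠ i0}` (where `y'` is the element `y` of `cover_gm`) and
`Θ` = the `y j / y i1`, the `x i`, the `(x i - a i j)⁻¹`, `t`, `t⁻¹`, and the inverses of
`R(y / y i1)` and `B i (y / y i1)`. Let `z j ∈ ℂ(T)` be the value of `y j / y i1`, `x' i` the value of
`x i`. Then: `z i1 = 1`, `Pt y z`, `val z R ≠ 0`, `val z (B i) ≠ 0`, `Value y (x i) z (x' i)`,
`x' i ≠ a i j`, `x' i` is a constant for `i ≠ i0`, the value of `t` is `c T ^ k`, `c ≠ 0` a
constant, and `Rel (B.a i0) b0 b1 (x' i0) (c T ^ k)`; so `x' i0` is not a constant, as `k ≠ 0`, and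
therefore `z` is not a multiple of a vector of constants, as `x' i0 = A (z) / B (z)`. Multiply with a
common denominator to get polynomials `P j` with `z j = P j / Q`, and apply
`Pool.Agent.Y221.PD.torus_of_poly` (file Y221/PD/Tor.lean; use its proof if you need that the
resulting polynomials `e j` are the `P j` divided by their greatest common divisor): polynomials
`e j` without common zeros on which `R` does not vanish identically. It remains to see that
`¬ In D (e (s))` for all `s ≠ 0`: let `P` be the place of `ℂ(T)` at `T = s` (construct it, or find it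
in the libraries, e.g. via `IsDedekindDomain.HeightOneSpectrum`, root multiplicities, or one of the
existing `Place` constructions). We have `z = λ e` with `λ ∈ ℂ(T)`, and `P.ord (e j) = 0` for one
`j`; so, if all forms of `D` vanish at `e (s)`, then `CentreIn D z P`. By `hD` there are `i`,
`j ∈ O i` with `P.ord (x' i - a i j) > 0`. But for `i ≠ i0` this is a nonzero constant, of order 0,
and for `i = i0` the order is `≤ 0` by `Rel.ord_le`, as `P.ord (c T ^ k) = 0`. -/
theorem not_gm {x : Fin N → L} {w : Fin r → L} (hC : B.Cover x w) {i0 : Fin N}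
    (hi0 : B.p i0 ≤ 2) {M : ℕ} {y : Fin (M + 1) → L} (hy : y ≠ 0) (hgen : coords ℂ y = ⊤)
    {D : Set (MvPolynomial (Fin (M + 1)) ℂ)} {O : ∀ i, Set (Fin (B.p i))}
    (hD : Fibres B.a y D x O) : ¬ PseudoGm y D := by
  classical
  rintro ⟨R, hRf, hRy, hcon⟩
  obtain ⟨C, σ, t, y', k, b0, b1, hσ, htop, hxC, hyC, hk, ht, hty, hrel⟩ := cover_gm hC hi0
  obtain ⟨i1, hi1'⟩ := Function.ne_iff.1 hy
  have hi1 : y i1 ≠ 0 := hi1'
  have hσ0 : σ ≠ 0 := by
    rintro rfl
    exact hσ isAlgebraic_zero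
  have hy'0 : y' ≠ 0 := by
    rintro rfl
    apply ht
    rw [hty, zero_mul]
  have hxne : ∀ i (c : ℂ), x i ≠ algebraMap ℂ L c := by
    intro i c h
    have h1 := hC.ind.transcendental i
    rw [h] at h1
    exact h1 (isAlgebraic_algebraMap c)
  -- forms
  have hq : ∀ i, ∃ (d : ℕ) (A B' : MvPolynomial (Fin (M + 1)) ℂ), A.IsHomogeneous d ∧
      B'.IsHomogeneous d ∧ val y B' ≠ 0 ∧ x i * val y B' = val y A := fun i =>
    form_quotX (by rw [hgen]; exact IntermediateField.mem_top)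
  choose d A B' hA hB' hB0 hAB using hq
  obtain ⟨yn, hyn⟩ : ∃ yn : Fin (M + 1) → L, yn = fun j => (y i1)⁻¹ * y j := ⟨_, rfl⟩
  have hyi : (y i1)⁻¹ ≠ 0 := inv_ne_zero hi1
  have hval : ∀ (G : MvPolynomial (Fin (M + 1)) ℂ) (d : ℕ), G.IsHomogeneous d →
      val yn G = (y i1)⁻¹ ^ d * val y G := by
    intro G d hG
    rw [hyn]
    exact val_smul hG (y i1)⁻¹ y
  obtain ⟨dR, hdR⟩ := hRf
  have hRn : val yn R ≠ 0 := by
    rw [hval R dR hdR]
    exact mul_ne_zero (pow_ne_zero _ hyi) hRy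
  have hBn : ∀ i, val yn (B' i) ≠ 0 := by
    intro i
    rw [hval _ _ (hB' i)]
    exact mul_ne_zero (pow_ne_zero _ hyi) (hB0 i)
  have hABn : ∀ i, x i * val yn (B' i) = val yn (A i) := by
    intro i
    rw [hval _ _ (hB' i), hval _ _ (hA i), ← hAB i]
    ring
  -- specialisation
  have hΓfin : ({c : L | c = y' ∨ c = y'⁻¹ ∨ ∃ i, i ≠ i0 ∧ c = x i}).Finite := by
    refine ((Set.finite_singleton y').union ((Set.finite_singleton y'⁻¹).union
      (Set.finite_range x))).subset ?_
    rintro c (rfl | rfl | ⟨i, _, rfl⟩)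
    · exact Or.inl rfl
    · exact Or.inr (Or.inl rfl)
    · exact Or.inr (Or.inr ⟨i, rfl⟩)
  have hΘfin : ({c : L | c = σ⁻¹ ∨ c = (val yn R)⁻¹ ∨ (∃ j, c = yn j) ∨ (∃ i, c = x i) ∨
      (∃ i, c = (val yn (B' i))⁻¹) ∨
      ∃ p : (Σ i, Fin (B.p i)), c = (x p.1 - algebraMap ℂ L (B.a p.1 p.2))⁻¹}).Finite := by
    refine ((Set.finite_singleton σ⁻¹).union ((Set.finite_singleton (val yn R)⁻¹).union
      ((Set.finite_range yn).union ((Set.finite_range x).union
      ((Set.finite_range fun i => (val yn (B' i))⁻¹).union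
      (Set.finite_range fun p : (Σ i, Fin (B.p i)) =>
        (x p.1 - algebraMap ℂ L (B.a p.1 p.2))⁻¹)))))).subset ?_
    rintro c (rfl | rfl | ⟨j, rfl⟩ | ⟨i, rfl⟩ | ⟨i, rfl⟩ | ⟨p, rfl⟩)
    · exact Or.inl rfl
    · exact Or.inr (Or.inl rfl)
    · exact Or.inr (Or.inr (Or.inl ⟨j, rfl⟩))
    · exact Or.inr (Or.inr (Or.inr (Or.inl ⟨i, rfl⟩)))
    · exact Or.inr (Or.inr (Or.inr (Or.inr (Or.inl ⟨i, rfl⟩))))
    · exact Or.inr (Or.inr (Or.inr (Or.inr (Or.inr ⟨p, rfl⟩))))
  obtain ⟨S, hSσ, hSΓ, hSΘ⟩ := spx hσ htop hΓfin (by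
    rintro c (rfl | rfl | ⟨i, hi, rfl⟩)
    · exact hyC
    · exact inv_mem hyC
    · exact hxC i hi) hΘfin
  have hz' : ∀ j, ∃ g, S.T (yn j) g := fun j => hSΘ _ (Or.inr (Or.inr (Or.inl ⟨j, rfl⟩)))
  choose z hz using hz'
  have hx'' : ∀ i, ∃ g, S.T (x i) g := fun i => hSΘ _ (Or.inr (Or.inr (Or.inr (Or.inl ⟨i, rfl⟩))))
  choose x' hx' using hx''
  obtain ⟨g1, hg1⟩ := hSΘ σ⁻¹ (Or.inl rfl)
  have hX0 : (RatFunc.X : RatFunc ℂ) ≠ 0 := RatFunc.X_ne_zero
  have hg1X : g1 = RatFunc.X⁻¹ := by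
    have h1 := S.mul hSσ hg1
    rw [mul_inv_cancel₀ hσ0] at h1
    have h2 := S.ext h1 S.one
    exact eq_inv_of_mul_eq_one_right h2
  rw [hg1X] at hg1
  have hσk : ∀ k : ℤ, S.T (σ ^ k) (RatFunc.X ^ k) := by
    intro k
    cases k with
    | ofNat n =>
      rw [Int.ofNat_eq_natCast, zpow_natCast, zpow_natCast]
      exact S.pow hSσ n
    | negSucc n =>
      rw [zpow_negSucc, zpow_negSucc, ← inv_pow, ← inv_pow]
      exact S.pow hg1 (n + 1)
  obtain ⟨c, hc⟩ := hSΓ y' (Or.inl rfl)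
  obtain ⟨c2, hc2⟩ := hSΓ y'⁻¹ (Or.inr (Or.inl rfl))
  have hc0 : c ≠ 0 := by
    rintro rfl
    have h1 := S.mul hc hc2
    rw [mul_inv_cancel₀ hy'0, map_zero, zero_mul] at h1
    exact zero_ne_one (S.ext h1 S.one)
  obtain ⟨t', ht'⟩ : ∃ t' : RatFunc ℂ, t' = algebraMap ℂ (RatFunc ℂ) c * RatFunc.X ^ k := ⟨_, rfl⟩
  have htt : S.T t t' := by
    rw [hty, ht']
    exact S.mul hc (hσk k)
  have hcc : algebraMap ℂ (RatFunc ℂ) c ≠ 0 := by
    rw [Ne, FaithfulSMul.algebraMap_eq_zero_iff]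
    exact hc0
  have ht'0 : t' ≠ 0 := by
    rw [ht']
    exact mul_ne_zero hcc (zpow_ne_zero _ hX0)
  have hx'ne : ∀ i j, x' i ≠ algebraMap ℂ (RatFunc ℂ) (B.a i j) := by
    intro i j h
    have h1 := S.sub (hx' i) (S.const (B.a i j))
    exact S.ne_zero h1 (hSΘ _ (Or.inr (Or.inr (Or.inr (Or.inr (Or.inr ⟨⟨i, j⟩, rfl⟩))))))
      (sub_ne_zero.2 (hxne i _)) (sub_eq_zero.2 h)
  have hx'c : ∀ i, i ≠ i0 → ∃ e : ℂ, x' i = algebraMap ℂ (RatFunc ℂ) e := by
    intro i hi
    obtain ⟨e, he⟩ := hSΓ (x i) (Or.inr (Or.inr ⟨i, hi, rfl⟩))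
    exact ⟨e, S.ext (hx' i) he⟩
  have hz1 : z i1 = 1 := by
    have h1 := hz i1
    have h2 : yn i1 = 1 := by
      rw [hyn]
      exact inv_mul_cancel₀ hi1
    rw [h2] at h1
    exact S.ext h1 S.one
  have hform : ∀ G : MvPolynomial (Fin (M + 1)) ℂ, IsForm G → val y G = 0 → val z G = 0 := by
    rintro G ⟨dd, hG⟩ hG0
    refine S.eq_zero (S.val hz G) ?_
    rw [hval G dd hG, hG0, mul_zero]
  have hPt : Pt y z := by
    refine ⟨fun h => ?_, hform⟩
    rw [h] at hz1
    exact zero_ne_one hz1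
  have hzR : val z R ≠ 0 := S.ne_zero (S.val hz R) (hSΘ _ (Or.inr (Or.inl rfl))) hRn
  have hzB : ∀ i, val z (B' i) ≠ 0 := fun i => S.ne_zero (S.val hz (B' i))
    (hSΘ _ (Or.inr (Or.inr (Or.inr (Or.inr (Or.inl ⟨i, rfl⟩)))))) (hBn i)
  have hABz : ∀ i, x' i * val z (B' i) = val z (A i) := by
    intro i
    refine S.ext (S.mul (hx' i) (S.val hz (B' i))) ?_
    rw [hABn i]
    exact S.val hz (A i)
  have hVal : ∀ i, Value y (x i) z (x' i) := fun i =>
    ⟨d i, A i, B' i, hA i, hB' i, hzB i, hAB i, hABz i⟩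
  have hrel' : Rel (B.a i0) b0 b1 (x' i0) t' := by
    rcases hrel with ⟨h1, h2⟩ | ⟨h1, h2, h3⟩
    · refine Or.inl ⟨S.ext htt ?_, h2⟩
      rw [h1]
      exact S.sub (hx' i0) (S.const b0)
    · refine Or.inr ⟨h1, S.ext (S.mul htt (S.sub (hx' i0) (S.const b1))) ?_, h3⟩
      rw [h2]
      exact S.sub (hx' i0) (S.const b0)
  have hx'n : ∀ e : ℂ, x' i0 ≠ algebraMap ℂ (RatFunc ℂ) e := by
    intro e he
    have hinj : Function.Injective (algebraMap ℂ (RatFunc ℂ)) := (algebraMap ℂ (RatFunc ℂ)).injective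
    rcases hrel' with ⟨h1, _⟩ | ⟨h1, h2, _⟩
    · rw [he, ← map_sub, ht'] at h1
      exact zpow_nonconstX hc0 hk _ h1
    · rw [he, ← map_sub, ← map_sub] at h2
      by_cases h3 : e = b1
      · rw [h3, sub_self, map_zero, mul_zero] at h2
        have h4 := h2.symm
        rw [FaithfulSMul.algebraMap_eq_zero_iff] at h4
        exact h1 (sub_eq_zero.1 h4).symm
      · have h4 : algebraMap ℂ (RatFunc ℂ) (e - b1) ≠ 0 := by
          rw [Ne, FaithfulSMul.algebraMap_eq_zero_iff]
          exact sub_ne_zero.2 h3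
        apply zpow_nonconstX hc0 hk ((e - b0) / (e - b1))
        rw [← ht', map_div₀]
        field_simp
        exact h2
  -- polynomials
  obtain ⟨Q, P, hQ0, hP⟩ := common_denX z
  have hQ0' : algebraMap (Polynomial ℂ) (RatFunc ℂ) Q ≠ 0 := by
    rw [Ne, FaithfulSMul.algebraMap_eq_zero_iff]
    exact hQ0
  have hPi1 : P i1 = Q := by
    apply RatFunc.algebraMap_injective ℂ
    rw [← hP, hz1, mul_one]
  have hvalP : ∀ (G : MvPolynomial (Fin (M + 1)) ℂ) (dd : ℕ), G.IsHomogeneous dd →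
      algebraMap (Polynomial ℂ) (RatFunc ℂ) (MvPolynomial.aeval P G) =
        algebraMap (Polynomial ℂ) (RatFunc ℂ) Q ^ dd * val z G := by
    intro G dd hG
    rw [← val_polyX, ← val_smul hG]
    congr 1
    funext j
    exact (hP j).symm
  have hp : ∀ G : MvPolynomial (Fin (M + 1)) ℂ, IsForm G → val y G = 0 →
      MvPolynomial.aeval P G = 0 := by
    rintro G ⟨dd, hG⟩ hG0
    apply RatFunc.algebraMap_injective ℂ
    rw [hvalP G dd hG, hform G ⟨dd, hG⟩ hG0, mul_zero, map_zero]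
  have hRP : MvPolynomial.aeval P R ≠ 0 := by
    intro h0
    have h1 := hvalP R dR hdR
    rw [h0, map_zero] at h1
    exact (mul_ne_zero (pow_ne_zero _ hQ0') hzR) h1.symm
  obtain ⟨j1, a, b, hab⟩ : ∃ j1 a b, (P j1).eval a * (P i1).eval b ≠
      (P i1).eval a * (P j1).eval b := by
    by_contra hno
    push Not at hno
    obtain ⟨b, hb⟩ : ∃ b, Q.eval b ≠ 0 := by
      by_contra h
      push Not at h
      exact hQ0 (Polynomial.funext fun t => by rw [h t, Polynomial.eval_zero])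
    obtain ⟨κ, hκ⟩ : ∃ κ : Fin (M + 1) → ℂ, κ = fun j => (P j).eval b / Q.eval b := ⟨_, rfl⟩
    have h1 : ∀ j, P j = Polynomial.C (κ j) * Q := by
      intro j
      apply Polynomial.funext
      intro a
      have h2 := hno j a b
      rw [hPi1] at h2
      rw [Polynomial.eval_mul, Polynomial.eval_C, hκ]
      field_simp
      linear_combination h2
    have h2 : z = fun j => algebraMap ℂ (RatFunc ℂ) (κ j) := by
      funext j
      apply mul_left_cancel₀ hQ0'
      rw [hP j, h1 j, map_mul, RatFunc.algebraMap_C, ← RatFunc.algebraMap_eq_C]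
      ring
    have h3 : ∀ G : MvPolynomial (Fin (M + 1)) ℂ, val z G =
        algebraMap ℂ (RatFunc ℂ) (MvPolynomial.aeval κ G) := by
      intro G
      rw [h2]
      unfold Pool.Agent.W602.GT.val
      exact MvPolynomial.aeval_algebraMap_apply (RatFunc ℂ) κ G
    apply hx'n (MvPolynomial.aeval κ (A i0) / MvPolynomial.aeval κ (B' i0))
    rw [map_div₀, ← h3, ← h3, eq_div_iff (hzB i0)]
    exact hABz i0
  obtain ⟨e, g, hT, ⟨s0, hs0, hs0R⟩, hg0, hge, hne⟩ := torusX P hp hab ⟨dR, hdR⟩ hRP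
  have hg0' : algebraMap (Polynomial ℂ) (RatFunc ℂ) g ≠ 0 := by
    rw [Ne, FaithfulSMul.algebraMap_eq_zero_iff]
    exact hg0
  apply hs0R
  refine hcon e hT ?_ s0 hs0
  intro s hs hIn
  have hce : CentreIn D z (placeX s) := by
    intro G hG dd hGd
    by_cases h0 : val z G = 0
    · exact Or.inl h0
    right
    obtain ⟨j, hj⟩ := hne s
    have hej : e j ≠ 0 := by
      intro h
      rw [h, Polynomial.eval_zero] at hj
      exact hj rfl
    have hej' : algebraMap (Polynomial ℂ) (RatFunc ℂ) (e j) ≠ 0 := by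
      rw [Ne, FaithfulSMul.algebraMap_eq_zero_iff]
      exact hej
    have hzj : algebraMap (Polynomial ℂ) (RatFunc ℂ) Q * z j =
        algebraMap (Polynomial ℂ) (RatFunc ℂ) g * algebraMap (Polynomial ℂ) (RatFunc ℂ) (e j) := by
      rw [hP j, hge j, map_mul]
    have hzj0 : z j ≠ 0 := by
      intro h
      rw [h, mul_zero] at hzj
      exact (mul_ne_zero hg0' hej') hzj.symm
    have ho1 := congrArg (placeX s).ord hzj
    rw [(placeX s).ord_mul hQ0' hzj0, (placeX s).ord_mul hg0' hej', placeX_zero s hj,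
      add_zero] at ho1
    have hvale : algebraMap (Polynomial ℂ) (RatFunc ℂ) Q ^ dd * val z G =
        algebraMap (Polynomial ℂ) (RatFunc ℂ) g ^ dd *
          algebraMap (Polynomial ℂ) (RatFunc ℂ) (MvPolynomial.aeval e G) := by
      rw [← hvalP G dd hGd, ← val_polyX, ← val_polyX, ← val_smul hGd]
      congr 1
      funext l
      rw [hge l, map_mul]
    have heG : MvPolynomial.aeval e G ≠ 0 := by
      intro h
      rw [h, map_zero, mul_zero] at hvale
      exact (mul_ne_zero (pow_ne_zero _ hQ0') h0) hvale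
    have heG' : algebraMap (Polynomial ℂ) (RatFunc ℂ) (MvPolynomial.aeval e G) ≠ 0 := by
      rw [Ne, FaithfulSMul.algebraMap_eq_zero_iff]
      exact heG
    have heGs : (MvPolynomial.aeval e G).eval s = 0 := by
      rw [Pool.Agent.Y221.BD.eval_poly]
      have h1 := hIn G hG ⟨dd, hGd⟩
      unfold Pool.Agent.W602.GT.val at h1
      rw [MvPolynomial.aeval_eq_eval] at h1
      exact h1
    have hpos := placeX_pos s heG heGs
    have ho2 := congrArg (placeX s).ord hvale
    rw [(placeX s).ord_mul (pow_ne_zero _ hQ0') h0, (placeX s).ord_mul (pow_ne_zero _ hg0') heG',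
      (placeX s).ord_pow, (placeX s).ord_pow, ← ho1] at ho2
    refine ⟨j, hzj0, ?_⟩
    nlinarith
  obtain ⟨i, j, hj, hpos⟩ := (hD (RatFunc ℂ) z x' hPt hVal hx'ne (placeX s)).1 hce
  by_cases hi : i = i0
  · subst hi
    have hXs : (placeX s).ord (RatFunc.X : RatFunc ℂ) = 0 := by
      rw [← RatFunc.algebraMap_X]
      apply placeX_zero
      rw [Polynomial.eval_X]
      exact hs
    have hord : (placeX s).ord t' = 0 := by
      rw [ht', (placeX s).ord_mul hcc (zpow_ne_zero _ hX0), (placeX s).ord_const hc0,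
        (placeX s).ord_zpow, hXs]
      ring
    have h1 := Rel.ord_le hrel' (placeX s) (fun j => hx'ne i j) ht'0 hord j
    omega
  · obtain ⟨e', he'⟩ := hx'c i hi
    have h1 := hx'ne i j
    rw [he'] at h1 hpos
    have h2 : e' - B.a i j ≠ 0 := sub_ne_zero.2 fun h => h1 (by rw [h])
    rw [← map_sub, (placeX s).ord_const h2] at hpos
    exact lt_irrefl _ hpos

end Pool.Agent.H583_GQ
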