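import Pool.Agent.H583_GQ.Unb
import Pool.Agent.TH152.BB.Core

/-!
Pointed maps from curves to projective varieties.
-/

set_option autoImplicit false
set_option linter.overlappingInstances false
set_option linter.unusedSectionVars false

open FF IntermediateField Filter Pool.Agent.W602.GT Pool.Agent.TH466.QG Pool.Agent.W603.LV
  Pool.Agent.W603.PV Pool.Agent.W601.VF
open Pool.Agent.Y221.PD (TorusCurve)
open Pool.Agent.TH152.BB (HasVal bb_val bb_all)

namespace Pool.Agent.H583_GQ

variable {M : ℕ} {L : Type} [Field L] [Algebra ℂ L] {y : Fin (M + 1) → L}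

/-- The morphism from the smooth projective curve with the function field `E` to projective space
which is given by the homogeneous coordinates `z` maps the point `c` of the curve to the point with
the homogeneous coordinates `v`. -/
def MapsTo {E : Type} [Field E] [Algebra ℂ E] (c : Place ℂ E) (z : Fin (M + 1) → E)
    (v : Fin (M + 1) → ℂ) : Prop :=
  ∃ t : E, t ≠ 0 ∧ ∀ j, HasVal c (t * z j) (v j)

/-- The projective variety `X` with the generic point `y` is pseudo-geometrically hyperbolic: there is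
a proper closed subset such that, for every point `v` of `X` outside it, every smooth projective
curve, with the function field `E`, and every point `c` of the curve there are only finitely many
morphisms from the curve to `X` which map `c` to `v`. -/
def PseudoPointed (y : Fin (M + 1) → L) : Prop :=
  ∃ R : MvPolynomial (Fin (M + 1)) ℂ, IsForm R ∧ val y R ≠ 0 ∧
    ∀ v : Fin (M + 1) → ℂ, Pt y v → MvPolynomial.eval v R ≠ 0 →
      ∀ (E : Type) [Field E] [Algebra ℂ E] [IsFF ℂ E] (c : Place ℂ E),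
        ∃ T : Finset (Fin (M + 1) → E), ∀ z, Pt y z → MapsTo c z v →
          ∃ z' ∈ T, ∃ t : E, t ≠ 0 ∧ ∀ j, z' j = t * z j

/-- The closed set `1 = 0` is empty. -/
theorem not_centre_one {E : Type} [Field E] [Algebra ℂ E] {z : Fin (M + 1) → E} (P : Place ℂ E) :
    ¬ CentreIn {1} z P := by
  intro h
  have h1 : val z (1 : MvPolynomial (Fin (M + 1)) ℂ) = 1 := map_one _
  rcases h 1 rfl 0 (MvPolynomial.isHomogeneous_one _ _) with h2 | ⟨j, -, h2⟩
  · rw [h1] at h2
    exact one_ne_zero h2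
  · rw [h1, P.ord_one, Nat.cast_zero, zero_mul] at h2
    exact lt_irrefl _ h2

theorem not_in_one {E : Type} [Field E] [Algebra ℂ E] {z : Fin (M + 1) → E} : ¬ In {1} z := by
  intro h
  have h1 : val z (1 : MvPolynomial (Fin (M + 1)) ℂ) = 1 := map_one _
  have h2 := h 1 rfl ⟨0, MvPolynomial.isHomogeneous_one _ _⟩
  rw [h1] at h2
  exact one_ne_zero h2

/-- values of polynomials -/
theorem HasVal.poly {E : Type} [Field E] [Algebra ℂ E] {c : Place ℂ E} {z : Fin (M + 1) → E}
    {v : Fin (M + 1) → ℂ} (h : ∀ j, HasVal c (z j) (v j)) (G : MvPolynomial (Fin (M + 1)) ℂ) :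
    HasVal c (MvPolynomial.aeval z G) (MvPolynomial.eval v G) :=
  Pool.Agent.TH152.BB.HasVal.aeval h G

/-- **Linearly bounded degrees imply finiteness of pointed maps.** -/
theorem pointed_of_lin (h : LinBounded y {1}) : PseudoPointed y := by
  classical
  obtain ⟨R, hR, hyR, A, h⟩ := h
  refine ⟨R, hR, hyR, fun v hv hvR E _ _ _ c => ?_⟩
  by_contra hcon
  push Not at hcon
  obtain ⟨j0, hj0'⟩ := Function.ne_iff.1 hv.1
  have hj0 : v j0 ≠ 0 := hj0'
  obtain ⟨z, hz, hinj⟩ := exists_seq_of_forall_finset_exists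
    (fun z : Fin (M + 1) → E => Pt y z ∧ MapsTo c z v)
    (fun z' z => ¬ ∃ t : E, t ≠ 0 ∧ ∀ j, z' j = t * z j) (fun T _ => by
      obtain ⟨z, h1, h2, h3⟩ := hcon T
      refine ⟨z, ⟨h1, h2⟩, ?_⟩
      rintro z' hz' ⟨t, ht, h4⟩
      obtain ⟨j, hj⟩ := h3 z' hz' t ht
      exact hj (h4 j))
  obtain ⟨dR, hdR⟩ := hR
  -- normalisation
  have hzj : ∀ m, z m j0 ≠ 0 := by
    intro m h0
    obtain ⟨-, t, -, ht⟩ := hz m
    have h1 := ht j0
    rw [h0, mul_zero] at h1
    rcases h1 with h1 | h1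
    · apply hj0
      rw [eq_comm, FaithfulSMul.algebraMap_eq_zero_iff] at h1
      exact h1
    · rw [zero_sub, c.ord_neg, c.ord_const hj0] at h1
      exact lt_irrefl _ h1
  set zn : ℕ → Fin (M + 1) → E := fun m j => z m j / z m j0 with hzn
  set vn : Fin (M + 1) → ℂ := fun j => v j / v j0 with hvn
  have hvals : ∀ m j, HasVal c (zn m j) (vn j) := by
    intro m j
    obtain ⟨-, t, ht0, ht⟩ := hz m
    have h1 := Pool.Agent.TH152.BB.HasVal.mul (ht j)
      (Pool.Agent.TH152.BB.HasVal.inv (ht j0) hj0)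
    rw [← div_eq_mul_inv, ← div_eq_mul_inv, mul_div_mul_left _ _ ht0] at h1
    exact h1
  have hscale : ∀ (u : Fin (M + 1) → E) (s : E), ∀ G : MvPolynomial (Fin (M + 1)) ℂ, ∀ d,
      G.IsHomogeneous d → val (fun j => u j / s) G = s⁻¹ ^ d * val u G := by
    intro u s G d hd
    have h1 : (fun j => u j / s) = fun j => s⁻¹ * u j := by
      funext j
      rw [div_eq_mul_inv, mul_comm]
    rw [h1]
    exact aeval_scale hd u s⁻¹
  have hPt : ∀ m, Pt y (zn m) := by
    intro m
    obtain ⟨hm, -⟩ := hz m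
    refine ⟨fun h0 => ?_, fun G hG hyG => ?_⟩
    · have h1 := congrFun h0 j0
      simp only [hzn, Pi.zero_apply] at h1
      rw [div_self (hzj m)] at h1
      exact one_ne_zero h1
    · obtain ⟨d, hd⟩ := hG
      rw [hscale _ _ G d hd, hm.2 G ⟨d, hd⟩ hyG, mul_zero]
  have hvR' : MvPolynomial.eval vn R ≠ 0 := by
    have h1 : (fun j => v j / v j0) = fun j => (v j0)⁻¹ * v j := by
      funext j
      rw [div_eq_mul_inv, mul_comm]
    have h2 := aeval_scale (F := ℂ) hdR v (v j0)⁻¹
    rw [MvPolynomial.aeval_eq_eval, ← h1] at h2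
    change MvPolynomial.eval vn R = _ * MvPolynomial.eval v R at h2
    rw [h2]
    exact mul_ne_zero (pow_ne_zero _ (inv_ne_zero hj0)) hvR
  have hnz : ∀ {K : Type} [Field K] [Algebra ℂ K] (u : Fin (M + 1) → K),
      (∀ G : MvPolynomial (Fin (M + 1)) ℂ, val u G = 0 → MvPolynomial.eval vn G = 0) →
      val u R ≠ 0 := fun u hu h0 => hvR' (hu R h0)
  have hznR : ∀ m, val (zn m) R ≠ 0 := fun m => hnz (zn m) fun G hG => by
    have h1 := HasVal.poly (hvals m) G
    have h2 : MvPolynomial.aeval (zn m) G = 0 := hG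
    rw [h2] at h1
    exact h1.zero_of
  have hone : ∀ m, zn m j0 = 1 := fun m => div_self (hzj m)
  obtain ⟨B, hB⟩ : ∃ B : ℤ, ∀ m j, hgt ℂ (zn m j) ≤ B := by
    refine ⟨A * max (canDeg ℂ E + ({P : Place ℂ E | CentreIn {1} (zn 0) P}.ncard : ℤ)) 0,
      fun m j => ?_⟩
    have h1 := h E (zn m) (hPt m) not_in_one (hznR m)
    have h2 : ∀ m', {P : Place ℂ E | CentreIn {1} (zn m') P} = ∅ := fun m' =>
      Set.eq_empty_of_forall_notMem fun P => not_centre_one P
    rw [h2] at h1 ⊢
    have h3 := ratio_le (k := ℂ) (f := zn m) (l := j0) (by rw [hone]; exact one_ne_zero) j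
    rw [hone, div_one] at h3
    exact h3.trans h1
  obtain ⟨G, ⟨j1, hG1⟩, hG2, hG3⟩ := bb_val bb_all c zn vn B (by
    intro m m' hmm
    by_contra hne
    have key : ∀ a b : ℕ, zn a = zn b → ∃ t : E, t ≠ 0 ∧ ∀ j, z a j = t * z b j := by
      intro a b hab
      refine ⟨z a j0 / z b j0, div_ne_zero (hzj a) (hzj b), fun j => ?_⟩
      have h1 := congrFun hab j
      simp only [hzn] at h1
      rw [div_eq_div_iff (hzj a) (hzj b)] at h1
      rw [div_mul_eq_mul_div, eq_div_iff (hzj b)]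
      linear_combination h1
    rcases lt_or_gt_of_ne hne with hlt | hlt
    · exact hinj m m' hlt (key m m' hmm)
    · exact hinj m' m hlt (key m' m hmm.symm)) hvals hB
  -- the rational curve
  have hGj : G j0 = 1 := by
    have h1 := hG2 (MvPolynomial.X j0 - 1) (fun m => by
      rw [map_sub, MvPolynomial.aeval_X, map_one, hone, sub_self])
    rw [map_sub, MvPolynomial.aeval_X, map_one] at h1
    exact sub_eq_zero.1 h1
  have hGP : Pt y G := by
    refine ⟨fun h0 => ?_, fun H hH hyH => hG2 H fun m => (hPt m).2 H hH hyH⟩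
    rw [h0] at hGj
    exact zero_ne_one hGj
  have h1 := h (RatFunc ℂ) G hGP not_in_one (hnz G hG3)
  have h2 : {P : Place ℂ (RatFunc ℂ) | CentreIn {1} G P} = ∅ :=
    Set.eq_empty_of_forall_notMem fun P => not_centre_one P
  rw [h2, Set.ncard_empty, Nat.cast_zero, add_zero,
    max_eq_right Pool.Agent.TH152.BB.canDeg_ratFunc, mul_zero] at h1
  have h3 := ratio_le (k := ℂ) (f := G) (l := j0) (by rw [hGj]; exact one_ne_zero) j1
  rw [hGj, div_one] at h3
  obtain ⟨e, he⟩ := const_of_hgt (k := ℂ) (h3.trans h1)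
  exact hG1 ⟨e, he.symm⟩

/-- a morphism from the multiplicative group gives infinitely many pointed maps -/
theorem gm_of_pointed (h : PseudoPointed y) : PseudoGm y {1} := by
  classical
  obtain ⟨R, hR, hyR, h⟩ := h
  refine ⟨R, hR, hyR, fun f hf hfD t0 ht0 => ?_⟩
  by_contra hne0
  set v : Fin (M + 1) → ℂ := fun i => (f i).eval t0 with hv
  have hvP : Pt y v := by
    refine ⟨fun h0 => ?_, fun G hG hyG => ?_⟩
    · obtain ⟨i, hi⟩ := hf.ne t0 ht0
      exact hi (congrFun h0 i)
    · have h1 := hf.mem G hG hyG t0 ht0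
      unfold Pool.Agent.W602.GT.val
      rw [MvPolynomial.aeval_eq_eval]
      exact h1
  obtain ⟨T, hT⟩ := h v hvP hne0 (RatFunc ℂ) (placeX 1)
  have hmap : ∀ n, MapsTo (placeX 1) (cmz f t0 n) v := by
    intro n
    refine ⟨1, one_ne_zero, fun j => ?_⟩
    rw [one_mul]
    have h1 : cmz f t0 n j - algebraMap ℂ (RatFunc ℂ) (v j) =
        algebraMap (Polynomial ℂ) (RatFunc ℂ) (cmp f t0 n j - Polynomial.C (v j)) := by
      rw [map_sub, RatFunc.algebraMap_C, ← RatFunc.algebraMap_eq_C]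
      rfl
    by_cases h2 : cmp f t0 n j - Polynomial.C (v j) = 0
    · left
      rw [← sub_eq_zero, h1, h2, map_zero]
    · right
      rw [h1]
      refine placeX_pos 1 h2 ?_
      rw [Polynomial.eval_sub, Polynomial.eval_C, cmp_eval, one_pow, mul_one, hv, sub_self]
  obtain ⟨B, hB⟩ : ∃ B : ℤ, ∀ z ∈ T, pht ℂ z ≤ B := by
    obtain ⟨B, hB⟩ := (T.image fun z => pht ℂ z).bddAbove
    exact ⟨B, fun z hz => hB (Finset.mem_coe.2 (Finset.mem_image_of_mem _ hz))⟩
  have hup : ∀ n, 0 < n → pht ℂ (cmz f t0 n) ≤ B := by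
    intro n hn
    obtain ⟨z', hz', t, ht, h1⟩ := hT (cmz f t0 n) (cmz_pt hf ht0 hn) (hmap n)
    have h2 : pht ℂ z' = pht ℂ (cmz f t0 n) := by
      have h3 : z' = fun j => t * cmz f t0 n j := funext h1
      rw [h3]
      obtain ⟨l, hl⟩ := Function.ne_iff.1 (cmz_pt hf ht0 hn).1
      exact pht_scale ⟨l, hl⟩ ht
    rw [← h2]
    exact hB z' hz'
  have h1 := hup (B.toNat + 1) (Nat.succ_pos _)
  have h2 := cmz_pht hf ht0 (n := B.toNat + 1) (Nat.succ_pos _)
  push_cast at h2
  have h3 := Int.self_le_toNat B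
  omega

end Pool.Agent.H583_GQ
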