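import Pool.Agent.H583_GQ.Top
import Pool.Agent.H583_GQ.Ptd

/-!
General type of projective varieties.
-/

set_option autoImplicit false

open FF Pool.Agent.W602.GT

namespace Pool.Agent.H583_GQ

variable {M : ℕ} {L : Type} [Field L] [Algebra ℂ L] {y : Fin (M + 1) → L}

/-- log general type with the empty boundary -/
theorem LogGT.general {w : ℕ} (h : LogGT y {1} w) : GeneralType ℂ L w := by
  obtain ⟨h1, N, hN, ω, h2, h3, h4, h5⟩ := h
  exact ⟨h1, N, hN, ω, h2, fun P hP j => h4 P hP (not_centre_one P) j, h5⟩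

end Pool.Agent.H583_GQ
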