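import Pool.Agent.H583_GP.Plc
import Pool.Agent.H583_GQ.Defs

/-!
The multiplicities at a place.
-/

set_option autoImplicit false

open FF Pool.Agent.W602.GT

namespace Pool.Agent.H583_GQ

variable {N : ℕ} {p : Fin N → ℕ} {a : ∀ i, Fin (p i) → ℂ} {L : Type} [Field L] [Algebra ℂ L]

/-- the multiplicities and the pole orders at a place -/
theorem mult_cases (P : Place ℂ L) {x : Fin N → L} (hne : ∀ i j, x i ≠ algebraMap ℂ L (a i j)) :
    ∃ l : Fin N → ℕ, ∀ i,
      (l i = 0 ∧ P.Reg (x i) ∧ ∀ j, P.ord (x i - algebraMap ℂ L (a i j)) = mult a P x i j) ∨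
      (0 < l i ∧ mult a P x i = 0 ∧ x i ≠ 0 ∧ P.ord (x i) = -l i ∧
        ∀ c, x i - algebraMap ℂ L c ≠ 0 ∧ P.ord (x i - algebraMap ℂ L c) = -l i) := by
  classical
  have hne' : ∀ i j, x i - algebraMap ℂ L (a i j) ≠ 0 := fun i j => sub_ne_zero.2 (hne i j)
  have h1 : ∀ i, ∃ l : ℕ,
      (l = 0 ∧ P.Reg (x i) ∧ ∀ j, P.ord (x i - algebraMap ℂ L (a i j)) = mult a P x i j) ∨
      (0 < l ∧ mult a P x i = 0 ∧ x i ≠ 0 ∧ P.ord (x i) = -l ∧
        ∀ c, x i - algebraMap ℂ L c ≠ 0 ∧ P.ord (x i - algebraMap ℂ L c) = -l) := by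
    intro i
    by_cases hr : P.Reg (x i)
    · refine ⟨0, Or.inl ⟨rfl, hr, ?_⟩⟩
      intro j
      have h2 : P.Reg (x i - algebraMap ℂ L (a i j)) := by
        rw [sub_eq_add_neg]
        exact P.reg_add hr (P.reg_neg (P.reg_const _))
      have h3 := (P.reg_iff (hne' i j)).1 h2
      exact (Int.toNat_of_nonneg h3).symm
    · have hx0 : x i ≠ 0 := fun h => hr (Or.inl h)
      have hlt : P.ord (x i) < 0 := by
        by_contra hcon
        push Not at hcon
        exact hr (Or.inr hcon)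
      have hc : ∀ c, x i - algebraMap ℂ L c ≠ 0 ∧ P.ord (x i - algebraMap ℂ L c) = P.ord (x i) := by
        intro c
        by_cases hc : algebraMap ℂ L c = 0
        · rw [hc, sub_zero]
          exact ⟨hx0, rfl⟩
        · have hc' : c ≠ 0 := by
            rintro rfl
            exact hc (map_zero _)
          have h2 : P.ord (-algebraMap ℂ L c) = 0 := by rw [P.ord_neg, P.ord_const hc']
          rw [sub_eq_add_neg]
          exact P.ord_add_eq hx0 (neg_ne_zero.2 hc) (by rw [h2]; exact hlt)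
      have hl : ((-P.ord (x i)).toNat : ℤ) = -P.ord (x i) := Int.toNat_of_nonneg (by omega)
      refine ⟨(-P.ord (x i)).toNat, Or.inr ⟨?_, ?_, hx0, ?_, ?_⟩⟩
      · omega
      · funext j
        unfold mult
        rw [(hc _).2]
        exact Int.toNat_of_nonpos hlt.le
      · omega
      · intro c
        rw [hl, neg_neg]
        exact hc c
  choose l h using h1
  exact ⟨l, h⟩

/-- at most one value is taken -/
theorem mult_one (ha : ∀ i, Function.Injective (a i)) (P : Place ℂ L) {x : Fin N → L}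
    (hne : ∀ i j, x i ≠ algebraMap ℂ L (a i j)) {i : Fin N} {j j' : Fin (p i)}
    (hj : mult a P x i j ≠ 0) (hj' : mult a P x i j' ≠ 0) : j = j' := by
  classical
  have hne' : ∀ i j, x i - algebraMap ℂ L (a i j) ≠ 0 := fun i j => sub_ne_zero.2 (hne i j)
  obtain ⟨l, h⟩ := mult_cases P hne
  rcases h i with ⟨-, -, h2⟩ | ⟨-, h2, -⟩
  · by_contra hne2
    have hd : a i j' - a i j ≠ 0 := sub_ne_zero.2 fun h => hne2 (ha i h).symm
    have e1 : algebraMap ℂ L (a i j' - a i j) =
        (x i - algebraMap ℂ L (a i j)) - (x i - algebraMap ℂ L (a i j')) := by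
      rw [map_sub]
      ring
    have h3 := P.ord_sub (hne' i j) (hne' i j') (by
      rw [← e1]
      exact (map_ne_zero _).2 hd)
    rw [← e1, P.ord_const hd, h2 j, h2 j'] at h3
    have h4 : (1 : ℤ) ≤ mult a P x i j := by
      have : 1 ≤ mult a P x i j := Nat.one_le_iff_ne_zero.2 hj
      exact_mod_cast this
    have h5 : (1 : ℤ) ≤ mult a P x i j' := by
      have : 1 ≤ mult a P x i j' := Nat.one_le_iff_ne_zero.2 hj'
      exact_mod_cast this
    have h6 : (1 : ℤ) ≤ min (mult a P x i j : ℤ) (mult a P x i j' : ℤ) := le_min h4 h5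
    omega
  · rw [h2] at hj
    exact absurd rfl hj

/-- the multiplicities at the places of the covers are admissible -/
theorem adm_mult {N r : ℕ} {B : Pool.Agent.H583_GP.Branch N r} (P : Place ℂ L) {x : Fin N → L}
    {w : Fin r → L} (hne : ∀ i j, x i ≠ algebraMap ℂ L (B.a i j))
    (heq : ∀ l, w l ^ B.m l = ∏ i, ∏ j, (x i - algebraMap ℂ L (B.a i j)) ^ B.e l i j) :
    B.Adm (mult B.a P x) := by
  obtain ⟨K, l, hK, h⟩ := Pool.Agent.H583_GP.Branch.place P hne heq
  have hKm : mult B.a P x = K := by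
    funext i j
    unfold mult
    rcases h i with ⟨-, -, h1⟩ | ⟨h0, h1, -, -, h2⟩
    · rw [h1]
      exact Int.toNat_natCast _
    · rw [(h2 _).2, h1]
      exact Int.toNat_of_nonpos (by omega)
  rw [hKm]
  exact hK

end Pool.Agent.H583_GQ
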