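import Pool.Agent.H583_GP.Str
import Pool.Agent.H583_GQ.Plc

/-!
Specialisations of rational functions, values at points.
-/

set_option autoImplicit false
set_option linter.overlappingInstances false
set_option linter.unusedSectionVars false

open FF IntermediateField Filter Pool.Agent.W602.GT Pool.Agent.TH466.QG

namespace Pool.Agent.H583_GQ

open Pool.Agent.H583_GP (Branch coords_cons adjoin_self Sp.inv')

/-- specializations -/
theorem spz' {L : Type} [Field L] [Algebra ℂ L] {σ : Type} {x : σ → L}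
    (hx : IntermediateField.adjoin ℂ (Set.range x) = ⊤) {Θ : Set L} (hΘ : Θ.Finite) :
    ∃ H : MvPolynomial σ ℂ, MvPolynomial.aeval x H ≠ 0 ∧
      ∀ (E : Type) [Field E] [Algebra ℂ E] (z : σ → E),
        (∀ G : MvPolynomial σ ℂ, MvPolynomial.aeval x G = 0 → MvPolynomial.aeval z G = 0) →
        MvPolynomial.aeval z H ≠ 0 → ∃ S : Sp ℂ L E, (∀ i, S.T (x i) (z i)) ∧
          ∀ ϑ ∈ Θ, ∃ t, S.T ϑ t ∧ ∃ G : MvPolynomial σ ℂ,
            ϑ * MvPolynomial.aeval x H = MvPolynomial.aeval x G ∧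
            t * MvPolynomial.aeval z H = MvPolynomial.aeval z G := by
  obtain ⟨H, hH, hG⟩ := exists_den hx hΘ
  refine ⟨H, hH, fun E _ _ z hz hzH => ?_⟩
  refine ⟨⟨fun a b => (a, b) ∈ graph ℂ x z, fun h h' => add_mem h h', fun h h' => mul_mem h h',
    fun c => (graph ℂ x z).algebraMap_mem c, ?_⟩, ?_, ?_⟩
  · rintro x' ⟨G, H', h1, h2, h3, h4⟩
    simp only at h3 h4
    rw [zero_mul] at h3
    rw [hz G h3.symm] at h4
    exact (mul_eq_zero.1 h4).resolve_right h2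
  · intro i
    refine ⟨MvPolynomial.X i, 1, ?_, ?_, ?_, ?_⟩
    · rw [map_one]; exact one_ne_zero
    · rw [map_one]; exact one_ne_zero
    · rw [map_one, mul_one, MvPolynomial.aeval_X]
    · rw [map_one, mul_one, MvPolynomial.aeval_X]
  · intro ϑ hϑ
    obtain ⟨G, hG'⟩ := hG ϑ hϑ
    refine ⟨MvPolynomial.aeval z G / MvPolynomial.aeval z H, ⟨G, H, hH, hzH, hG', ?_⟩, G, hG', ?_⟩
    · exact div_mul_cancel₀ _ hzH
    · exact div_mul_cancel₀ _ hzH

variable {M : ℕ} {L : Type} [Field L] [Algebra ℂ L] {y : Fin (M + 1) → L}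

theorem hz_hom (i0 : Fin (M + 1)) (G : MvPolynomial (Fin (M + 1)) ℂ) :
    (hz i0 G).IsHomogeneous G.totalDegree := by
  unfold Pool.Agent.TH466.QG.hz
  refine MvPolynomial.IsHomogeneous.sum _ _ _ fun d hd => ?_
  have h1 := (MvPolynomial.homogeneousComponent_isHomogeneous d G).mul
    ((MvPolynomial.isHomogeneous_X ℂ i0).pow (G.totalDegree - d))
  have h2 : d + 1 * (G.totalDegree - d) = G.totalDegree := by
    have := Finset.mem_range.1 hd
    omega
  rwa [h2] at h1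

/-- values of quotients -/
theorem value_of {E : Type} [Field E] [Algebra ℂ E] {z : Fin (M + 1) → E} {i1 : Fin (M + 1)}
    (hy1 : y i1 ≠ 0) (hz1 : z i1 ≠ 0) {G H : MvPolynomial (Fin (M + 1)) ℂ} {f : L} {f' : E}
    (hH : MvPolynomial.aeval (fun i => z i / z i1) H ≠ 0)
    (h1 : f * MvPolynomial.aeval (fun i => y i / y i1) H =
      MvPolynomial.aeval (fun i => y i / y i1) G)
    (h2 : f' * MvPolynomial.aeval (fun i => z i / z i1) H =
      MvPolynomial.aeval (fun i => z i / z i1) G) : Value y f z f' := by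
  have hval : ∀ (K : Type) [Field K] [Algebra ℂ K] (u : Fin (M + 1) → K), u i1 ≠ 0 →
      ∀ (n : ℕ) (G : MvPolynomial (Fin (M + 1)) ℂ), val u (MvPolynomial.X i1 ^ n * hz i1 G) =
        u i1 ^ (n + G.totalDegree) * MvPolynomial.aeval (fun i => u i / u i1) G := by
    intro K _ _ u hu n G
    change MvPolynomial.aeval u _ = _
    rw [map_mul, map_pow, MvPolynomial.aeval_X]
    have h3 : MvPolynomial.aeval u (hz i1 G) =
        u i1 ^ G.totalDegree * MvPolynomial.aeval (fun i => u i / u i1) G := val_hz G hu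
    rw [h3, pow_add, mul_assoc]
  refine ⟨H.totalDegree + G.totalDegree, MvPolynomial.X i1 ^ H.totalDegree * hz i1 G,
    MvPolynomial.X i1 ^ G.totalDegree * hz i1 H, ?_, ?_, ?_, ?_, ?_⟩
  · have h3 := ((MvPolynomial.isHomogeneous_X ℂ i1).pow H.totalDegree).mul (hz_hom i1 G)
    rwa [one_mul] at h3
  · have h3 := ((MvPolynomial.isHomogeneous_X ℂ i1).pow G.totalDegree).mul (hz_hom i1 H)
    rwa [one_mul, add_comm G.totalDegree] at h3
  · rw [hval E z hz1]
    exact mul_ne_zero (pow_ne_zero _ hz1) hH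
  · rw [hval L y hy1, hval L y hy1, ← h1, add_comm]
    ring
  · rw [hval E z hz1, hval E z hz1, ← h2, add_comm]
    ring

/-- the values are unique -/
theorem Value.uniq {E : Type} [Field E] [Algebra ℂ E] {z : Fin (M + 1) → E} (hz : Pt y z) {f : L}
    {f' f'' : E} (h : Value y f z f') (h' : Value y f z f'') : f' = f'' := by
  obtain ⟨d, A, B, hA, hB, hBz, h1, h2⟩ := h
  obtain ⟨d', A', B', hA', hB', hBz', h1', h2'⟩ := h'
  have hv : ∀ (K : Type) [Field K] [Algebra ℂ K] (u : Fin (M + 1) → K),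
      val u (A * B' - A' * B) = val u A * val u B' - val u A' * val u B := by
    intro K _ _ u
    change MvPolynomial.aeval u _ = _
    rw [map_sub, map_mul, map_mul]
    rfl
  have h3 : IsForm (A * B' - A' * B) := by
    refine ⟨d + d', (hA.mul hB').sub ?_⟩
    have h5 := hA'.mul hB
    rwa [add_comm d' d] at h5
  have h4 : val z (A * B' - A' * B) = 0 := by
    refine hz.2 _ h3 ?_
    rw [hv, ← h1, ← h1']
    ring
  rw [hv, ← h2, ← h2'] at h4
  have h5 : (f' - f'') * (val z B * val z B') = 0 := by linear_combination h4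
  exact sub_eq_zero.1 ((mul_eq_zero.1 h5).resolve_right (mul_ne_zero hBz hBz'))

/-- **Specialisations of finitely many functions.** -/
theorem spec_fun {i1 : Fin (M + 1)} (hi1 : y i1 ≠ 0) (hgen : coords ℂ y = ⊤) {Θ : Set L}
    (hΘ : Θ.Finite) : ∃ R : MvPolynomial (Fin (M + 1)) ℂ, IsForm R ∧ val y R ≠ 0 ∧
      ∀ (E : Type) [Field E] [Algebra ℂ E] (z : Fin (M + 1) → E), Pt y z → val z R ≠ 0 →
        z i1 ≠ 0 ∧ ∃ S : Sp ℂ L E, (∀ m, S.T (y m / y i1) (z m / z i1)) ∧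
          ∀ ϑ ∈ Θ, ∃ t, S.T ϑ t ∧ Value y ϑ z t := by
  obtain ⟨H, hH, hspread⟩ := spz' (adjoin_norm hgen hi1) hΘ
  refine ⟨MvPolynomial.X i1 * hz i1 H, ?_, ?_, ?_⟩
  · obtain ⟨d, hd⟩ := hz_form i1 H
    exact ⟨1 + d, (MvPolynomial.isHomogeneous_X ℂ i1).mul hd⟩
  · change MvPolynomial.aeval y _ ≠ 0
    rw [map_mul, MvPolynomial.aeval_X]
    refine mul_ne_zero hi1 ?_
    change val y _ ≠ 0
    rw [val_hz H hi1]
    exact mul_ne_zero (pow_ne_zero _ hi1) hH
  intro E _ _ z hz hzR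
  change MvPolynomial.aeval z _ ≠ 0 at hzR
  rw [map_mul, MvPolynomial.aeval_X] at hzR
  have hz1 : z i1 ≠ 0 := left_ne_zero_of_mul hzR
  have hzH : MvPolynomial.aeval (fun i => z i / z i1) H ≠ 0 := by
    have h1 : val z (Pool.Agent.TH466.QG.hz i1 H) ≠ 0 := right_ne_zero_of_mul hzR
    rw [val_hz H hz1] at h1
    exact right_ne_zero_of_mul h1
  have hsp : ∀ G : MvPolynomial (Fin (M + 1)) ℂ,
      MvPolynomial.aeval (fun i => y i / y i1) G = 0 →
      MvPolynomial.aeval (fun i => z i / z i1) G = 0 := by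
    intro G hG
    have h1 : val y (Pool.Agent.TH466.QG.hz i1 G) = 0 := by
      rw [val_hz G hi1, hG, mul_zero]
    have h2 := hz.2 _ (hz_form i1 G) h1
    rw [val_hz G hz1] at h2
    exact (mul_eq_zero.1 h2).resolve_left (pow_ne_zero _ hz1)
  obtain ⟨S, hSx, hSΘ⟩ := hspread E (fun i => z i / z i1) hsp hzH
  refine ⟨hz1, S, hSx, fun ϑ hϑ => ?_⟩
  obtain ⟨t, ht, G, h1, h2⟩ := hSΘ ϑ hϑ
  exact ⟨t, ht, value_of hi1 hz1 hzH h1 h2⟩

/-- every function is defined at the generic point -/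
theorem value_self (hy : y ≠ 0) (hgen : coords ℂ y = ⊤) (f : L) : Value y f y f := by
  obtain ⟨i1, hi1'⟩ := Function.ne_iff.1 hy
  have hi1 : y i1 ≠ 0 := hi1'
  obtain ⟨R, -, hR, h⟩ := spec_fun hi1 hgen (Set.finite_singleton f)
  obtain ⟨-, S, hS, h1⟩ := h L y ⟨hy, fun _ _ h => h⟩ hR
  obtain ⟨t, -, d, A, B, hA, hB, hBz, h2, h3⟩ := h1 f (Set.mem_singleton f)
  exact ⟨d, A, B, hA, hB, hBz, h2, h2⟩

theorem pt_self (hy : y ≠ 0) : Pt y y := ⟨hy, fun _ _ h => h⟩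

variable {N : ℕ} {p : Fin N → ℕ} {a : ∀ i, Fin (p i) → ℂ}
  {D : Set (MvPolynomial (Fin (M + 1)) ℂ)} {x : Fin N → L} {T : Set (∀ i, Fin (p i) → ℕ)}

/-- **Specialisations of a family.** -/
theorem Family.spec (hF : Family a y D x T) (hy : y ≠ 0) (hgen : coords ℂ y = ⊤) :
    ∃ R : MvPolynomial (Fin (M + 1)) ℂ, IsForm R ∧ val y R ≠ 0 ∧
      ∀ (E : Type) [Field E] [Algebra ℂ E] (z : Fin (M + 1) → E), Pt y z → val z R ≠ 0 →
        ∃ i1, z i1 ≠ 0 ∧ ∃ x' : Fin N → E, (∀ i j, x' i ≠ algebraMap ℂ E (a i j)) ∧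
          (∀ m, IsAlgebraic (IntermediateField.adjoin ℂ (Set.range x')) (z m / z i1)) ∧
          ∀ P : Place ℂ E, ¬ CentreIn D z P → mult a P x' ∈ T := by
  classical
  obtain ⟨R0, hR0, hyR0, hmem⟩ := hF.mem
  have := hF.alg
  let x0 : Fin N → IntermediateField.adjoin ℂ (Set.range x) := fun i =>
    ⟨x i, IntermediateField.subset_adjoin ℂ _ ⟨i, rfl⟩⟩
  have h0 : coords ℂ (Fin.cons 1 x0 : Fin (N + 1) → IntermediateField.adjoin ℂ (Set.range x)) =
      ⊤ := by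
    rw [coords_cons]
    exact adjoin_self x
  obtain ⟨i1, hi1'⟩ := Function.ne_iff.1 hy
  have hi1 : y i1 ≠ 0 := hi1'
  obtain ⟨Θ2, hΘ2, halgs⟩ := alg_spec (k := ℂ) (K' := L) h0 (i0 := 0) (by simp)
    (fun m => y m / y i1)
  obtain ⟨R1, hR1, hyR1, hsp⟩ := spec_fun hi1 hgen
    (Θ := (Set.range x) ∪ ((Set.range fun s : (i : Fin N) × Fin (p i) =>
      (x s.1 - algebraMap ℂ L (a s.1 s.2))⁻¹) ∪ (algebraMap _ L '' Θ2)))
    ((Set.finite_range _).union ((Set.finite_range _).union (hΘ2.image _)))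
  have hmul : ∀ (K : Type) [Field K] [Algebra ℂ K] (u : Fin (M + 1) → K),
      val u (R0 * R1) = val u R0 * val u R1 := by
    intro K _ _ u
    change MvPolynomial.aeval u _ = _
    rw [map_mul]
    rfl
  refine ⟨R0 * R1, ?_, ?_, ?_⟩
  · obtain ⟨d, hd⟩ := hR0
    obtain ⟨d', hd'⟩ := hR1
    exact ⟨d + d', hd.mul hd'⟩
  · rw [hmul]
    exact mul_ne_zero hyR0 hyR1
  intro E _ _ z hz hzR
  rw [hmul] at hzR
  obtain ⟨hz1, S, hSx, hSΘ⟩ := hsp E z hz (right_ne_zero_of_mul hzR)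
  refine ⟨i1, hz1, ?_⟩
  choose x' hx' hxv using fun i => hSΘ (x i) (Or.inl ⟨i, rfl⟩)
  have hinv : ∀ i j, ∃ t, S.T (x i - algebraMap ℂ L (a i j))⁻¹ t := fun i j => by
    obtain ⟨t, ht, -⟩ := hSΘ _ (Or.inr (Or.inl ⟨⟨i, j⟩, rfl⟩))
    exact ⟨t, ht⟩
  have hxa : ∀ i j, S.T (x i - algebraMap ℂ L (a i j)) (x' i - algebraMap ℂ E (a i j)) :=
    fun i j => S.sub (hx' i) (S.const _)
  have hne : ∀ i j, x i - algebraMap ℂ L (a i j) ≠ 0 := fun i j => sub_ne_zero.2 (hF.ne i j)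
  have hne' : ∀ i j, x' i ≠ algebraMap ℂ E (a i j) := fun i j =>
    sub_ne_zero.1 (S.ne_zero (hxa i j) (hinv i j) (hne i j))
  refine ⟨x', hne', ?_, ?_⟩
  · intro m
    have h1 := halgs E S (fun ϑ hϑ => by
        obtain ⟨t, ht, -⟩ := hSΘ _ (Or.inr (Or.inr ⟨ϑ, hϑ, rfl⟩))
        exact ⟨t, ht⟩)
      (Fin.cons 1 x') (by
        intro i
        refine Fin.cases ?_ (fun s => ?_) i
        · simp only [Fin.cons_zero, map_one]
          exact S.one
        · exact hx' s) (fun m => z m / z i1) hSx m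
    rwa [coords_cons] at h1
  · intro P hP
    exact hmem E z x' hz (left_ne_zero_of_mul hzR) hxv hne' P hP

end Pool.Agent.H583_GQ
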