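import Pool.Agent.H583_GQ.Defs

/-!
The numerical criteria: integral weights, total multiplicities.
-/

set_option autoImplicit false

namespace Pool.Agent.H583_GQ

variable {N : ℕ} {p : Fin N → ℕ} {S : Set (∀ i, Fin (p i) → ℕ)}

/-- rounding of the weights -/
theorem round {α : Fin N → ℝ} {β : ∀ i, Fin (p i) → ℝ} (hα : ∀ i, 0 < α i)
    (hβ : ∀ i j, 0 ≤ β i j) (h : ∀ i, ∑ j, β i j < α i * ((p i : ℝ) - 2)) :
    ∃ T : ℕ, ∀ i, ∑ j, ⌈(T : ℝ) * β i j⌉₊ < ⌊(T : ℝ) * α i⌋₊ * (p i - 2) := by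
  have hp : ∀ i, 3 ≤ p i := by
    intro i
    have h1 : 0 ≤ ∑ j, β i j := Finset.sum_nonneg fun j _ => hβ i j
    have h2 : 0 < (p i : ℝ) - 2 := by
      by_contra hcon
      push Not at hcon
      have := mul_nonpos_of_nonneg_of_nonpos (hα i).le hcon
      have := h i
      linarith
    have h3 : (2 : ℝ) < p i := by linarith
    have h4 : 2 < p i := by exact_mod_cast h3
    omega
  have hδ : ∀ i, 0 < α i * ((p i : ℝ) - 2) - ∑ j, β i j := fun i => sub_pos.2 (h i)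
  obtain ⟨T, hT⟩ := exists_nat_gt
    (∑ i, (2 * (p i : ℝ)) / (α i * ((p i : ℝ) - 2) - ∑ j, β i j))
  refine ⟨T, fun i => ?_⟩
  have h1 : (2 * (p i : ℝ)) / (α i * ((p i : ℝ) - 2) - ∑ j, β i j) < T := by
    refine lt_of_le_of_lt (Finset.single_le_sum
      (f := fun i => (2 * (p i : ℝ)) / (α i * ((p i : ℝ) - 2) - ∑ j, β i j))
      (fun i _ => ?_) (Finset.mem_univ i)) hT
    have := hδ i
    positivity
  rw [div_lt_iff₀ (hδ i)] at h1
  have h6 : (2 : ℕ) ≤ p i := by have := hp i; omega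
  have h7 : ((∑ j, ⌈(T : ℝ) * β i j⌉₊ : ℕ) : ℝ) ≤ T * (∑ j, β i j) + p i := by
    push_cast
    calc ∑ j, (⌈(T : ℝ) * β i j⌉₊ : ℝ) ≤ ∑ j, (T * β i j + 1) :=
          Finset.sum_le_sum fun j _ =>
            (Nat.ceil_lt_add_one (mul_nonneg (Nat.cast_nonneg _) (hβ i j))).le
      _ = _ := by rw [Finset.sum_add_distrib, ← Finset.mul_sum]; simp
  have h8 : (T : ℝ) * α i - 1 ≤ ((⌊(T : ℝ) * α i⌋₊ : ℕ) : ℝ) := by
    have := Nat.lt_floor_add_one ((T : ℝ) * α i)
    linarith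
  have h9 : (1 : ℝ) ≤ (p i : ℝ) - 2 := by
    have : (3 : ℝ) ≤ p i := by exact_mod_cast hp i
    linarith
  have h10 : ((T : ℝ) * α i - 1) * ((p i : ℝ) - 2) ≤
      ((⌊(T : ℝ) * α i⌋₊ : ℕ) : ℝ) * ((p i : ℝ) - 2) :=
    mul_le_mul_of_nonneg_right h8 (by linarith)
  have h11 : ((∑ j, ⌈(T : ℝ) * β i j⌉₊ : ℕ) : ℝ) <
      ((⌊(T : ℝ) * α i⌋₊ * (p i - 2) : ℕ) : ℝ) := by
    rw [Nat.cast_mul, Nat.cast_sub h6]
    push_cast at h7 ⊢
    nlinarith
  exact_mod_cast h11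

theorem round_le {β : ∀ i, Fin (p i) → ℝ} (T : ℕ) (k : ∀ i, Fin (p i) → ℕ) :
    (T : ℝ) * ∑ i, ∑ j, β i j * k i j ≤
      ((∑ i, ∑ j, ⌈(T : ℝ) * β i j⌉₊ * k i j : ℕ) : ℝ) := by
  push_cast
  rw [Finset.mul_sum]
  refine Finset.sum_le_sum fun i _ => ?_
  rw [Finset.mul_sum]
  refine Finset.sum_le_sum fun j _ => ?_
  rw [← mul_assoc]
  exact mul_le_mul_of_nonneg_right (Nat.le_ceil _) (Nat.cast_nonneg _)

theorem Strong.nat (h : Strong p S) : ∃ α β, NStrong p S α β := by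
  obtain ⟨α, β, hα, hβ, h1, h2⟩ := h
  obtain ⟨T, hT⟩ := round hα hβ h1
  refine ⟨fun i => ⌊(T : ℝ) * α i⌋₊, fun i j => ⌈(T : ℝ) * β i j⌉₊, hT, fun k hk hk0 => ?_⟩
  have h3 : ((∑ i, ⌊(T : ℝ) * α i⌋₊ : ℕ) : ℝ) ≤ T * ∑ i, α i := by
    push_cast
    rw [Finset.mul_sum]
    exact Finset.sum_le_sum fun i _ => Nat.floor_le (mul_nonneg (Nat.cast_nonneg _) (hα i).le)
  have h4 := mul_le_mul_of_nonneg_left (h2 k hk hk0) (Nat.cast_nonneg (α := ℝ) T)
  have h5 := (h3.trans h4).trans (round_le T k)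
  exact_mod_cast h5

theorem Good.nat (h : Good p S) : ∃ α β, NGood p S α β := by
  classical
  obtain ⟨α, β, hα, hβ, h1, h2⟩ := h
  obtain ⟨T, hT⟩ := round hα hβ h1
  refine ⟨fun i => ⌊(T : ℝ) * α i⌋₊, fun i j => ⌈(T : ℝ) * β i j⌉₊, hT, fun k hk => ?_⟩
  have h3 : ((∑ i, (if k i = 0 then 0 else ⌊(T : ℝ) * α i⌋₊) : ℕ) : ℝ) ≤
      T * ∑ i, (if k i = 0 then 0 else α i) := by
    push_cast
    rw [Finset.mul_sum]
    refine Finset.sum_le_sum fun i _ => ?_
    split_ifs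
    · simp
    · exact Nat.floor_le (mul_nonneg (Nat.cast_nonneg _) (hα i).le)
  have h4 := mul_le_mul_of_nonneg_left (h2 k hk) (Nat.cast_nonneg (α := ℝ) T)
  have h5 := (h3.trans h4).trans (round_le T k)
  exact_mod_cast h5

/-- the criterion for one form -/
theorem Good.one (h : Good p S) : ∃ α β, NOne p S α β := by
  classical
  obtain ⟨α, β, hα, hβ, h1, h2⟩ := h
  have h1' : ∀ i, ∑ j, β i j / α i < 1 * ((p i : ℝ) - 2) := by
    intro i
    rw [← Finset.sum_div, div_lt_iff₀ (hα i), one_mul, mul_comm]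
    exact h1 i
  obtain ⟨T, hT⟩ := round (α := fun _ => 1) (β := fun i j => β i j / α i)
    (fun _ => one_pos) (fun i j => div_nonneg (hβ i j) (hα i).le) h1'
  refine ⟨T, fun i j => ⌈(T : ℝ) * (β i j / α i)⌉₊, fun i => ?_, fun k hk hk0 => ?_⟩
  · have h3 := hT i
    simp only [mul_one, Nat.floor_natCast] at h3
    exact h3
  · have h3 : (1 : ℝ) ≤ ∑ i, ∑ j, β i j / α i * k i j := by
      obtain ⟨i1, hi1⟩ := Function.ne_iff.1 hk0
      obtain ⟨i0, hi0, hmax⟩ := Finset.exists_max_image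
        (Finset.univ.filter fun i => k i ≠ 0) α ⟨i1, by simpa using hi1⟩
      have hi0' : k i0 ≠ 0 := by simpa using hi0
      have h4 := h2 k hk
      have h5 : α i0 ≤ ∑ i, (if k i = 0 then 0 else α i) := by
        have h6 := Finset.single_le_sum (f := fun i => if k i = 0 then 0 else α i) (fun i _ => by
          split_ifs
          · exact le_rfl
          · exact (hα i).le) (Finset.mem_univ i0)
        simpa only [if_neg hi0'] using h6
      have h7 : (∑ i, ∑ j, β i j * k i j) / α i0 ≤ ∑ i, ∑ j, β i j / α i * k i j := by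
        rw [Finset.sum_div]
        refine Finset.sum_le_sum fun i _ => ?_
        rw [Finset.sum_div]
        refine Finset.sum_le_sum fun j _ => ?_
        by_cases hk1 : k i j = 0
        · rw [hk1]
          simp
        · have hki : k i ≠ 0 := fun h0 => hk1 (by rw [h0]; rfl)
          have h8 := hmax i (by simpa using hki)
          rw [mul_div_right_comm]
          refine mul_le_mul_of_nonneg_right ?_ (Nat.cast_nonneg _)
          exact div_le_div_of_nonneg_left (hβ i j) (hα i) h8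
      refine le_trans ?_ h7
      rw [one_le_div (hα i0)]
      exact h5.trans h4
    have h4 := mul_le_mul_of_nonneg_left h3 (Nat.cast_nonneg (α := ℝ) T)
    rw [mul_one] at h4
    have h5 := h4.trans (round_le (β := fun i j => β i j / α i) T k)
    exact_mod_cast h5

theorem Strong.good (h : Strong p S) : Good p S := by
  classical
  obtain ⟨α, β, hα, hβ, h1, h2⟩ := h
  refine ⟨α, β, hα, hβ, h1, fun k hk => ?_⟩
  by_cases hk0 : k = 0
  · subst hk0
    simp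
  · refine le_trans (Finset.sum_le_sum fun i _ => ?_) (h2 k hk hk0)
    split_ifs
    · exact (hα i).le
    · exact le_rfl

theorem Good.three (h : Good p S) (i : Fin N) : 3 ≤ p i := by
  obtain ⟨α, β, h⟩ := h.nat
  have h1 := h.1 i
  by_contra hcon
  have h2 : p i - 2 = 0 := by omega
  rw [h2, mul_zero] at h1
  omega

theorem Wide.good (h : Wide p S) (hp : ∀ i, 3 ≤ p i) : Good p S := by
  obtain ⟨α, β, hα, hβ, h1, h2⟩ := h
  refine ⟨α, β, hα, hβ, fun i => ?_, h2⟩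
  have h3 := h1 i
  have h4 : (1 : ℝ) ≤ (p i : ℝ) - 2 := by
    have : (3 : ℝ) ≤ p i := by exact_mod_cast hp i
    linarith
  rwa [max_eq_right h4] at h3

/-- the criterion for large total multiplicities -/
theorem total {μ : ℝ} {t : Fin N → ℝ} (ht : ∀ i, 0 < t i)
    (h : ∀ k ∈ S, k ≠ 0 → μ ≤ ((∑ i, ∑ j, k i j : ℕ) : ℝ))
    (hs : ∑ i, (p i : ℝ) / t i < μ) :
    ∃ (α : Fin N → ℝ) (β : ∀ i, Fin (p i) → ℝ), (∀ i, 0 < α i) ∧ (∀ i j, 0 ≤ β i j) ∧
      (∀ i, ∑ j, β i j < α i * t i) ∧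
      ∀ k ∈ S, k ≠ 0 → ∑ i, α i ≤ ∑ i, ∑ j, β i j * k i j := by
  have hμ : 0 ≤ ∑ i, (p i : ℝ) / t i := Finset.sum_nonneg fun i _ =>
    div_nonneg (Nat.cast_nonneg _) (ht i).le
  set ε : ℝ := (μ - ∑ i, (p i : ℝ) / t i) / (N + 1) with hε
  have hε0 : 0 < ε := div_pos (by linarith) (by positivity)
  refine ⟨fun i => (p i : ℝ) / t i + ε, fun _ _ => 1, fun i => ?_, fun _ _ => zero_le_one,
    fun i => ?_, fun k hk hk0 => ?_⟩
  · have := ht i
    positivity
  · rw [Finset.sum_const, Finset.card_univ, Fintype.card_fin, nsmul_eq_mul, mul_one, add_mul,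
      div_mul_cancel₀ _ (ht i).ne']
    have := mul_pos hε0 (ht i)
    linarith
  · rw [Finset.sum_add_distrib, Finset.sum_const, Finset.card_univ, Fintype.card_fin, nsmul_eq_mul]
    have h1 : (N : ℝ) * ε ≤ μ - ∑ i, (p i : ℝ) / t i := by
      rw [hε, mul_div_assoc', div_le_iff₀ (by positivity)]
      have : 0 ≤ μ - ∑ i, (p i : ℝ) / t i := by linarith
      nlinarith
    have h2 := h k hk hk0
    push_cast at h2
    simp only [one_mul]
    linarith

theorem strong_of_total {μ : ℝ} (hp : ∀ i, 3 ≤ p i)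
    (h : ∀ k ∈ S, k ≠ 0 → μ ≤ ((∑ i, ∑ j, k i j : ℕ) : ℝ))
    (hs : ∑ i, (p i : ℝ) / ((p i : ℝ) - 2) < μ) : Strong p S :=
  total (t := fun i => (p i : ℝ) - 2) (fun i => by
    have : (3 : ℝ) ≤ p i := by exact_mod_cast hp i
    linarith) h hs

/-- total multiplicities larger than `3 * N` -/
theorem wideStrong_of_three (h : ∀ k ∈ S, k ≠ 0 → 3 * N < ∑ i, ∑ j, k i j) : WideStrong p S := by
  obtain ⟨α, β, hα, hβ, h1, h2⟩ := total (S := S) (μ := 3 * N + 1)
    (t := fun i => max 1 ((p i : ℝ) - 2)) (fun i => lt_max_of_lt_left one_pos)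
    (fun k hk hk0 => by
      have h3 : 3 * N + 1 ≤ ∑ i, ∑ j, k i j := h k hk hk0
      exact_mod_cast h3) (by
      have h3 : ∑ i, (p i : ℝ) / max 1 ((p i : ℝ) - 2) ≤ ∑ _i : Fin N, 3 := by
        refine Finset.sum_le_sum fun i _ => ?_
        rw [div_le_iff₀ (lt_max_of_lt_left one_pos)]
        have h4 := le_max_left 1 ((p i : ℝ) - 2)
        have h5 := le_max_right 1 ((p i : ℝ) - 2)
        linarith
      rw [Finset.sum_const, Finset.card_univ, Fintype.card_fin, nsmul_eq_mul] at h3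
      linarith)
  exact ⟨α, β, hα, hβ, h1, h2⟩

theorem WideStrong.wide (h : WideStrong p S) : Wide p S := by
  classical
  obtain ⟨α, β, hα, hβ, h1, h2⟩ := h
  refine ⟨α, β, hα, hβ, h1, fun k hk => ?_⟩
  by_cases hk0 : k = 0
  · subst hk0
    simp
  · refine le_trans (Finset.sum_le_sum fun i _ => ?_) (h2 k hk hk0)
    split_ifs
    · exact (hα i).le
    · exact le_rfl

theorem WideStrong.strong (h : WideStrong p S) (hp : ∀ i, 3 ≤ p i) : Strong p S := by
  obtain ⟨α, β, hα, hβ, h1, h2⟩ := h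
  refine ⟨α, β, hα, hβ, fun i => ?_, h2⟩
  have h3 := h1 i
  have h4 : (1 : ℝ) ≤ (p i : ℝ) - 2 := by
    have : (3 : ℝ) ≤ p i := by exact_mod_cast hp i
    linarith
  rwa [max_eq_right h4] at h3

theorem Strong.wideStrong (h : Strong p S) : WideStrong p S := by
  obtain ⟨α, β, hα, hβ, h1, h2⟩ := h
  exact ⟨α, β, hα, hβ, fun i => lt_of_lt_of_le (h1 i)
    (mul_le_mul_of_nonneg_left (le_max_right _ _) (hα i).le), h2⟩

theorem Good.wide (h : Good p S) : Wide p S := by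
  obtain ⟨α, β, hα, hβ, h1, h2⟩ := h
  exact ⟨α, β, hα, hβ, fun i => lt_of_lt_of_le (h1 i)
    (mul_le_mul_of_nonneg_left (le_max_right _ _) (hα i).le), h2⟩

end Pool.Agent.H583_GQ
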