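import Pool.Agent.H583_GQ.Lin
import Pool.Agent.H583_GQ.Spec
import Pool.Agent.H583_GQ.Wts
import Pool.Agent.W603.PV.Abs
import Pool.Agent.W603.LV.Root

/-!
The degrees of curves in quasi-projective varieties with functions which take given values with high
multiplicities.
-/

set_option autoImplicit false
set_option linter.overlappingInstances false
set_option linter.unusedSectionVars false

open FF IntermediateField Filter Pool.Agent.W602.GT Pool.Agent.TH466.QG Pool.Agent.W603.LV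
  Pool.Agent.W603.PV

namespace Pool.Agent.H583_GQ

variable {M : ℕ} {L : Type} [Field L] [Algebra ℂ L] {y : Fin (M + 1) → L}
  {N : ℕ} {p : Fin N → ℕ} {a : ∀ i, Fin (p i) → ℂ}
  {D : Set (MvPolynomial (Fin (M + 1)) ℂ)} {x : Fin N → L} {T : Set (∀ i, Fin (p i) → ℕ)}

theorem Sp.poly {E : Type} [Field E] [Algebra ℂ E] (S : Sp ℂ L E) {x : Fin N → L} {x' : Fin N → E}
    (h : ∀ i, S.T (x i) (x' i)) (G : MvPolynomial (Fin N) ℂ) :
    S.T (MvPolynomial.aeval x G) (MvPolynomial.aeval x' G) := by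
  rw [MvPolynomial.aeval_def, MvPolynomial.aeval_def, MvPolynomial.eval₂_eq', MvPolynomial.eval₂_eq']
  exact S.sum _ fun α _ => S.mul (S.const _) (S.prod _ fun i _ => S.pow (h i) _)

/-- **The heights of the points and of the values of the functions.** -/
theorem Family.height (hF : Family a y D x T) (hy : y ≠ 0) (hgen : coords ℂ y = ⊤) :
    ∃ R : MvPolynomial (Fin (M + 1)) ℂ, IsForm R ∧ val y R ≠ 0 ∧ ∃ B : ℕ,
      ∀ (E : Type) [Field E] [Algebra ℂ E] [IsFF ℂ E] (z : Fin (M + 1) → E), Pt y z →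
        val z R ≠ 0 → ∃ x' : Fin N → E, (∀ i, Value y (x i) z (x' i)) ∧
          (∀ i j, x' i ≠ algebraMap ℂ E (a i j)) ∧
          (∀ P : Place ℂ E, ¬ CentreIn D z P → mult a P x' ∈ T) ∧
          pht ℂ z ≤ B * ∑ i, hgt ℂ (x' i) := by
  classical
  obtain ⟨R0, hR0, hyR0, hmem⟩ := hF.mem
  obtain ⟨i1, hi1'⟩ := Function.ne_iff.1 hy
  have hi1 : y i1 ≠ 0 := hi1'
  have halg := hF.alg
  choose d c hc0 hcs using fun m => exists_rel' (k := ℂ) x (y m / y i1)
    (Algebra.IsAlgebraic.isAlgebraic (R := IntermediateField.adjoin ℂ (Set.range x)) _)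
  obtain ⟨R1, hR1, hyR1, hsp⟩ := spec_fun hi1 hgen
    (Θ := (Set.range x) ∪ ((Set.range fun s : (i : Fin N) × Fin (p i) =>
      (x s.1 - algebraMap ℂ L (a s.1 s.2))⁻¹) ∪
        (Set.range fun m => (MvPolynomial.aeval x (c m (d m)))⁻¹)))
    ((Set.finite_range _).union ((Set.finite_range _).union (Set.finite_range _)))
  have hmul : ∀ (K : Type) [Field K] [Algebra ℂ K] (u : Fin (M + 1) → K),
      val u (R0 * R1) = val u R0 * val u R1 := by
    intro K _ _ u
    change MvPolynomial.aeval u _ = _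
    rw [map_mul]
    rfl
  refine ⟨R0 * R1, ?_, ?_, ∑ m, ∑ e ∈ Finset.range (d m + 1), (c m e).totalDegree, ?_⟩
  · obtain ⟨d, hd⟩ := hR0
    obtain ⟨d', hd'⟩ := hR1
    exact ⟨d + d', hd.mul hd'⟩
  · rw [hmul]
    exact mul_ne_zero hyR0 hyR1
  intro E _ _ _ z hz hzR
  rw [hmul] at hzR
  obtain ⟨hz1, S, hSx, hSΘ⟩ := hsp E z hz (right_ne_zero_of_mul hzR)
  choose x' hx' hxv using fun i => hSΘ (x i) (Or.inl ⟨i, rfl⟩)
  have hinv : ∀ i j, ∃ t, S.T (x i - algebraMap ℂ L (a i j))⁻¹ t := fun i j => by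
    obtain ⟨t, ht, -⟩ := hSΘ _ (Or.inr (Or.inl ⟨⟨i, j⟩, rfl⟩))
    exact ⟨t, ht⟩
  have hxa : ∀ i j, S.T (x i - algebraMap ℂ L (a i j)) (x' i - algebraMap ℂ E (a i j)) :=
    fun i j => S.sub (hx' i) (S.const _)
  have hne : ∀ i j, x i - algebraMap ℂ L (a i j) ≠ 0 := fun i j => sub_ne_zero.2 (hF.ne i j)
  have hne' : ∀ i j, x' i ≠ algebraMap ℂ E (a i j) := fun i j =>
    sub_ne_zero.1 (S.ne_zero (hxa i j) (hinv i j) (hne i j))
  refine ⟨x', hxv, hne', fun P hP => hmem E z x' hz (left_ne_zero_of_mul hzR) hxv hne' P hP, ?_⟩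
  have h1 : ∀ m, hgt ℂ (z m / z i1) ≤
      ∑ e ∈ Finset.range (d m + 1), ((c m e).totalDegree : ℤ) * ∑ i, hgt ℂ (x' i) := by
    intro m
    have h2 : MvPolynomial.aeval x' (c m (d m)) ≠ 0 := by
      refine S.ne_zero (Sp.poly S hx' _) ?_ (hc0 m)
      obtain ⟨t, ht, -⟩ := hSΘ _ (Or.inr (Or.inr ⟨m, rfl⟩))
      exact ⟨t, ht⟩
    have h3 : ∑ e ∈ Finset.range (d m + 1), MvPolynomial.aeval x' (c m e) *
        (z m / z i1) ^ e = 0 := by
      refine S.eq_zero (S.sum _ fun e _ => S.mul (Sp.poly S hx' _) (S.pow (hSx m) e)) (hcs m)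
    have h4 := hgt_root (k := ℂ) (fun e => MvPolynomial.aeval x' (c m e)) h2 _ h3
    rw [add_comm, ← Finset.sum_range_succ
      (f := fun e => hgt ℂ (MvPolynomial.aeval x' (c m e)))] at h4
    refine h4.trans (Finset.sum_le_sum fun e _ => ?_)
    have h5 := hgt_mvpolyF (k := ℂ) x' (c m e)
    have h6 : ∑ α ∈ (c m e).support, hgt ℂ (algebraMap ℂ E ((c m e).coeff α)) = 0 :=
      Finset.sum_eq_zero fun α _ => hgt_algebraic (isAlgebraic_algebraMap _)
    rw [h6, add_zero] at h5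
    exact h5
  refine (pht_le (k := ℂ) z hz1).trans ((Finset.sum_le_sum fun m _ => h1 m).trans (le_of_eq ?_))
  push_cast
  rw [Finset.sum_mul]
  exact Finset.sum_congr rfl fun m _ => by rw [Finset.sum_mul]

/-- the places with the centre in `D = 0` -/
theorem centre_finite {E : Type} [Field E] [Algebra ℂ E] [IsFF ℂ E] {z : Fin (M + 1) → E}
    (hD : ¬ In D z) : {P : Place ℂ E | CentreIn D z P}.Finite := by
  classical
  unfold In at hD
  push Not at hD
  obtain ⟨G, hG, ⟨d, hd⟩, hzG⟩ := hD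
  obtain ⟨T, hT⟩ := exists_supp (k := ℂ) (Finset.univ : Finset (Option (Fin (M + 1))))
    (fun o => o.elim (val z G) z)
  refine (Finset.finite_toSet T).subset fun P hP => ?_
  by_contra hcon
  rcases hP G hG d hd with h | ⟨j, hj, h⟩
  · exact hzG h
  · have h1 : P.ord (val z G) = 0 := by
      by_contra h0
      exact hcon (hT none (Finset.mem_univ _) P h0)
    have h2 : P.ord (z j) = 0 := by
      by_contra h0
      exact hcon (hT (some j) (Finset.mem_univ _) P h0)
    rw [h1, h2, mul_zero] at h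
    exact lt_irrefl _ h

/-- The degrees of the curves in `X - {D = 0}`, where `X` is the projective variety with the generic
point `y`, are bounded linearly: there are a proper closed subset and a constant `A` such that the
degree of every morphism from a smooth curve of genus `g`, with `s` points at infinity, to
`X - {D = 0}` whose image is not contained in the closed subset is at most `A * (2 * g - 2 + s)`,
and the morphism is constant if this number is negative. Here the morphism is given by a point `z`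
over the function field `E` of the curve, and the points at infinity are the places with the centre
in `D = 0`. -/
def LinBounded (y : Fin (M + 1) → L) (D : Set (MvPolynomial (Fin (M + 1)) ℂ)) : Prop :=
  ∃ R : MvPolynomial (Fin (M + 1)) ℂ, IsForm R ∧ val y R ≠ 0 ∧ ∃ A : ℕ,
    ∀ (E : Type) [Field E] [Algebra ℂ E] [IsFF ℂ E] (z : Fin (M + 1) → E), Pt y z → ¬ In D z →
      val z R ≠ 0 →
      pht ℂ z ≤ A * max (canDeg ℂ E + ({P : Place ℂ E | CentreIn D z P}.ncard : ℤ)) 0

/-- **Linear bound.** -/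
theorem degrees (ha : ∀ i, Function.Injective (a i)) (hF : Family a y D x T) (hy : y ≠ 0)
    (hgen : coords ℂ y = ⊤) {α : Fin N → ℕ} {β : ∀ i, Fin (p i) → ℕ} (hT : NGood p T α β) :
    ∃ R : MvPolynomial (Fin (M + 1)) ℂ, IsForm R ∧ val y R ≠ 0 ∧ ∃ A : ℕ,
      ∀ (E : Type) [Field E] [Algebra ℂ E] [IsFF ℂ E] (z : Fin (M + 1) → E), Pt y z → ¬ In D z →
        val z R ≠ 0 → ∃ x' : Fin N → E, (∀ i, Value y (x i) z (x' i)) ∧
          ∑ i, hgt ℂ (x' i) ≤ (∑ i, α i : ℕ) *
            max (canDeg ℂ E + ({P : Place ℂ E | CentreIn D z P}.ncard : ℤ)) 0 ∧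
          pht ℂ z ≤ A * max (canDeg ℂ E + ({P : Place ℂ E | CentreIn D z P}.ncard : ℤ)) 0 := by
  classical
  obtain ⟨R, hR, hyR, B, h⟩ := hF.height hy hgen
  refine ⟨R, hR, hyR, B * ∑ i, α i, fun E _ _ _ z hz hD hzR => ?_⟩
  obtain ⟨x', hv, h1, h2, h3⟩ := h E z hz hzR
  have hfin := centre_finite hD
  have h4 := lin_ineq (k := ℂ) ha hT.1 h1 hfin.toFinset fun P hP =>
    hT.2 _ (h2 P fun hc => hP (hfin.mem_toFinset.2 hc))
  rw [← Set.ncard_eq_toFinset_card _ hfin] at h4
  refine ⟨x', hv, h4, h3.trans ((mul_le_mul_of_nonneg_left h4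
    (Int.natCast_nonneg _)).trans (le_of_eq ?_))⟩
  push_cast
  ring

/-- **Linear bound.** -/
theorem linBounded (ha : ∀ i, Function.Injective (a i)) (hF : Family a y D x T) (hy : y ≠ 0)
    (hgen : coords ℂ y = ⊤) (hT : Pool.Agent.H583_GQ.Good p T) : LinBounded y D := by
  obtain ⟨α, β, hαβ⟩ := hT.nat
  obtain ⟨R, hR, hyR, A, h⟩ := degrees ha hF hy hgen hαβ
  refine ⟨R, hR, hyR, A, fun E _ _ _ z hz hD hzR => ?_⟩
  obtain ⟨x', -, -, h1⟩ := h E z hz hD hzR
  exact h1

end Pool.Agent.H583_GQ
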