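import Pool.Agent.H583_GQ.Defs
import Pool.Agent.Y221.PD.Imp

/-!
General implications between the conditions on punctured discs, entire curves, and images of the
multiplicative group for quasi-projective varieties.
-/

set_option autoImplicit false

namespace Pool.Agent.H583_GQ

open FF Pool.Agent.W602.GT Metric
open Pool.Agent.Y221.PD (EssentialDisc TorusCurve)
open Pool.Agent.Y221.BD (EntireCurve)

variable {M : ℕ} {L : Type} [Field L] [Algebra ℂ L] {y : Fin (M + 1) → L}
  {D : Set (MvPolynomial (Fin (M + 1)) ℂ)}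

/-- TARGET 1. Proof: as `Pool.Agent.Y221.PD.brody_of_picard` (file Y221/PD/Imp.lean): for an entire
curve `f` in `X - {D = 0}` the map `w ↦ f (sin (1 / w))` is a punctured disc in `X - {D = 0}` with an
essential singularity. -/
theorem brody_of_picard (h : PseudoPicard y D) : PseudoBrody y D := by
  obtain ⟨R, hR, hRx, h⟩ := h
  refine ⟨R, hR, hRx, fun f hf hfD t => ?_⟩
  obtain ⟨f', hf'⟩ : ∃ f' : ℂ → Fin (M + 1) → ℂ, ∀ t i, f' t i = f i t := ⟨fun t i => f i t,
    fun _ _ => rfl⟩
  have hfe : ∀ t, f' t = fun i => f i t := fun t => funext (hf' t)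
  have hne : ∀ t, f' t ≠ 0 := by
    intro t h0
    obtain ⟨i, hi⟩ := hf.ne t
    apply hi
    rw [← hf', h0]
    rfl
  have hE : Pool.Agent.H159R3.GGLLog.EntireCurve (ι := Empty) ∅ (fun e => e.elim) f' := by
    refine ⟨?_, fun z => ⟨hne z, fun j hj => absurd hj (Set.notMem_empty j), fun e => e.elim⟩, ?_⟩
    · rw [differentiable_pi]
      intro i
      have : (fun t => f' t i) = f i := funext fun t => hf' t i
      rw [this]
      exact hf.hol i
    · obtain ⟨i, j, a, b, hab⟩ := hf.nonconst
      refine ⟨a, b, fun c hc => hab ?_⟩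
      have h1 : ∀ l, f l a = c * f l b := by
        intro l
        have := congrFun hc l
        rw [hf', Pi.smul_apply, hf', smul_eq_mul] at this
        exact this
      rw [h1 i, h1 j]
      ring
  obtain ⟨⟨h1, h2⟩, h3⟩ := Pool.Agent.W603.BP.sin_curve hE
  have hD : EssentialDisc y (fun w => f' (Complex.sin w⁻¹)) := by
    refine ⟨fun i => ?_, fun t _ => hne _, fun G hG hxG t _ => ?_, h3⟩
    · exact fun t ht => (differentiableWithinAt_pi.mp (h1 t ht)) i
    · rw [hfe]
      exact hf.mem G hG hxG _
  obtain ⟨w, hw, hws⟩ := Pool.Agent.W603.BP.sin_point t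
  have h4 := h _ hD (fun t _ => by
    simp only [hfe]
    exact hfD _) w hw
  simp only [hws, hfe] at h4
  exact h4

/-- TARGET 2. Proof: as `Pool.Agent.Y221.PD.torus_of_brody`: compose with the exponential map. -/
theorem gm_of_brody (h : PseudoBrody y D) : PseudoGm y D := by
  obtain ⟨R, hR, hRx, h⟩ := h
  refine ⟨R, hR, hRx, fun p hp hpD t ht => ?_⟩
  have h1 : EntireCurve y (fun i s => (p i).eval (Complex.exp s)) := by
    refine ⟨fun i => (p i).differentiable.comp Complex.differentiable_exp,
      fun s => hp.ne _ (Complex.exp_ne_zero s), fun G hG hxG s =>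
      hp.mem G hG hxG _ (Complex.exp_ne_zero s), ?_⟩
    obtain ⟨i, j, a, b, ha, hb, hab⟩ := hp.nonconst
    refine ⟨i, j, Complex.log a, Complex.log b, ?_⟩
    simp only [Complex.exp_log ha, Complex.exp_log hb]
    exact hab
  have h2 := h _ h1 (fun s => hpD _ (Complex.exp_ne_zero s)) (Complex.log t)
  simp only [Complex.exp_log ht] at h2
  exact h2

end Pool.Agent.H583_GQ
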