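import Pool.Agent.W603.PV.Ext

/-!
Functions on curves which take given values with high multiplicities: the linear bound for the
degrees.
-/

set_option autoImplicit false

open FF Pool.Agent.W603.LV

namespace Pool.Agent.H583_GQ

variable {k K : Type*} [Field k] [Field K] [Algebra k K]

/-- The multiplicities of the values `a i j` of the functions `x i` at the place `P`. -/
noncomputable def multk {N : ℕ} {p : Fin N → ℕ} (a : ∀ i, Fin (p i) → k) (P : Place k K)
    (x : Fin N → K) : ∀ i, Fin (p i) → ℕ :=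
  fun i j => (P.ord (x i - algebraMap k K (a i j))).toNat

/-- one function at one place -/
theorem one_cases (P : Place k K) {X : K} (hX : ∀ c : k, X ≠ algebraMap k K c) :
    (0 ≤ P.ord X ∧ ∀ c : k, 0 ≤ P.ord (X - algebraMap k K c)) ∨
      (P.ord X < 0 ∧ ∀ c : k, P.ord (X - algebraMap k K c) = P.ord X) := by
  have hX0 : X ≠ 0 := fun h => hX 0 (by rw [h, map_zero])
  by_cases hr : 0 ≤ P.ord X
  · refine Or.inl ⟨hr, fun c => ?_⟩
    have h2 : P.Reg (X - algebraMap k K c) := by
      rw [sub_eq_add_neg]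
      exact P.reg_add (Or.inr hr) (P.reg_neg (P.reg_const _))
    exact (P.reg_iff (sub_ne_zero.2 (hX c))).1 h2
  · push Not at hr
    refine Or.inr ⟨hr, fun c => ?_⟩
    by_cases hc : algebraMap k K c = 0
    · rw [hc, sub_zero]
    · have hc' : c ≠ 0 := by
        rintro rfl
        exact hc (map_zero _)
      have h2 : P.ord (-algebraMap k K c) = 0 := by rw [P.ord_neg, P.ord_const hc']
      rw [sub_eq_add_neg]
      exact (P.ord_add_eq hX0 (neg_ne_zero.2 hc) (by rw [h2]; exact hr)).2

/-- at most one value is taken -/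
theorem one_value (P : Place k K) {X : K} (hX : ∀ c : k, X ≠ algebraMap k K c) {c c' : k}
    (h : 0 < P.ord (X - algebraMap k K c)) (h' : 0 < P.ord (X - algebraMap k K c')) : c = c' := by
  by_contra hne
  have hd : c' - c ≠ 0 := sub_ne_zero.2 fun h => hne h.symm
  have e1 : algebraMap k K (c' - c) = (X - algebraMap k K c) - (X - algebraMap k K c') := by
    rw [map_sub]
    ring
  have h3 := P.ord_sub (sub_ne_zero.2 (hX c)) (sub_ne_zero.2 (hX c')) (by
    rw [← e1]
    exact (map_ne_zero _).2 hd)
  rw [← e1, P.ord_const hd] at h3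
  have := lt_min h h'
  omega

variable [CharZero k] [IsFF k K] [IsAlgClosed k]

/-- the order of the derivative -/
theorem ord_der_ge (P : Place k K) {D : Derivation k K K} (hD : D ≠ 0) {X : K}
    (hX : ∀ c : k, X ≠ algebraMap k K c) (hDX : D X ≠ 0) {q : ℕ} {b : Fin q → k}
    (hb : Function.Injective b) :
    vo P D + ∑ j, ((P.ord (X - algebraMap k K (b j))).toNat : ℤ) -
      (if ∃ j, 0 < P.ord (X - algebraMap k K (b j)) then 1 else 0) - 2 * max (-P.ord X) 0 ≤
        P.ord (D X) := by
  classical
  rcases one_cases P hX with ⟨h0, h1⟩ | ⟨h0, h1⟩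
  · have hm : max (-P.ord X) 0 = 0 := max_eq_right (by omega)
    rw [hm, mul_zero, sub_zero]
    by_cases hex : ∃ j, 0 < P.ord (X - algebraMap k K (b j))
    · rw [if_pos hex]
      obtain ⟨j, hj⟩ := hex
      have h2 : ∑ j', ((P.ord (X - algebraMap k K (b j'))).toNat : ℤ) =
          P.ord (X - algebraMap k K (b j)) := by
        rw [Finset.sum_eq_single j]
        · exact Int.toNat_of_nonneg hj.le
        · intro j' _ hj'
          have : ¬ 0 < P.ord (X - algebraMap k K (b j')) := fun h => hj' (hb (one_value P hX h hj))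
          rw [Int.toNat_of_nonpos (not_lt.1 this)]
          rfl
        · simp
      have h3 := (ord_der P hD (f := X - algebraMap k K (b j)) hj.ne').2
      rw [map_sub, Derivation.map_algebraMap, sub_zero] at h3
      rw [h2, h3]
      omega
    · rw [if_neg hex]
      have h2 : ∑ j', ((P.ord (X - algebraMap k K (b j'))).toNat : ℤ) = 0 := by
        refine Finset.sum_eq_zero fun j' _ => ?_
        have : ¬ 0 < P.ord (X - algebraMap k K (b j')) := fun h => hex ⟨j', h⟩
        rw [Int.toNat_of_nonpos (not_lt.1 this)]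
        rfl
      rw [h2]
      obtain ⟨g, hg, hDg⟩ := der_mul P (ord_unif P) hD (f := X) (Or.inr h0)
      have hg0 : g ≠ 0 := by
        rintro rfl
        rw [mul_zero] at hDg
        exact hDX hDg
      rw [hDg, P.ord_mul (der_pi_ne_zero hD P (ord_unif P)) hg0]
      have h3 : 0 ≤ P.ord g := hg.resolve_left hg0
      have h4 : vo P D = P.ord (D (unif P)) := rfl
      omega
  · have hm : max (-P.ord X) 0 = -P.ord X := max_eq_left (by omega)
    have hex : ¬ ∃ j, 0 < P.ord (X - algebraMap k K (b j)) := by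
      rintro ⟨j, hj⟩
      rw [h1] at hj
      omega
    have h2 : ∑ j', ((P.ord (X - algebraMap k K (b j'))).toNat : ℤ) = 0 := by
      refine Finset.sum_eq_zero fun j' _ => ?_
      rw [h1, Int.toNat_of_nonpos h0.le]
      rfl
    have h3 := (ord_der P hD (f := X) h0.ne).2
    rw [h2, if_neg hex, hm, h3]
    omega

omit [CharZero k] [IsFF k K] [IsAlgClosed k] in
theorem const_or (X : K) : (∃ c : k, X = algebraMap k K c) ∨ ∀ c : k, X ≠ algebraMap k K c := by
  by_cases h : ∃ c : k, X = algebraMap k K c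
  · exact Or.inl h
  · push Not at h
    exact Or.inr h

omit [CharZero k] [IsFF k K] [IsAlgClosed k] in
theorem hgt_sub {X : K} (hX : ∀ c : k, X ≠ algebraMap k K c) (c : k) :
    hgt k (X - algebraMap k K c) = hgt k X := by
  unfold hgt
  refine finsum_congr fun P => ?_
  rcases one_cases P hX with ⟨h0, h1⟩ | ⟨h0, h1⟩
  · have := h1 c
    rw [max_eq_right (by omega), max_eq_right (by omega)]
  · rw [h1 c]

/-- the number of the points with a given value -/
theorem sum_mult {X : K} (hX : ∀ c : k, X ≠ algebraMap k K c) (c : k) (T : Finset (Place k K)) :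
    ∑ P ∈ T, ((P.ord (X - algebraMap k K c)).toNat : ℤ) ≤ hgt k X := by
  classical
  rw [← hgt_sub hX c, ← hgt_inv]
  obtain ⟨T', hT'⟩ := exists_supp (k := k) (Finset.univ : Finset (Fin 1))
    ![(X - algebraMap k K c)⁻¹]
  have h1 : ∀ P : Place k K, P.ord (X - algebraMap k K c)⁻¹ ≠ 0 → P ∈ T' := fun P hP =>
    hT' 0 (Finset.mem_univ _) P hP
  rw [hgt_finset _ (T ∪ T') fun P hP => Finset.mem_union_right _ (h1 P hP)]
  refine (Finset.sum_le_sum fun P _ => ?_).trans (Finset.sum_le_sum_of_subset_of_nonneg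
    Finset.subset_union_left fun P _ _ => le_max_right _ _)
  rw [P.ord_inv, neg_neg]
  exact le_of_eq (Int.toNat_eq_max _)

/-- the number of the points with a given value -/
theorem sum_mult_eq {X : K} (hX : ∀ c : k, X ≠ algebraMap k K c) (c : k) (T : Finset (Place k K))
    (hT : ∀ P : Place k K, P.ord (X - algebraMap k K c) ≠ 0 → P ∈ T) :
    ∑ P ∈ T, ((P.ord (X - algebraMap k K c)).toNat : ℤ) = hgt k X := by
  rw [← hgt_sub hX c, ← hgt_inv, hgt_finset _ T fun P hP => hT P fun h => hP (by
    rw [P.ord_inv, h, neg_zero])]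
  refine Finset.sum_congr rfl fun P _ => ?_
  rw [P.ord_inv, neg_neg]
  exact Int.toNat_eq_max _

/-- **Riemann-Hurwitz.** -/
theorem rh {X : K} (hX : ∀ c : k, X ≠ algebraMap k K c) {q : ℕ} {b : Fin q → k}
    (hb : Function.Injective b) (T : Finset (Place k K))
    (hT : ∀ P : Place k K, (∃ j, 0 < P.ord (X - algebraMap k K (b j))) → P ∈ T) :
    ((q : ℤ) - 2) * hgt k X - canDeg k K ≤
      ∑ P ∈ T, if ∃ j, 0 < P.ord (X - algebraMap k K (b j)) then 1 else 0 := by
  classical
  have hD := der_ne (k := k) (K := K)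
  set D := der k K with hDd
  have hDX : D X ≠ 0 := by
    intro h
    obtain ⟨c, hc⟩ := const_of_der hD h
    exact hX c hc
  obtain ⟨T0, hT0⟩ := exists_supp (k := k) (Finset.univ : Finset (Option (Option (Fin q))))
    (fun o => o.elim X fun o' => o'.elim (D X) fun j => X - algebraMap k K (b j))
  set T' : Finset (Place k K) := T0 ∪ (vo_finite hD).toFinset ∪ T with hT'
  have h1 : ∀ P : Place k K, P.ord X ≠ 0 → P ∈ T' := fun P hP =>
    Finset.mem_union_left _ (Finset.mem_union_left _ (hT0 none (Finset.mem_univ _) P hP))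
  have h2 : ∀ P : Place k K, P.ord (D X) ≠ 0 → P ∈ T' := fun P hP =>
    Finset.mem_union_left _ (Finset.mem_union_left _ (hT0 (some none) (Finset.mem_univ _) P hP))
  have h3 : ∀ (j : Fin q) (P : Place k K), P.ord (X - algebraMap k K (b j)) ≠ 0 → P ∈ T' :=
    fun j P hP => Finset.mem_union_left _ (Finset.mem_union_left _
      (hT0 (some (some j)) (Finset.mem_univ _) P hP))
  have h4 : ∀ P : Place k K, vo P D ≠ 0 → P ∈ T' := fun P hP => by simp [hT', hP]
  have h5 := canDeg_finset hD T' h4
  have h6 := sum_ord_finset (k := k) (D X) T' h2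
  have h7 := Finset.sum_le_sum fun P (_ : P ∈ T') => ord_der_ge P hD hX hDX hb
  rw [h6, Finset.sum_sub_distrib, Finset.sum_sub_distrib, Finset.sum_add_distrib, h5,
    Finset.sum_comm, ← Finset.mul_sum, ← hgt_finset X T' h1,
    Finset.sum_congr rfl fun j _ => sum_mult_eq hX (b j) T' (h3 j), Finset.sum_const,
    Finset.card_univ, Fintype.card_fin, nsmul_eq_mul] at h7
  have h8 : ∑ P ∈ T', (if ∃ j, 0 < P.ord (X - algebraMap k K (b j)) then (1 : ℤ) else 0) =
      ∑ P ∈ T, if ∃ j, 0 < P.ord (X - algebraMap k K (b j)) then (1 : ℤ) else 0 := by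
    refine (Finset.sum_subset Finset.subset_union_right fun P _ hP => ?_).symm
    exact if_neg fun h => hP (hT P h)
  rw [h8] at h7
  linarith

/-- **The linear bound.** -/
theorem lin_ineq {N : ℕ} {p : Fin N → ℕ} {a : ∀ i, Fin (p i) → k}
    (ha : ∀ i, Function.Injective (a i)) {α : Fin N → ℕ} {β : ∀ i, Fin (p i) → ℕ}
    (hαβ : ∀ i, ∑ j, β i j < α i * (p i - 2)) {x : Fin N → K}
    (hne : ∀ i j, x i ≠ algebraMap k K (a i j)) (S : Finset (Place k K))
    (hS : ∀ P ∉ S, ∑ i, (if multk a P x i = 0 then 0 else α i) ≤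
      ∑ i, ∑ j, β i j * multk a P x i j) :
    ∑ i, hgt k (x i) ≤ (∑ i, α i : ℕ) * max (canDeg k K + S.card) 0 := by
  classical
  set α' : Fin N → ℤ := fun i => if ∃ c : k, x i = algebraMap k K c then 0 else α i with hα'
  have hα0 : ∀ i, 0 ≤ α' i := fun i => by
    simp only [hα']
    split_ifs
    · exact le_rfl
    · exact Int.natCast_nonneg _
  have hα1 : ∀ i, α' i ≤ α i := fun i => by
    simp only [hα']
    split_ifs
    · exact Int.natCast_nonneg _
    · exact le_rfl
  have hconst : ∀ i, (∃ c : k, x i = algebraMap k K c) →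
      hgt k (x i) = 0 ∧ ∀ (P : Place k K) j, multk a P x i j = 0 := by
    rintro i ⟨c, hc⟩
    refine ⟨?_, fun P j => ?_⟩
    · rw [hc]
      exact Pool.Agent.W603.PV.hgt_algebraic (isAlgebraic_algebraMap c)
    · unfold multk
      have h1 : c - a i j ≠ 0 := fun h0 => hne i j (by rw [hc, sub_eq_zero.1 h0])
      rw [hc, ← map_sub, P.ord_const h1]
      rfl
  obtain ⟨T0, hT0⟩ := exists_supp (k := k) (Finset.univ : Finset ((i : Fin N) × Fin (p i)))
    (fun s => x s.1 - algebraMap k K (a s.1 s.2))
  set T : Finset (Place k K) := T0 ∪ S with hTd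
  have hT : ∀ i j (P : Place k K), P.ord (x i - algebraMap k K (a i j)) ≠ 0 → P ∈ T :=
    fun i j P hP => Finset.mem_union_left _ (hT0 ⟨i, j⟩ (Finset.mem_univ _) P hP)
  -- the number of the zeros
  have h1 : ∀ i, α' i * (((p i : ℤ) - 2) * hgt k (x i)) - α' i * canDeg k K ≤
      ∑ P ∈ T, if multk a P x i = 0 then 0 else α' i := by
    intro i
    rcases const_or (k := k) (x i) with hc | hc
    · have h0 : α' i = 0 := by
        simp only [hα']
        rw [if_pos hc]
      rw [h0]
      simp
    · have h2 := rh hc (ha i) T fun P hP => by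
        obtain ⟨j, hj⟩ := hP
        exact hT i j P hj.ne'
      have h3 := mul_le_mul_of_nonneg_left h2 (hα0 i)
      rw [mul_sub, Finset.mul_sum] at h3
      refine h3.trans (Finset.sum_le_sum fun P _ => ?_)
      split_ifs with h4 h5 h5
      · exfalso
        obtain ⟨j, hj⟩ := h4
        have h6 := congrFun h5 j
        unfold multk at h6
        simp only [Pi.zero_apply] at h6
        omega
      · rw [mul_one]
      · rw [mul_zero]
      · rw [mul_zero]
        exact hα0 i
  -- the places which are not in `S`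
  have h2 : ∀ P ∈ T, ∑ i, (if multk a P x i = 0 then 0 else α' i) ≤
      (∑ i, ∑ j, (β i j : ℤ) * multk a P x i j) + (if P ∈ S then ∑ i, α' i else 0) := by
    intro P _
    by_cases hP : P ∈ S
    · rw [if_pos hP]
      have h3 : ∑ i, (if multk a P x i = 0 then 0 else α' i) ≤ ∑ i, α' i :=
        Finset.sum_le_sum fun i _ => by
          split_ifs
          · exact hα0 i
          · exact le_rfl
      have h4 : 0 ≤ ∑ i, ∑ j, (β i j : ℤ) * multk a P x i j := by positivity
      linarith
    · rw [if_neg hP, add_zero]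
      have h3 := hS P hP
      have h4 : ((∑ i, (if multk a P x i = 0 then 0 else α i) : ℕ) : ℤ) ≤
          ((∑ i, ∑ j, β i j * multk a P x i j : ℕ) : ℤ) := by exact_mod_cast h3
      push_cast at h4
      refine le_trans (Finset.sum_le_sum fun i _ => ?_) h4
      split_ifs
      · exact le_rfl
      · exact hα1 i
  have h3 : ∑ i, (α' i * (((p i : ℤ) - 2) * hgt k (x i)) - α' i * canDeg k K) ≤
      ∑ i, ∑ j, (β i j : ℤ) * hgt k (x i) + (∑ i, α' i) * S.card := by
    refine (Finset.sum_le_sum fun i _ => h1 i).trans ?_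
    rw [Finset.sum_comm]
    refine (Finset.sum_le_sum h2).trans ?_
    rw [Finset.sum_add_distrib]
    refine add_le_add ?_ ?_
    · rw [Finset.sum_comm]
      refine Finset.sum_le_sum fun i _ => ?_
      rw [Finset.sum_comm]
      refine Finset.sum_le_sum fun j _ => ?_
      rw [← Finset.mul_sum]
      refine mul_le_mul_of_nonneg_left ?_ (Int.natCast_nonneg _)
      rcases const_or (k := k) (x i) with hc | hc
      · rw [(hconst i hc).1, Finset.sum_congr rfl fun P _ => by rw [(hconst i hc).2 P j]]
        simp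
      · exact sum_mult hc (a i j) T
    · rw [← Finset.sum_filter, Finset.sum_const, nsmul_eq_mul, mul_comm]
      refine mul_le_mul_of_nonneg_left ?_ (Finset.sum_nonneg fun i _ => hα0 i)
      have h5 : (T.filter fun P => P ∈ S).card ≤ S.card := Finset.card_le_card fun P hP =>
        (Finset.mem_filter.1 hP).2
      exact_mod_cast h5
  have h4 : ∀ i, hgt k (x i) ≤
      α' i * (((p i : ℤ) - 2) * hgt k (x i)) - ∑ j, (β i j : ℤ) * hgt k (x i) := by
    intro i
    rcases const_or (k := k) (x i) with hc | hc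
    · rw [(hconst i hc).1]
      simp
    · have h5 : α' i = α i := by
        simp only [hα']
        rw [if_neg]
        rintro ⟨c, hc'⟩
        exact hc c hc'
      have h6 := hαβ i
      have h7 : 2 ≤ p i := by
        by_contra hcon
        have h8 : p i - 2 = 0 := by omega
        rw [h8, mul_zero] at h6
        omega
      have h8 : (∑ j, (β i j : ℤ)) + 1 ≤ α i * ((p i : ℤ) - 2) := by
        have h9 : (∑ j, β i j) + 1 ≤ α i * (p i - 2) := h6
        have h10 : (((∑ j, β i j) + 1 : ℕ) : ℤ) ≤ ((α i * (p i - 2) : ℕ) : ℤ) := by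
          exact_mod_cast h9
        rw [Nat.cast_mul, Nat.cast_sub h7] at h10
        push_cast at h10
        exact h10
      rw [← Finset.sum_mul, h5]
      have h9 := mul_le_mul_of_nonneg_right h8 (hgt_nonneg (k := k) (x i))
      linarith
  have h5 : ∑ i, hgt k (x i) ≤ (∑ i, α' i) * (canDeg k K + S.card) := by
    have h6 := Finset.sum_le_sum fun i (_ : i ∈ Finset.univ) => h4 i
    rw [Finset.sum_sub_distrib] at h6
    rw [Finset.sum_sub_distrib, ← Finset.sum_mul] at h3
    linarith
  refine h5.trans ?_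
  have h6 : (∑ i, α' i) * (canDeg k K + S.card) ≤
      (∑ i, α' i) * max (canDeg k K + S.card) 0 :=
    mul_le_mul_of_nonneg_left (le_max_left _ _) (Finset.sum_nonneg fun i _ => hα0 i)
  refine h6.trans (mul_le_mul_of_nonneg_right ?_ (le_max_right _ _))
  push_cast
  exact Finset.sum_le_sum fun i _ => hα1 i

end Pool.Agent.H583_GQ
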