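import Pool.Agent.H583_GQ.MeroX
import Pool.Agent.H583_GQ.GTL
import Pool.Agent.H583_GQ.Spec
import Pool.Agent.H583_GQ.Wts
import Pool.Agent.Y221.PD.Main

/-!
The multiplicity criterion for quasi-projective varieties.
-/

set_option autoImplicit false
set_option maxHeartbeats 400000
set_option linter.overlappingInstances false
set_option linter.unusedSectionVars false

open FF IntermediateField Filter

namespace Pool.Agent.H583_GQ

open Pool.Agent.W602.GT Pool.Agent.TH466.QG Pool.Agent.W603.BP Metric Topology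

variable {M : ℕ} {L : Type} [Field L] [Algebra ℂ L] {y : Fin (M + 1) → L}
  {N : ℕ} {p : Fin N → ℕ} {a : ∀ i, Fin (p i) → ℂ}
  {D : Set (MvPolynomial (Fin (M + 1)) ℂ)} {x : Fin N → L} {T : Set (∀ i, Fin (p i) → ℕ)}

/-- **Subvarieties.** -/
theorem strongly (ha : ∀ i, Function.Injective (a i)) (hF : Family a y D x T) (hy : y ≠ 0)
    (hgen : coords ℂ y = ⊤) (hT : Strong p T) : StronglyLog y D := by
  obtain ⟨α, β, hαβ, hk⟩ := hT.nat
  obtain ⟨R, hR, hyR, h⟩ := hF.spec hy hgen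
  refine ⟨R, hR, hyR, fun E _ _ w z hz _ hzR hw htr => ?_⟩
  obtain ⟨i1, hi1, x', h1, h2, h3⟩ := h E z ⟨hz.ne, hz.spec⟩ hzR
  refine general_log ha hαβ h1 ?_ htr hw fun P _ hP hP0 => hk _ (h3 P hP) hP0
  exact alg_over (k := ℂ) (E := E) (K := E) (adjoin_norm hz.gen hi1) _ h2

/-- **Logarithmic general type.** -/
theorem loggt (ha : ∀ i, Function.Injective (a i)) (hF : Family a y D x T) (hy : y ≠ 0)
    (hgen : coords ℂ y = ⊤) (hT : Good p T) (hx : AlgebraicIndependent ℂ x) (hN : 1 ≤ N) :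
    LogGT y D N := by
  obtain ⟨α, β, hαβ, hk⟩ := hT.one
  obtain ⟨R, -, hyR, h⟩ := hF.mem
  refine general_log_one ha hαβ hF.ne hF.alg hx hN fun P _ hP hP0 => hk _ ?_ hP0
  exact h L y x (pt_self hy) hyR (fun i => value_self hy hgen _) hF.ne P hP

section picard

open Pool.Agent.Y221.AP
open Pool.Agent.Y221.PD (val_cl)

theorem ox_cl_nonneg {g : ℂ → ℂ} (hg : MeromorphicOn g Om) {t : ℂ} (ht : t ∈ Om)
    (ha : AnalyticAt ℂ g t) : 0 ≤ ox t (cl g hg) := by
  unfold ox
  rw [odr_cl hg ht]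
  have h1 := ha.meromorphicOrderAt_nonneg
  rcases eq_or_ne (meromorphicOrderAt g t) ⊤ with h2 | h2
  · rw [h2, WithTop.untop₀_top]
  · rw [← WithTop.coe_untop₀_of_ne_top h2] at h1
    exact_mod_cast h1

theorem ox_cl_zero {g : ℂ → ℂ} (hg : MeromorphicOn g Om) {t : ℂ} (ht : t ∈ Om)
    (ha : AnalyticAt ℂ g t) (h0 : g t ≠ 0) : ox t (cl g hg) = 0 := by
  unfold ox
  rw [odr_cl hg ht, ha.meromorphicOrderAt_eq, ha.analyticOrderAt_eq_zero.2 h0]
  rfl

/-- **Punctured discs.** -/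
theorem picard (ha : ∀ i, Function.Injective (a i)) (hF : Family a y D x T) (hy : y ≠ 0)
    (hgen : coords ℂ y = ⊤) (hT : Pool.Agent.H583_GQ.Good p T) : PseudoPicard y D := by
  classical
  obtain ⟨α, β, hαβ, hk⟩ := hT.nat
  obtain ⟨R, hR, hyR, h⟩ := hF.spec hy hgen
  refine ⟨R, hR, hyR, ?_⟩
  intro f hf hfD t0 ht0
  by_contra hft
  have hfan : ∀ i, AnalyticOnNhd ℂ (fun w => f w i) (PB 1) := by
    intro i w hw
    exact (hf.hol i).analyticAt (disc_open.mem_nhds (mem_disc.mpr hw))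
  have hinvPB : ∀ {z : ℂ}, z ∈ Om → z⁻¹ ∈ PB 1 := by
    intro z hz
    exact inv_mem_PB one_pos (by rwa [inv_one])
  have hPBinv : ∀ {w : ℂ}, w ∈ PB 1 → w⁻¹ ∈ Om := by
    intro w hw
    have := inv_mem_Ext hw
    rwa [inv_one] at this
  have hOm0 : ∀ {z : ℂ}, z ∈ Om → z ≠ 0 := by
    intro z hz h0
    have h1 : (1 : ℝ) < ‖z‖ := hz
    rw [h0, norm_zero] at h1
    linarith
  obtain ⟨f', hf'⟩ : ∃ f' : Fin (M + 1) → ℂ → ℂ, ∀ i z, f' i z = f z⁻¹ i := ⟨_, fun _ _ => rfl⟩
  have hf'an : ∀ i, ∀ z ∈ Om, AnalyticAt ℂ (f' i) z := by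
    intro i z hz
    have h1 : f' i = (fun w => f w i) ∘ fun z => z⁻¹ := by
      funext v
      exact hf' i v
    rw [h1]
    exact AnalyticAt.comp (hfan i _ (hinvPB hz)) (analyticAt_inv (hOm0 hz))
  have hmer : ∀ i, MeromorphicOn (f' i) Om := fun i z hz => (hf'an i z hz).meromorphicAt
  obtain ⟨z, hzdef⟩ : ∃ z : Fin (M + 1) → MK, z = fun i => cl (f' i) (hmer i) := ⟨_, rfl⟩
  have hcont : ∀ G : MvPolynomial (Fin (M + 1)) ℂ, ∀ t ∈ Om,
      AnalyticAt ℂ (fun t => MvPolynomial.eval (fun i => f' i t) G) t := fun G t ht =>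
    AnalyticAt.aeval_mvPolynomial (fun i => hf'an i t ht) G
  have hvz : ∀ G, val z G = 0 ↔ ∀ t ∈ Om, MvPolynomial.eval (fun i => f' i t) G = 0 := by
    intro G
    rw [hzdef, val_cl hmer G, cl_eq_zero]
    constructor
    · intro h t ht
      exact eq_of_cod (g := fun _ => 0) h ht (hcont G t ht).continuousAt continuousAt_const
    · intro h
      filter_upwards [cod_Om] with t ht
      exact h t ht
  have hevf : ∀ (G : MvPolynomial (Fin (M + 1)) ℂ) (t : ℂ),
      MvPolynomial.eval (fun i => f' i t) G = MvPolynomial.eval (f t⁻¹) G := by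
    intro G t
    have h1 : (fun i => f' i t) = f t⁻¹ := by
      funext i
      rw [hf']
    rw [h1]
  have hzR : val z R ≠ 0 := by
    intro h0
    apply hft
    have h1 := (hvz _).1 h0 t0⁻¹ (hPBinv (mem_disc.1 ht0))
    rw [hevf, inv_inv] at h1
    exact h1
  have hz0 : z ≠ 0 := by
    intro h0
    apply hf.ne t0 ht0
    funext i
    have h1 : cl (f' i) (hmer i) = 0 := by
      have := congrFun h0 i
      rwa [hzdef] at this
    have h2 := eq_of_cod (g := fun _ => 0) (cl_eq_zero.1 h1) (hPBinv (mem_disc.1 ht0))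
      (hf'an i _ (hPBinv (mem_disc.1 ht0))).continuousAt continuousAt_const
    rw [hf', inv_inv] at h2
    exact h2
  have hzP : Pt y z := by
    refine ⟨hz0, fun G hG hG0 => ?_⟩
    rw [hvz]
    intro t ht
    rw [hevf]
    exact hf.mem G hG hG0 _ (mem_disc.2 (hinvPB ht))
  obtain ⟨i1, hi1, x', h1, h2, h3⟩ := h MK z hzP hzR
  -- the centres
  have hcen : ∀ t (ht : t ∈ Om), ¬ CentreIn D z (ptX t ht) := by
    intro t ht hcon
    apply hfD _ (mem_disc.2 (hinvPB ht))
    intro G hG hGf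
    obtain ⟨d, hd⟩ := hGf
    change MvPolynomial.aeval (f t⁻¹) G = 0
    rw [MvPolynomial.aeval_eq_eval]

    rw [← hevf]
    rcases hcon G hG d hd with h4 | ⟨j, hj, h4⟩
    · exact (hvz G).1 h4 t ht
    · by_contra hne
      rw [ptX_ord, ptX_ord] at h4
      have h5 : ox t (val z G) = 0 := by
        rw [hzdef, val_cl hmer G]
        exact ox_cl_zero _ ht (hcont G t ht) hne
      have h6 : 0 ≤ ox t (z j) := by
        rw [hzdef]
        exact ox_cl_nonneg _ ht (hf'an j t ht)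
      rw [h5] at h4
      have h7 : (0 : ℤ) ≤ d * ox t (z j) := mul_nonneg (Int.natCast_nonneg _) h6
      omega
  have hinf : ∀ i, MInf (x' i) := fun i => minf_all ha hαβ h1
    (fun t ht => hk _ (h3 _ (hcen t ht))) i
  have hall : ∀ m, MInf (z m / z i1) := by
    intro m
    refine minf_of_alg ?_
    have hle : IntermediateField.adjoin ℂ (Set.range x') ≤ MI := by
      rw [IntermediateField.adjoin_le_iff]
      rintro _ ⟨i, rfl⟩
      exact hinf i
    obtain ⟨P, hP, hPx⟩ := h2 m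
    let φ : IntermediateField.adjoin ℂ (Set.range x') →+* MI :=
      (IntermediateField.inclusion hle).toRingHom
    refine ⟨P.map φ, ?_, ?_⟩
    · rw [Ne, Polynomial.map_eq_zero]
      exact hP
    · rw [← hPx, Polynomial.aeval_def, Polynomial.eval₂_map, Polynomial.aeval_def]
      rfl
  apply hf.ess
  refine extends_of f hfan (fun w hw => hf.ne w (mem_disc.2 hw)) fun j k hj hk => ?_
  have hzk : z k ≠ 0 := by
    intro h0
    apply hk
    rw [hzdef] at h0
    have h1 := cl_eq_zero.1 h0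
    filter_upwards [PB_mem one_pos] with w hw
    have h2 := eq_of_cod (g := fun _ => 0) h1 (hPBinv hw) (hf'an k _ (hPBinv hw)).continuousAt
      continuousAt_const
    rw [hf', inv_inv] at h2
    exact h2
  have hjk : MInf (z j / z k) := by
    have h1 : z j / z k = (z j / z i1) * (z k / z i1)⁻¹ := by
      field_simp
    rw [h1]
    exact (hall j).mul (hall k).inv
  refine ⟨fun w => Fn (z j / z k) w⁻¹, hjk, ?_⟩
  have h1 : cl (f' j) (hmer j) = cl (fun t => Fn (z j / z k) t * f' k t)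
      ((Fn_mero _).mul (hmer k)) := by
    have h2 : cl (f' j) (hmer j) = z j := by rw [hzdef]
    have h3 : cl (f' k) (hmer k) = z k := by rw [hzdef]
    have h4 : cl (fun t => Fn (z j / z k) t * f' k t) ((Fn_mero _).mul (hmer k)) =
        cl (Fn (z j / z k)) (Fn_mero _) * cl (f' k) (hmer k) := rfl
    rw [h4, h2, h3, cl_Fn, div_mul_cancel₀ _ hzk]
  rw [cl_eq] at h1
  filter_upwards [hjk.reg, PB_mem one_pos] with w hw1 hw2
  have hwO := hPBinv hw2
  have h2 := eq_of_cod (f := f' j) (g := fun t => Fn (z j / z k) t * f' k t) h1 hwO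
    (hf'an j _ hwO).continuousAt (hw1.continuousAt.mul (hf'an k _ hwO).continuousAt)
  rw [hf', hf', inv_inv] at h2
  exact h2

end picard

end Pool.Agent.H583_GQ
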