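import Pool.Agent.H583_GQ.AnaX
import Pool.Agent.H583_GQ.Plc
import Pool.Agent.Y221.AP.Wei
import Pool.Agent.Y221.AP.Inf
import Pool.Agent.Y221.AP.Eng2

/-!
Meromorphic functions near infinity with the conditions for the multiplicities are meromorphic at
infinity.
-/

set_option autoImplicit false
set_option linter.unusedSectionVars false

open FF Filter Topology Pool.Agent.Y221.AP Pool.Agent.W603.BP

namespace Pool.Agent.H583_GQ

open Pool.Agent.H583_GP (ell Wr HH exists_J)

/-! ### the places of the field of meromorphic functions -/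

/-- the order -/
noncomputable def ox (z : ℂ) (x : MK) : ℤ := (odr x z).untop₀

theorem ox_coe {x : MK} (hx : x ≠ 0) {z : ℂ} (hz : z ∈ Om) :
    ((ox z x : ℤ) : WithTop ℤ) = odr x z :=
  WithTop.coe_untop₀_of_ne_top (odr_ne_top hx hz)

theorem ox_mul {x y : MK} (hx : x ≠ 0) (hy : y ≠ 0) {z : ℂ} (hz : z ∈ Om) :
    ox z (x * y) = ox z x + ox z y := by
  have h1 := odr_mul x y hz
  rw [← ox_coe hx hz, ← ox_coe hy hz, ← ox_coe (mul_ne_zero hx hy) hz] at h1
  exact_mod_cast h1

theorem odx_add (x y : MK) {z : ℂ} (hz : z ∈ Om) : min (odr x z) (odr y z) ≤ odr (x + y) z := by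
  unfold odr
  rw [meromorphicOrderAt_congr (cod_ev (Fn_add_codis x y) hz)]
  exact meromorphicOrderAt_add (Fn_mero x z hz) (Fn_mero y z hz)

theorem odx_const {c : ℂ} (hc : c ≠ 0) {z : ℂ} (hz : z ∈ Om) : odr (algebraMap ℂ MK c) z = 0 := by
  rw [odr_zero_iff hz]
  have h := (Fn_const c hz).self_of_nhds
  rw [h]
  exact hc

theorem odx_zero {z : ℂ} (hz : z ∈ Om) : odr (0 : MK) z = ⊤ := by
  unfold odr
  rw [meromorphicOrderAt_eq_top_iff]
  refine cod_ev (p := fun w => Fn 0 w = 0) ?_ hz
  exact cl_eq_zero.1 (cl_Fn (0 : MK))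

/-- the place of a point -/
noncomputable def ptX (z : ℂ) (hz : z ∈ Om) : Place ℂ MK where
  ord := ox z
  ord_zero := by
    unfold ox
    rw [odx_zero hz, WithTop.untop₀_top]
  ord_mul := fun hf hg => ox_mul hf hg hz
  ord_add := by
    intro f g hf hg hfg
    have h1 := odx_add f g hz
    rw [← ox_coe hf hz, ← ox_coe hg hz, ← ox_coe hfg hz] at h1
    exact_mod_cast h1
  ord_const := by
    intro c hc
    have h1 := odx_const hc hz
    unfold ox
    rw [h1]
    rfl
  surj := by
    have hm : MeromorphicOn (fun w : ℂ => w - z) Om := fun w _ =>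
      (analyticAt_id.sub analyticAt_const).meromorphicAt
    have h1 : meromorphicOrderAt (fun w : ℂ => w - z) z = 1 := by
      have := meromorphicOrderAt_id_sub_const (𝕜 := ℂ) (x := z)
      exact this
    have h2 := odr_cl hm hz
    rw [h1] at h2
    refine ⟨cl _ hm, fun h0 => ?_, ?_⟩
    · rw [h0, odx_zero hz] at h2
      exact absurd h2 (by decide)
    · unfold ox
      rw [h2]
      rfl

theorem ptX_ord (z : ℂ) (hz : z ∈ Om) (x : MK) : (ptX z hz).ord x = ox z x := rfl

theorem ox_of_analytic {x : MK} (hx : x ≠ 0) {z : ℂ} (hz : z ∈ Om) (hr : Reg x z) {n : ℕ}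
    (hn : analyticOrderAt (Fn x) z = n) : ox z x = n := by
  have h1 : odr x z = ((n : ℤ) : WithTop ℤ) := by
    unfold odr
    rw [AnalyticAt.meromorphicOrderAt_eq hr, hn]
    rfl
  have h2 := ox_coe hx hz
  rw [h1] at h2
  exact_mod_cast h2

theorem ox_zero_iff {x : MK} (hx : x ≠ 0) {z : ℂ} (hz : z ∈ Om) : ox z x = 0 ↔ Fn x z ≠ 0 := by
  rw [← odr_zero_iff hz, ← ox_coe hx hz]
  exact ⟨fun h => by rw [h]; rfl, fun h => by exact_mod_cast h⟩

theorem ox_nonneg {x : MK} (hx : x ≠ 0) {z : ℂ} (hz : z ∈ Om) (hr : Reg x z) : 0 ≤ ox z x := by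
  have h1 := (reg_iff hz).1 hr
  rw [← ox_coe hx hz] at h1
  exact_mod_cast h1

/-! ### the system of functions -/

variable {N : ℕ} {p : Fin N → ℕ} {a : ∀ i, Fin (p i) → ℂ}

/-- **The functions are meromorphic at infinity.** -/
theorem minf_all {α : Fin N → ℕ} {β : ∀ i, Fin (p i) → ℕ} (ha : ∀ i, Function.Injective (a i))
    (hαβ : ∀ i, ∑ j, β i j < α i * (p i - 2)) {x : Fin N → MK}
    (hne : ∀ i j, x i ≠ algebraMap ℂ MK (a i j))
    (hm : ∀ z (hz : z ∈ Om), ∑ i, (if mult a (ptX z hz) x i = 0 then 0 else α i) ≤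
      ∑ i, ∑ j, β i j * mult a (ptX z hz) x i j) (i : Fin N) : MInf (x i) := by
  classical
  have hp : ∀ i, 3 ≤ p i := by
    intro i
    have h1 := hαβ i
    by_contra hcon
    have h2 : p i - 2 = 0 := by omega
    rw [h2, mul_zero] at h1
    omega
  by_cases hcon : ∃ c, x i = algebraMap ℂ MK c
  · obtain ⟨c, hc⟩ := hcon
    rw [hc]
    exact minf_const c
  have hn1 : ∀ i : Fin N, ∃ e U, Nrm (p := 1) ![1, x i] e U := fun i =>
    exists_nrm (p := 1) ![1, x i] (i0 := 0) rfl
  choose e U hN using hn1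
  have hU0 : ∀ i, U i 0 = Fn (e i) := fun i => by
    have := (hN i).eq 0
    rw [this]
    congr 1
    simp
  have hU1 : ∀ i, U i 1 = Fn (e i * x i) := fun i => (hN i).eq 1
  have hr0 : ∀ i, ∀ z ∈ Ext 2, Reg (e i) z := fun i z hz => by
    have := (hN i).reg 0 z hz
    simpa using this
  have hr1 : ∀ i, ∀ z ∈ Ext 2, Reg (e i * x i) z := fun i z hz => (hN i).reg 1 z hz
  have h2O : ∀ z ∈ Ext 2, z ∈ Om := fun z hz => Pool.Agent.Y221.AP.sub_Om hz
  -- the linear forms
  have hlin : ∀ (i : Fin N) (c : ℂ), ∀ z ∈ Ext 2, Reg (e i * (x i - algebraMap ℂ MK c)) z ∧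
      Fn (e i * (x i - algebraMap ℂ MK c)) =ᶠ[𝓝 z] fun w => U i 1 w - c * U i 0 w := by
    intro i c z hz
    have hzO := h2O z hz
    have h1 : e i * (x i - algebraMap ℂ MK c) = e i * x i + algebraMap ℂ MK (-c) * e i := by
      rw [map_neg]
      ring
    rw [h1]
    have h2 : Reg (algebraMap ℂ MK (-c) * e i) z := (reg_const _ hzO).mul (hr0 i z hz) hzO
    refine ⟨(hr1 i z hz).add h2 hzO, ?_⟩
    filter_upwards [Fn_add hzO (hr1 i z hz) h2, Fn_mul hzO (reg_const (-c) hzO) (hr0 i z hz),
      Fn_const (-c) hzO] with w h3 h4 h5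
    rw [h3, h4, h5, hU0, hU1]
    ring
  have hxa : ∀ i j, x i - algebraMap ℂ MK (a i j) ≠ 0 := fun i j => sub_ne_zero.2 (hne i j)
  let ι : Type := {i : Fin N // ¬ ∃ c, x i = algebraMap ℂ MK c}
  have hT : Nonempty ι := ⟨⟨i, hcon⟩⟩
  let q : ι → ℕ := fun i => p i
  let a' : ∀ i : ι, Fin (q i) → ℂ := fun i j => a i j
  let f : ι → ℂ → ℂ := fun i => U i 0
  let g : ι → ℂ → ℂ := fun i => U i 1
  have hell : ∀ (i : ι) (j : Fin (p i)), ∀ z ∈ Ext 2,
      Fn (e i * (x i - algebraMap ℂ MK (a i j))) =ᶠ[𝓝 z] ell a' f g i j :=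
    fun i j z hz => (hlin i _ z hz).2
  have hdf : ∀ i, AnalyticOnNhd ℂ (f i) (Ext 2) := by
    intro i z hz
    change AnalyticAt ℂ (U i 0) z
    rw [hU0]
    exact hr0 i z hz
  have hdg : ∀ i, AnalyticOnNhd ℂ (g i) (Ext 2) := by
    intro i z hz
    change AnalyticAt ℂ (U i 1) z
    rw [hU1]
    exact hr1 i z hz
  -- an element which vanishes on `Ext 2` is zero
  have hzero : ∀ y : MK, (∀ z ∈ Ext 2, Fn y z = 0) → y = 0 := by
    intro y hy
    have h3 : (3 : ℂ) ∈ Ext 2 := by
      change (2 : ℝ) < ‖(3 : ℂ)‖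
      norm_num
    have h1 : ∀ᶠ w in 𝓝 (3 : ℂ), Fn y w = 0 := by
      filter_upwards [(Ext_open 2).mem_nhds h3] with w hw
      exact hy w hw
    rw [← cl_Fn y, cl_eq_zero]
    exact mero_id (Fn_mero y) (h2O _ h3) (freq_of_ev h1)
  have hS : SysX 2 a' (fun i : ι => α i) (fun i : ι => β i) f g := by
    refine ⟨hdf, hdg, ?_, ?_, ?_⟩
    · intro i z hz
      obtain ⟨s, hs⟩ := (hN i).nz z hz
      fin_cases s
      · exact Or.inl hs
      · exact Or.inr hs
    · intro i j
      by_contra hcon
      push Not at hcon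
      refine (mul_ne_zero (hN i).ne (hxa i j)) (hzero _ fun z hz => ?_)
      rw [(hell i j z hz).self_of_nhds]
      exact hcon z hz
    · intro z hz k hk
      have hzO := h2O z hz
      obtain ⟨l, hP⟩ := mult_cases (ptX z hzO) hne
      -- the order of the normalising factor
      have he : ∀ i : Fin N, ox z (e i) = l i := by
        intro i
        have hx0 : x i ≠ 0 → ox z (e i * x i) = ox z (e i) + ox z (x i) := fun h =>
          ox_mul (hN i).ne h hzO
        have h0 := ox_nonneg (hN i).ne hzO (hr0 i z hz)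
        rcases hP i with ⟨h1, h2, -⟩ | ⟨h1, -, h2, h3, -⟩
        · rw [h1]
          obtain ⟨s, hs⟩ := (hN i).nz z hz
          fin_cases s
          · change U i 0 z ≠ 0 at hs
            rw [hU0] at hs
            rw [(ox_zero_iff (hN i).ne hzO).2 hs]
            rfl
          · change U i 1 z ≠ 0 at hs
            rw [hU1] at hs
            have hxi : x i ≠ 0 := by
              rintro h4
              rw [h4, mul_zero] at hs
              have h5 := (Fn_const 0 hzO).self_of_nhds
              rw [map_zero] at h5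
              exact hs h5
            have h5 := (ox_zero_iff (mul_ne_zero (hN i).ne hxi) hzO).2 hs
            rw [hx0 hxi] at h5
            have h6 := h2.resolve_left hxi
            rw [ptX_ord] at h6
            push_cast
            omega
        · rw [ptX_ord] at h3
          have h4 := ox_nonneg (mul_ne_zero (hN i).ne h2) hzO (hr1 i z hz)
          rw [hx0 h2, h3] at h4
          obtain ⟨s, hs⟩ := (hN i).nz z hz
          fin_cases s
          · change U i 0 z ≠ 0 at hs
            rw [hU0] at hs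
            have h5 := (ox_zero_iff (hN i).ne hzO).2 hs
            omega
          · change U i 1 z ≠ 0 at hs
            rw [hU1] at hs
            have h5 := (ox_zero_iff (mul_ne_zero (hN i).ne h2) hzO).2 hs
            rw [hx0 h2, h3] at h5
            omega
      have hkK : ∀ i : ι, k i = mult a (ptX z hzO) x i := by
        intro i
        funext j
        have h1 : analyticOrderAt (Fn (e i * (x i - algebraMap ℂ MK (a i j)))) z = k i j := by
          rw [analyticOrderAt_congr (hell i j z hz)]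
          exact hk i j
        have h2 := ox_of_analytic (mul_ne_zero (hN i).ne (hxa i j)) hzO (hlin i _ z hz).1 h1
        rw [ox_mul (hN i).ne (hxa i j) hzO, he] at h2
        rcases hP i with ⟨h3, -, h4⟩ | ⟨-, h3, -, -, h4⟩
        · have h5 := h4 j
          rw [ptX_ord] at h5
          rw [h5, h3] at h2
          have h6 : ((mult a (ptX z hzO) x i j : ℕ) : ℤ) = (k i j : ℤ) := by
            rw [← h2]
            push_cast
            ring
          exact_mod_cast h6.symm
        · have h5 := (h4 (a i j)).2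
          rw [ptX_ord] at h5
          rw [h5] at h2
          have h6 : (k i j : ℤ) = 0 := by
            rw [← h2]
            ring
          rw [h3]
          exact_mod_cast h6
      have hKc : ∀ i : Fin N, ¬ (¬ ∃ c, x i = algebraMap ℂ MK c) → mult a (ptX z hzO) x i = 0 := by
        intro i hi
        push Not at hi
        obtain ⟨c, hc⟩ := hi
        rcases hP i with ⟨-, -, h4⟩ | ⟨-, h3, -⟩
        · funext j
          have h5 := h4 j
          rw [hc, ← map_sub, (ptX z hzO).ord_const] at h5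
          · exact_mod_cast h5.symm
          · intro h6
            exact hne i j (by rw [hc, sub_eq_zero.1 h6])
        · exact h3
      have h1 := hm z hzO
      have hsub : ∀ F : Fin N → ℕ, (∀ i, mult a (ptX z hzO) x i = 0 → F i = 0) →
          ∑ i : ι, F i = ∑ i, F i := by
        intro F hF
        rw [← Finset.sum_subtype (Finset.univ.filter fun i => ¬ ∃ c, x i = algebraMap ℂ MK c)
          (fun i => by simp) F]
        refine Finset.sum_subset (Finset.subset_univ _) fun i _ hi => ?_
        exact hF i (hKc i (by simpa using hi))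
      have h2 := hsub (fun i => if mult a (ptX z hzO) x i = 0 then 0 else α i) fun i hi => if_pos hi
      have h3 := hsub (fun i => ∑ j, β i j * mult a (ptX z hzO) x i j) fun i hi => by
        rw [hi]
        simp
      rw [← h2, ← h3] at h1
      have e1 : ∑ i : ι, (if k i = 0 then 0 else α i) =
          ∑ i : ι, (if mult a (ptX z hzO) x i = 0 then 0 else α i) :=
        Finset.sum_congr rfl fun i _ => by rw [hkK]
      have e2 : ∑ i : ι, ∑ j, β i j * k i j = ∑ i : ι, ∑ j, β i j * mult a (ptX z hzO) x i j :=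
        Finset.sum_congr rfl fun i _ => by rw [hkK]
      exact (le_of_eq e1).trans (h1.trans (le_of_eq e2.symm))
  have hW : ∀ i : ι, ∃ z ∈ Ext 2, Wr f g i z ≠ 0 := by
    intro i
    by_contra hcon
    push Not at hcon
    refine i.2 (MD_zero ?_)
    have h1 : e i * MD (e i * x i) - MD (e i) * (e i * x i) = 0 := by
      have h0 : e i * MD (e i * x i) - MD (e i) * (e i * x i) =
          e i * MD (e i * x i) + algebraMap ℂ MK (-1) * (MD (e i) * (e i * x i)) := by
        rw [map_neg, map_one]
        ring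
      rw [h0]
      refine hzero _ fun z hz => ?_
      have hzO := h2O z hz
      have r1 := (hr0 i z hz).mul ((hr1 i z hz).MD hzO) hzO
      have r2 := ((hr0 i z hz).MD hzO).mul (hr1 i z hz) hzO
      have r3 := (reg_const (-1) hzO).mul r2 hzO
      have e1 := (Fn_add hzO r1 r3).self_of_nhds
      have e2 := (Fn_mul hzO (hr0 i z hz) ((hr1 i z hz).MD hzO)).self_of_nhds
      have e3 := (Fn_mul hzO (reg_const (-1) hzO) r2).self_of_nhds
      have e4 := (Fn_const (-1) hzO).self_of_nhds
      have e5 := (Fn_mul hzO ((hr0 i z hz).MD hzO) (hr1 i z hz)).self_of_nhds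
      have e6 := (Fn_MD hzO (hr0 i z hz)).self_of_nhds
      have e7 := (Fn_MD hzO (hr1 i z hz)).self_of_nhds
      simp only at e1 e2 e3 e4 e5
      rw [e1, e2, e3, e4, e5, e6, e7]
      have h2 := hcon z hz
      change U i 0 z * deriv (U i 1) z - deriv (U i 0) z * U i 1 z = 0 at h2
      rw [hU0, hU1] at h2
      linear_combination h2
    have h2 : e i * MD (e i * x i) - MD (e i) * (e i * x i) = e i ^ 2 * MD (x i) := by
      rw [MD_mul]
      ring
    rw [h2] at h1
    exact (mul_eq_zero.1 h1).resolve_left (pow_ne_zero 2 (hN i).ne)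
  -- the index set
  have hq0 : ∀ i : ι, 0 < q i := fun i => by have := hp i; exact lt_of_lt_of_le (by norm_num) this
  obtain ⟨m, ⟨E⟩⟩ : ∃ m, Nonempty (Fin (m + 1) ≃ (∀ i, Fin (q i))) := by
    have hpos : 0 < Fintype.card (∀ i, Fin (q i)) :=
      Fintype.card_pos_iff.2 ⟨fun i => ⟨0, hq0 i⟩⟩
    refine ⟨Fintype.card (∀ i, Fin (q i)) - 1, ⟨?_⟩⟩
    have h1 : Fintype.card (∀ i, Fin (q i)) - 1 + 1 = Fintype.card (∀ i, Fin (q i)) := by omega
    exact (finCongr h1).trans (Fintype.equivFin _).symm
  have hquot := hh_mero (r0 := 2) two_pos (a := a') (α := fun i : ι => α i)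
    (β := fun i : ι => β i) (f := f) (g := g) (fun i => ha i) (fun i => hp i)
    (fun i => hαβ i) hS hW E
  -- the normalised family
  let J0 : ∀ i, Fin (q i) := E 0
  let H : Fin (m + 1) → MK := fun t => ∏ i : ι, (e i * (x i - algebraMap ℂ MK (a i (E t i))))
  have hH0 : ∀ t, H t ≠ 0 := fun t => Finset.prod_ne_zero_iff.2 fun i _ =>
    mul_ne_zero (hN i).ne (hxa i _)
  have hHF : ∀ t, ∀ z ∈ Ext 2, Reg (H t) z ∧ Fn (H t) z = HH E a' f g t z := by
    intro t z hz
    have hzO := h2O z hz
    have key : ∀ s : Finset ι, Reg (∏ i ∈ s, (e i * (x i - algebraMap ℂ MK (a i (E t i))))) z ∧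
        Fn (∏ i ∈ s, (e i * (x i - algebraMap ℂ MK (a i (E t i))))) z =
          ∏ i ∈ s, ell a' f g i (E t i) z := by
      intro s
      induction s using Finset.induction_on with
      | empty =>
        rw [Finset.prod_empty, Finset.prod_empty]
        have h1 := Fn_const 1 hzO
        have h2 := reg_const 1 hzO
        rw [map_one] at h1 h2
        exact ⟨h2, h1.self_of_nhds⟩
      | insert b s hb ih =>
        rw [Finset.prod_insert hb, Finset.prod_insert hb]
        have h1 := (hlin b (a b (E t b)) z hz).1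
        refine ⟨h1.mul ih.1 hzO, ?_⟩
        have h2 := (Fn_mul hzO h1 ih.1).self_of_nhds
        simp only at h2
        rw [h2, ih.2, (hell b (E t b) z hz).self_of_nhds]
    exact key Finset.univ
  have hnrm : Nrm (p := m) (fun t => H t / H 0) (H 0) (fun t => Fn (H 0 * (H t / H 0))) := by
    have h1 : ∀ t, H 0 * (H t / H 0) = H t := fun t => mul_div_cancel₀ _ (hH0 0)
    refine ⟨hH0 0, fun t => rfl, fun t z hz => ?_, fun z hz => ?_⟩
    · rw [h1]
      exact (hHF t z hz).1
    · simp only [h1]
      have h2 : ∀ i : ι, ∃ j : Fin (q i), ell a' f g i j z ≠ 0 := by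
        intro i
        by_contra hcon
        push Not at hcon
        have h3 : (3 : ℕ) ≤ q i := hp i
        have h4 := hcon ⟨0, by omega⟩
        have h5 := hcon ⟨1, by omega⟩
        have hd : a' i ⟨0, by omega⟩ - a' i ⟨1, by omega⟩ ≠ 0 := by
          refine sub_ne_zero.2 fun h => ?_
          have := ha i h
          simp [Fin.ext_iff] at this
        unfold Pool.Agent.H583_GP.ell at h4 h5
        have h6 : (a' i ⟨0, by omega⟩ - a' i ⟨1, by omega⟩) * f i z = 0 := by
          linear_combination h5 - h4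
        have h7 : f i z = 0 := (mul_eq_zero.1 h6).resolve_left hd
        have h8 : g i z = 0 := by linear_combination h4 + a' i ⟨0, by omega⟩ * h7
        exact (hS.nz i z hz).elim (fun h => h h7) fun h => h h8
      choose J hJ using h2
      refine ⟨E.symm J, ?_⟩
      rw [(hHF _ z hz).2]
      unfold HH
      rw [E.apply_symm_apply]
      exact Finset.prod_ne_zero_iff.2 fun i _ => hJ i
  have hMI : ∀ t, MInf (H t / H 0) := by
    refine minf_of_quot (i0 := 0) hnrm (fun t => div_ne_zero (hH0 t) (hH0 0)) (div_self (hH0 0))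
      fun t => ?_
    obtain ⟨R, hR, R0, hRR⟩ := hquot t
    refine ⟨R, hR, max R0 2, fun z hz => ?_⟩
    have h1 : ∀ t, H 0 * (H t / H 0) = H t := fun t => mul_div_cancel₀ _ (hH0 0)
    have hz2 : z ∈ Ext 2 := lt_of_le_of_lt (le_max_right _ _) hz
    simp only [h1]
    rw [(hHF t z hz2).2, (hHF 0 z hz2).2]
    exact hRR z (lt_of_le_of_lt (le_max_left _ _) hz)
  -- two values
  let i' : ι := ⟨i, hcon⟩
  have h3 : (3 : ℕ) ≤ p i := hp i
  let j0 : Fin (p i) := ⟨0, by omega⟩
  let j1 : Fin (p i) := ⟨1, by omega⟩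
  have hj : a i j0 ≠ a i j1 := fun h => by
    have := ha i h
    simp [j0, j1, Fin.ext_iff] at this
  obtain ⟨J, hJ⟩ := exists_J hq0 i' j0
  have hq : (H (E.symm (Function.update J i' j1)) / H 0) / (H (E.symm J) / H 0) =
      (x i - algebraMap ℂ MK (a i j1)) / (x i - algebraMap ℂ MK (a i j0)) := by
    rw [div_div_div_cancel_right₀ (hH0 0)]
    simp only [H]
    rw [E.apply_symm_apply, E.apply_symm_apply, ← Finset.prod_div_distrib,
      Finset.prod_eq_single i']
    · rw [Function.update_self, hJ, mul_div_mul_left _ _ (hN i).ne]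
    · intro b _ hne'
      rw [Function.update_of_ne hne', div_self (mul_ne_zero (hN b).ne (hxa b _))]
    · intro h
      exact absurd (Finset.mem_univ _) h
  have hy : MInf ((x i - algebraMap ℂ MK (a i j1)) / (x i - algebraMap ℂ MK (a i j0))) := by
    rw [← hq]
    exact (hMI _).mul (hMI _).inv
  -- the Moebius transformation
  obtain ⟨Y, hYd⟩ : ∃ Y, Y = (x i - algebraMap ℂ MK (a i j1)) / (x i - algebraMap ℂ MK (a i j0)) :=
    ⟨_, rfl⟩
  rw [← hYd] at hy
  have hYe : Y * (x i - algebraMap ℂ MK (a i j0)) = x i - algebraMap ℂ MK (a i j1) := by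
    rw [hYd, div_mul_cancel₀ _ (hxa i j0)]
  have hY1 : Y - 1 ≠ 0 := by
    intro h
    rw [sub_eq_zero.1 h, one_mul] at hYe
    have h4 : algebraMap ℂ MK (a i j0) = algebraMap ℂ MK (a i j1) := by
      linear_combination -hYe
    exact hj ((algebraMap ℂ MK).injective h4)
  have hxe : x i = (Y * algebraMap ℂ MK (a i j0) - algebraMap ℂ MK (a i j1)) / (Y - 1) := by
    rw [eq_div_iff hY1]
    linear_combination hYe
  have hfin : x i ∈ MI := by
    rw [hxe]
    have hYM : Y ∈ MI := hy
    exact div_mem (sub_mem (mul_mem hYM (MI.algebraMap_mem _)) (MI.algebraMap_mem _))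
      (sub_mem hYM (one_mem _))
  exact hfin

end Pool.Agent.H583_GQ
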