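import Pool.Agent.H583_GQ.Spec
import Pool.Agent.H583_GP.Main

/-!
Every cover has a projective model in which the union of given fibres is a closed set.
-/

set_option autoImplicit false
set_option linter.overlappingInstances false
set_option linter.unusedSectionVars false

open FF IntermediateField Filter Pool.Agent.W602.GT Pool.Agent.TH466.QG

namespace Pool.Agent.H583_GQ

open Pool.Agent.H583_GP (Branch coords_cons)

variable {N : ℕ} {p : Fin N → ℕ} {a : ∀ i, Fin (p i) → ℂ} {L : Type} [Field L] [Algebra ℂ L]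

/-- the product of the differences -/
noncomputable def dfs (a : ∀ i, Fin (p i) → ℂ) (O : ∀ i, Finset (Fin (p i))) {E : Type} [Field E]
    [Algebra ℂ E] (x : Fin N → E) (i : Fin N) : E :=
  ∏ j ∈ O i, (x i - algebraMap ℂ E (a i j))

theorem dfs_ne {O : ∀ i, Finset (Fin (p i))} {E : Type} [Field E] [Algebra ℂ E] {x : Fin N → E}
    (hne : ∀ i j, x i ≠ algebraMap ℂ E (a i j)) (i : Fin N) : dfs a O x i ≠ 0 :=
  Finset.prod_ne_zero_iff.2 fun j _ => sub_ne_zero.2 (hne i j)

theorem dfs_neg {O : ∀ i, Finset (Fin (p i))} {E : Type} [Field E] [Algebra ℂ E] {x : Fin N → E}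
    (hne : ∀ i j, x i ≠ algebraMap ℂ E (a i j)) (P : Place ℂ E) (i : Fin N)
    (h : ∀ j ∈ O i, ¬ 0 < P.ord (x i - algebraMap ℂ E (a i j))) : P.ord (dfs a O x i) ≤ 0 := by
  unfold dfs
  rw [ord_prod' P _ _ fun j _ => sub_ne_zero.2 (hne i j)]
  exact Finset.sum_nonpos fun j hj => not_lt.1 (h j hj)

theorem dfs_pos {O : ∀ i, Finset (Fin (p i))} {E : Type} [Field E] [Algebra ℂ E] {x : Fin N → E}
    (hne : ∀ i j, x i ≠ algebraMap ℂ E (a i j)) (P : Place ℂ E) (i : Fin N) {j : Fin (p i)}
    (hj : j ∈ O i) (h : 0 < P.ord (x i - algebraMap ℂ E (a i j))) : 0 < P.ord (dfs a O x i) := by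
  unfold dfs
  rw [ord_prod' P _ _ fun j _ => sub_ne_zero.2 (hne i j)]
  obtain ⟨l, hl⟩ := mult_cases P hne
  rcases hl i with ⟨-, -, h1⟩ | ⟨h0, -, -, -, h1⟩
  · refine Finset.sum_pos' (fun j' _ => ?_) ⟨j, hj, h⟩
    rw [h1]
    exact Int.natCast_nonneg _
  · rw [(h1 _).2] at h
    omega

/-- **Models.** -/
theorem exists_model {M0 : ℕ} {y0 : Fin (M0 + 1) → L} (hy0 : y0 ≠ 0) (hgen0 : coords ℂ y0 = ⊤)
    {x : Fin N → L} (hne : ∀ i j, x i ≠ algebraMap ℂ L (a i j)) (O : ∀ i, Set (Fin (p i))) :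
    ∃ (M : ℕ) (y : Fin (M + 1) → L) (D : Set (MvPolynomial (Fin (M + 1)) ℂ)), y ≠ 0 ∧
      coords ℂ y = ⊤ ∧ ¬ In D y ∧ Fibres a y D x O := by
  classical
  let J : ∀ i, Finset (Fin (p i)) := fun i => (O i).toFinset
  have hJ : ∀ i j, j ∈ J i ↔ j ∈ O i := fun i j => Set.mem_toFinset
  let e : Fin (M0 + 1) × Fin (N + 1) ≃ Fin ((M0 + 1) * N + M0 + 1) := finProdFinEquiv
  let f : Fin (N + 1) → L := Fin.cons 1 fun i => (dfs a J x i)⁻¹
  have hf0 : f 0 = 1 := rfl
  have hfs : ∀ i : Fin N, f i.succ = (dfs a J x i)⁻¹ := fun i => rfl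
  refine ⟨(M0 + 1) * N + M0, fun k => y0 (e.symm k).1 * f (e.symm k).2,
    {G | ∃ m, G = MvPolynomial.X (e (m, 0))}, ?_, ?_, ?_, ?_⟩
  · obtain ⟨m, hm⟩ := Function.ne_iff.1 hy0
    refine Function.ne_iff.2 ⟨e (m, 0), ?_⟩
    simp only [Equiv.symm_apply_apply, hf0, mul_one]
    exact hm
  · rw [eq_top_iff, ← hgen0]
    unfold Pool.Agent.W602.GT.coords
    rw [IntermediateField.adjoin_le_iff]
    rintro _ ⟨m, m', hm', rfl⟩
    refine IntermediateField.subset_adjoin ℂ _ ⟨e (m, 0), e (m', 0), ?_, ?_⟩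
    · simp only [Equiv.symm_apply_apply, hf0, mul_one]
      exact hm'
    · simp only [Equiv.symm_apply_apply, hf0, mul_one]
  · intro h
    obtain ⟨m, hm⟩ := Function.ne_iff.1 hy0
    apply hm
    have h1 := h (MvPolynomial.X (e (m, 0))) ⟨m, rfl⟩ ⟨1, MvPolynomial.isHomogeneous_X ℂ _⟩
    unfold Pool.Agent.W602.GT.val at h1
    rw [MvPolynomial.aeval_X] at h1
    simp only [Equiv.symm_apply_apply, hf0, mul_one] at h1
    exact h1
  · intro E _ _ z x' hz hv hne' P
    have hX : ∀ k, val z (MvPolynomial.X k : MvPolynomial _ ℂ) = z k := fun k =>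
      MvPolynomial.aeval_X _ _
    -- the coordinates of `z`
    have hkey : ∀ m (i : Fin N), z (e (m, i.succ)) = (dfs a J x' i)⁻¹ * z (e (m, 0)) := by
      intro m i
      obtain ⟨d, A, B, hA, hB, hBz, h1, h2⟩ := hv i
      have hval : ∀ (K : Type) [Field K] [Algebra ℂ K] (u : Fin ((M0 + 1) * N + M0 + 1) → K)
          (t : K), t * val u B = val u A →
          val u (MvPolynomial.X (e (m, i.succ)) *
            ∏ j ∈ J i, (A - MvPolynomial.C (a i j) * B) -
              MvPolynomial.X (e (m, 0)) * B ^ (J i).card) =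
            (u (e (m, i.succ)) * ∏ j ∈ J i, (t - algebraMap ℂ K (a i j)) - u (e (m, 0))) *
              val u B ^ (J i).card := by
        intro K _ _ u t ht
        change MvPolynomial.aeval u _ = _
        rw [map_sub, map_mul, map_mul, map_prod, map_pow, MvPolynomial.aeval_X,
          MvPolynomial.aeval_X]
        have h3 : ∏ j ∈ J i, MvPolynomial.aeval u (A - MvPolynomial.C (a i j) * B) =
            (∏ j ∈ J i, (t - algebraMap ℂ K (a i j))) * val u B ^ (J i).card := by
          rw [← Finset.prod_const, ← Finset.prod_mul_distrib]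
          refine Finset.prod_congr rfl fun j _ => ?_
          rw [map_sub, map_mul, MvPolynomial.aeval_C]
          change val u A - _ * val u B = _
          rw [← ht]
          ring
        rw [h3]
        change _ - _ * val u B ^ _ = _
        ring
      have hform : IsForm (MvPolynomial.X (e (m, i.succ)) *
            ∏ j ∈ J i, (A - MvPolynomial.C (a i j) * B) -
              MvPolynomial.X (e (m, 0)) * B ^ (J i).card) := by
        refine ⟨1 + d * (J i).card, ?_⟩
        refine MvPolynomial.IsHomogeneous.sub ?_ ?_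
        · refine (MvPolynomial.isHomogeneous_X ℂ _).mul ?_
          have h3 := MvPolynomial.IsHomogeneous.prod (J i)
            (fun j => A - MvPolynomial.C (a i j) * B) (fun _ => d) fun j _ => by
              have h4 := (MvPolynomial.isHomogeneous_C (Fin ((M0 + 1) * N + M0 + 1))
                (a i j)).mul hB
              rw [zero_add] at h4
              exact hA.sub h4
          rwa [Finset.sum_const, smul_eq_mul, mul_comm (J i).card d] at h3
        · exact (MvPolynomial.isHomogeneous_X ℂ _).mul (hB.pow _)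
      have h0 := hz.2 _ hform (by
        rw [hval L _ (x i) h1]
        simp only [Equiv.symm_apply_apply, hf0, hfs, mul_one]
        have h5 : ∏ j ∈ J i, (x i - algebraMap ℂ L (a i j)) = dfs a J x i := rfl
        rw [h5, mul_assoc, inv_mul_cancel₀ (dfs_ne hne i), mul_one, sub_self, zero_mul])
      rw [hval E z (x' i) h2] at h0
      have h6 : ∏ j ∈ J i, (x' i - algebraMap ℂ E (a i j)) = dfs a J x' i := rfl
      have h7 := (mul_eq_zero.1 h0).resolve_right (pow_ne_zero _ hBz)
      rw [h6] at h7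
      have h8 := dfs_ne (O := J) hne' i
      rw [eq_inv_mul_iff_mul_eq₀ h8]
      linear_combination h7
    have hcoord : ∀ k, ∃ m o, k = e (m, o) := fun k =>
      ⟨(e.symm k).1, (e.symm k).2, by rw [Prod.mk.eta, Equiv.apply_symm_apply]⟩
    constructor
    · intro hc
      by_contra hcon
      push Not at hcon
      have hcon' : ∀ i, P.ord (dfs a J x' i) ≤ 0 := fun i =>
        dfs_neg hne' P i fun j hj h => absurd (hcon i j ((hJ i j).1 hj)) (not_le.2 h)
      obtain ⟨m1, hm1⟩ : ∃ m, z (e (m, 0)) ≠ 0 := by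
        obtain ⟨k, hk⟩ := Function.ne_iff.1 hz.1
        obtain ⟨m, o, rfl⟩ := hcoord k
        refine ⟨m, fun h0 => hk ?_⟩
        revert hk
        refine Fin.cases (fun _ => h0) (fun i _ => ?_) o
        rw [hkey, h0, mul_zero]
        rfl
      obtain ⟨m0, hm0, hmin⟩ := Finset.exists_min_image
        (Finset.univ.filter fun m => z (e (m, 0)) ≠ 0) (fun m => P.ord (z (e (m, 0))))
        ⟨m1, by simpa using hm1⟩
      have hm0' : z (e (m0, 0)) ≠ 0 := by simpa using hm0
      rcases hc (MvPolynomial.X (e (m0, 0))) ⟨m0, rfl⟩ 1 (MvPolynomial.isHomogeneous_X ℂ _) with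
        h1 | ⟨k, hk, h1⟩
      · rw [hX] at h1
        exact hm0' h1
      · rw [hX] at h1
        obtain ⟨m, o, rfl⟩ := hcoord k
        revert hk h1
        refine Fin.cases (fun hk h1 => ?_) (fun i hk h1 => ?_) o
        · have h2 := hmin m (by simpa using hk)
          push_cast at h1
          linarith
        · have hm : z (e (m, 0)) ≠ 0 := fun h0 => hk (by rw [hkey, h0, mul_zero])
          have h2 := hmin m (by simpa using hm)
          rw [hkey, P.ord_mul (inv_ne_zero (dfs_ne hne' i)) hm, P.ord_inv] at h1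
          have h3 := hcon' i
          push_cast at h1
          linarith
    · rintro ⟨i, j, hj, hij⟩ G ⟨m, rfl⟩ d hd
      have hd1 : d = 1 := hd.inj_right (MvPolynomial.isHomogeneous_X ℂ _)
        (MvPolynomial.X_ne_zero _)
      subst hd1
      rw [hX]
      by_cases h0 : z (e (m, 0)) = 0
      · exact Or.inl h0
      · refine Or.inr ⟨e (m, i.succ), ?_, ?_⟩
        · rw [hkey]
          exact mul_ne_zero (inv_ne_zero (dfs_ne hne' i)) h0
        · rw [hkey, P.ord_mul (inv_ne_zero (dfs_ne hne' i)) h0, P.ord_inv]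
          have h1 := dfs_pos hne' P i ((hJ i j).2 hj) hij
          push_cast
          linarith

/-- **Models of the covers.** -/
theorem cover_model {r : ℕ} {B : Branch N r} {x : Fin N → L} {w : Fin r → L} (hC : B.Cover x w)
    (O : ∀ i, Set (Fin (B.p i))) :
    ∃ (M : ℕ) (y : Fin (M + 1) → L) (D : Set (MvPolynomial (Fin (M + 1)) ℂ)), y ≠ 0 ∧
      coords ℂ y = ⊤ ∧ ¬ In D y ∧ Fibres B.a y D x O := by
  refine exists_model (M0 := N + r) (y0 := Fin.cons 1 (Fin.append x w)) ?_ ?_ hC.map.ne O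
  · intro h
    have := congrFun h 0
    simp at this
  · rw [coords_cons, ← hC.gen]
    congr 1
    ext g
    constructor
    · rintro ⟨k, rfl⟩
      refine Fin.addCases (fun i => ?_) (fun l => ?_) k
      · rw [Fin.append_left]
        exact Or.inl ⟨i, rfl⟩
      · rw [Fin.append_right]
        exact Or.inr ⟨l, rfl⟩
    · rintro (⟨i, rfl⟩ | ⟨l, rfl⟩)
      · exact ⟨Fin.castAdd r i, Fin.append_left _ _ _⟩
      · exact ⟨Fin.natAdd N l, Fin.append_right _ _ _⟩

end Pool.Agent.H583_GQ
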