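import Pool.Agent.H583_GP.Rul
import Pool.Agent.H583_GQ.Defs
import Pool.Agent.W602.GT.NG

/-!
The covers with at most two branch points on one of the lines are not of logarithmic general type.
-/

set_option autoImplicit false

open FF IntermediateField Pool.Agent.W602.GT

namespace Pool.Agent.H583_GQ

open Pool.Agent.H583_GP (Branch)

variable {N r : ℕ} {B : Branch N r} {L : Type} [Field L] [Algebra ℂ L]

/-- `t` is a coordinate of the line with the coordinate `X` which has its zeros and poles in points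
which contain all points `a j`. -/
def Rel {q : ℕ} (a : Fin q → ℂ) (b0 b1 : ℂ) {E : Type} [Field E] [Algebra ℂ E] (X t : E) : Prop :=
  (t = X - algebraMap ℂ E b0 ∧ ∀ j, a j = b0) ∨
    (b0 ≠ b1 ∧ t * (X - algebraMap ℂ E b1) = X - algebraMap ℂ E b0 ∧ ∀ j, a j = b0 ∨ a j = b1)

/-- the derivation `σ d/dσ` -/
theorem exists_sigma {k K : Type} [Field k] [Field K] [Algebra k K] [CharZero k] {σ : K}
    (hσ : Transcendental k σ) (h : k⟮σ⟯ = ⊤) : ∃ δ : Derivation k K K, δ σ = σ := by
  have hb : IsTranscendenceBasis k (fun _ : Unit => σ) := by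
    have h1 : AlgebraicIndependent k (fun _ : Unit => σ) :=
      (algebraicIndependent_unique_type_iff).2 hσ
    rw [h1.isTranscendenceBasis_iff_isAlgebraic]
    apply alg_adjoin
    have h2 : Set.range (fun _ : Unit => σ) = {σ} := by simp
    rw [h2, h]
    infer_instance
  obtain ⟨D, hD⟩ := Pool.Agent.W602.GT.exists_der (fun _ : Unit => σ) hb (fun _ => σ)
  exact ⟨D, hD ()⟩

/-- a line with at most two branch points -/
private theorem one_line' {L : Type} [Field L] [Algebra ℂ L] {X : L} (hX : Transcendental ℂ X)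
    {q : ℕ} (hq : q ≤ 2) (a : Fin q → ℂ) (ha : Function.Injective a) {r : ℕ} (m : Fin r → ℕ)
    (e : Fin r → Fin q → ℤ) (he : ∀ l, (m l : ℤ) ∣ ∑ j, e l j) :
    ∃ (t : L) (u : Fin r → L) (n : Fin r → ℤ) (b0 b1 : ℂ), t ≠ 0 ∧ (∀ l, u l ≠ 0) ∧
      (∀ l, ∏ j, (X - algebraMap ℂ L (a j)) ^ e l j = t ^ n l * u l ^ m l) ∧
      (∀ S : IntermediateField ℂ L, t ∈ S → X ∈ S ∧ ∀ l, u l ∈ S) ∧ Rel a b0 b1 X t := by
  have hXc : ∀ c : ℂ, X - algebraMap ℂ L c ≠ 0 := by
    intro c h
    rw [sub_eq_zero.1 h] at hX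
    exact hX (isAlgebraic_algebraMap c)
  have hX0 : X ≠ 0 := by
    have := hXc 0
    rwa [map_zero, sub_zero] at this
  choose c hc using he
  obtain rfl | rfl | rfl : q = 0 ∨ q = 1 ∨ q = 2 := by omega
  · refine ⟨X, fun _ => 1, fun _ => 0, 0, 0, hX0, fun _ => one_ne_zero, fun l => ?_, fun S hS =>
      ⟨hS, fun _ => one_mem S⟩, Or.inl ⟨?_, fun j => j.elim0⟩⟩
    · simp
    · rw [map_zero, sub_zero]
  · refine ⟨X - algebraMap ℂ L (a 0), fun l => (X - algebraMap ℂ L (a 0)) ^ c l, fun _ => 0, a 0, 0,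
      hXc _, fun l => zpow_ne_zero _ (hXc _), fun l => ?_, fun S hS => ⟨?_, fun l => ?_⟩,
      Or.inl ⟨rfl, fun j => by rw [Subsingleton.elim j 0]⟩⟩
    · have h1 := hc l
      rw [Fin.sum_univ_one] at h1
      rw [Fin.prod_univ_one, zpow_zero, one_mul, h1, mul_comm, zpow_mul, zpow_natCast]
    · have h1 := add_mem hS (S.algebraMap_mem (a 0))
      rwa [sub_add_cancel] at h1
    · exact zpow_mem hS _
  · have h01 : a 0 - a 1 ≠ 0 := sub_ne_zero.2 fun h => absurd (ha h) (by decide)
    set A : L := X - algebraMap ℂ L (a 0) with hA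
    set A' : L := X - algebraMap ℂ L (a 1) with hA'
    have hA0 : A ≠ 0 := hXc _
    have hA1 : A' ≠ 0 := hXc _
    refine ⟨A / A', fun l => A' ^ c l, fun l => e l 0, a 0, a 1, div_ne_zero hA0 hA1,
      fun l => zpow_ne_zero _ hA1, fun l => ?_, fun S hS => ?_,
      Or.inr ⟨sub_ne_zero.1 h01, div_mul_cancel₀ _ hA1, fun j => ?_⟩⟩
    · have h1 := hc l
      rw [Fin.sum_univ_two] at h1
      rw [Fin.prod_univ_two, ← zpow_natCast, ← zpow_mul, mul_comm (c l), ← h1, div_zpow,
        zpow_add₀ hA1]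
      have h2 : A' ^ e l 0 ≠ 0 := zpow_ne_zero _ hA1
      field_simp
      rfl
    · have h3 : X ∈ S := by
        have h4 : (1 : L) - A / A' ≠ 0 := by
          intro h
          have h5 : A' = A := by
            field_simp at h
            linear_combination h
          have h6 : algebraMap ℂ L (a 0 - a 1) = 0 := by
            rw [map_sub]
            rw [hA, hA'] at h5
            linear_combination h5
          exact h01 ((map_eq_zero _).1 h6)
        have h5 : X = (algebraMap ℂ L (a 0) - algebraMap ℂ L (a 1) * (A / A')) / (1 - A / A') := by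
          rw [eq_div_iff h4]
          field_simp
          rw [hA, hA']
          ring
        rw [h5]
        exact div_mem (sub_mem (S.algebraMap_mem _) (mul_mem (S.algebraMap_mem _) hS))
          (sub_mem (one_mem S) hS)
      exact ⟨h3, fun l => zpow_mem (sub_mem h3 (S.algebraMap_mem _)) _⟩
    · fin_cases j
      · exact Or.inl rfl
      · exact Or.inr rfl

/-- monomials -/
private noncomputable def mono {L : Type} [Field L] {r : ℕ} (t : L) (v : Fin r → L)
    (p : ℤ × (Fin r → ℤ)) : L := t ^ p.1 * ∏ l, v l ^ p.2 l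

section mono

variable {L : Type} [Field L] {r : ℕ} {t : L} {v : Fin r → L}

private theorem mono_ne (ht : t ≠ 0) (hv : ∀ l, v l ≠ 0) (p : ℤ × (Fin r → ℤ)) : mono t v p ≠ 0 :=
  mul_ne_zero (zpow_ne_zero _ ht) (Finset.prod_ne_zero_iff.2 fun l _ => zpow_ne_zero _ (hv l))

private theorem mono_add (ht : t ≠ 0) (hv : ∀ l, v l ≠ 0) (p q : ℤ × (Fin r → ℤ)) :
    mono t v (p + q) = mono t v p * mono t v q := by
  unfold mono
  rw [Prod.fst_add, Prod.snd_add, zpow_add₀ ht]
  have h1 : ∏ l, v l ^ (p.2 + q.2) l = (∏ l, v l ^ p.2 l) * ∏ l, v l ^ q.2 l := by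
    rw [← Finset.prod_mul_distrib]
    exact Finset.prod_congr rfl fun l _ => by rw [Pi.add_apply, zpow_add₀ (hv l)]
  rw [h1]
  ring

private theorem mono_smul (k : ℤ) (p : ℤ × (Fin r → ℤ)) : mono t v (k • p) = mono t v p ^ k := by
  unfold mono
  rw [Prod.smul_fst, Prod.smul_snd, mul_zpow, ← Finset.prod_zpow, smul_eq_mul, mul_comm k, zpow_mul]
  congr 1
  exact Finset.prod_congr rfl fun l _ => by rw [Pi.smul_apply, smul_eq_mul, mul_comm k, zpow_mul]

end mono

open IntermediateField.algebraAdjoinAdjoin in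
private theorem alg_elt {k K : Type} [Field k] [Field K] [Algebra k K] {S : Set K} {z : K}
    (h : IsAlgebraic (IntermediateField.adjoin k S) z) : IsAlgebraic (Algebra.adjoin k S) z :=
  (IsFractionRing.isAlgebraic_iff (Algebra.adjoin k S) (IntermediateField.adjoin k S) K).2 h

/-- TARGET 1. Proof: this is a refinement of `Pool.Agent.H583_GP.ruled` (file H583_GP/Rul.lean); copy
its proof. In `one_line` take `t = X - a 0` in the case `q = 1` (the proof for `q = 1` is unchanged:
the exponents `n l` are 0) and `t = X` for `q = 0` (with `b0 = 0`), `t = (X - a 0) / (X - a 1)` for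
`q = 2`; so `Rel` holds. In the proof of `ruled`, `x i ∈ C` for `i ≠ i0` by the definition of `C`, and
`hmono (1, 0)` gives `t = y * σ ^ k` with `y ∈ C`. If `k = 0` then `t ∈ C`, hence `x i0 ∈ C` (by the
last property in `one_line`), and `C` is algebraic over `A = ℂ(x i, i ≠ i0)` (`hCA` in that proof), so
`x i0` would be algebraic over `A`, contradicting the algebraic independence of the `x i` (last line
of that proof). -/
theorem cover_gm {x : Fin N → L} {w : Fin r → L} (hC : B.Cover x w) {i0 : Fin N}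
    (hi0 : B.p i0 ≤ 2) : ∃ (C : IntermediateField ℂ L) (σ t y : L) (k : ℤ) (b0 b1 : ℂ),
      Transcendental C σ ∧ C⟮σ⟯ = ⊤ ∧ (∀ i, i ≠ i0 → x i ∈ C) ∧ y ∈ C ∧ k ≠ 0 ∧ t ≠ 0 ∧
      t = y * σ ^ k ∧ Rel (B.a i0) b0 b1 (x i0) t := by
  classical
  obtain ⟨hind, heqn, hgen⟩ := hC
  have htr : ∀ i, Transcendental ℂ (x i) := fun i => hind.transcendental i
  have hxa : ∀ i j, x i - algebraMap ℂ L (B.a i j) ≠ 0 := by
    intro i j h
    have := htr i
    rw [sub_eq_zero.1 h] at this
    exact this (isAlgebraic_algebraMap _)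
  obtain ⟨t, u, n, b0, b1, ht, hu, htu, hmem, hRel⟩ := one_line' (htr i0) hi0 (B.a i0) (B.inj i0) B.m
    (fun l => B.e l i0) (fun l => B.inf l i0)
  set h : Fin r → L := fun l => ∏ i ∈ Finset.univ.erase i0,
    ∏ j, (x i - algebraMap ℂ L (B.a i j)) ^ B.e l i j with hh
  have hh0 : ∀ l, h l ≠ 0 := fun l => Finset.prod_ne_zero_iff.2 fun i _ =>
    Finset.prod_ne_zero_iff.2 fun j _ => zpow_ne_zero _ (hxa i j)
  have heq : ∀ l, w l ^ B.m l = t ^ n l * u l ^ B.m l * h l := by
    intro l
    rw [heqn, ← Finset.mul_prod_erase Finset.univ _ (Finset.mem_univ i0), htu l]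
  have hw0 : ∀ l, w l ≠ 0 := by
    intro l h0
    have h1 := heq l
    rw [h0, zero_pow (B.pos l).ne'] at h1
    exact (mul_ne_zero (mul_ne_zero (zpow_ne_zero _ ht) (pow_ne_zero _ (hu l))) (hh0 l)) h1.symm
  set v : Fin r → L := fun l => w l / u l with hv
  have hv0 : ∀ l, v l ≠ 0 := fun l => div_ne_zero (hw0 l) (hu l)
  have hveq : ∀ l, v l ^ B.m l = t ^ n l * h l := by
    intro l
    have h1 := pow_ne_zero (B.m l) (hu l)
    rw [hv]
    simp only
    rw [div_pow, heq]
    field_simp
  -- the weights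
  set mh : ℕ := ∏ l, B.m l with hmh
  have hmh0 : 0 < mh := Finset.prod_pos fun l _ => B.pos l
  have hdiv : ∀ l, ∃ c : ℕ, mh = B.m l * c := fun l => Finset.dvd_prod_of_mem _ (Finset.mem_univ l)
  choose c hc using hdiv
  let wt : (ℤ × (Fin r → ℤ)) →ₗ[ℤ] ℤ :=
    { toFun := fun p => p.1 * mh + ∑ l, p.2 l * (n l * c l)
      map_add' := by
        intro p q
        rw [Prod.fst_add, Prod.snd_add]
        simp only [Pi.add_apply, add_mul, Finset.sum_add_distrib]
        ring
      map_smul' := by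
        intro k p
        simp only [Prod.smul_fst, Prod.smul_snd, Pi.smul_apply, smul_eq_mul, RingHom.id_apply,
          mul_add, Finset.mul_sum]
        congr 1
        · ring
        · exact Finset.sum_congr rfl fun l _ => by ring }
  have hwt : ∀ p, wt p = p.1 * mh + ∑ l, p.2 l * (n l * c l) := fun p => rfl
  obtain ⟨g, hg⟩ := (IsPrincipalIdealRing.principal (LinearMap.range wt)).principal
  obtain ⟨p0, hp0⟩ : ∃ p0, wt p0 = g := by
    have : g ∈ LinearMap.range wt := by
      rw [hg]
      exact Submodule.mem_span_singleton_self g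
    exact this
  have hdvd : ∀ p, ∃ k : ℤ, wt p = k * g := by
    intro p
    have h1 : wt p ∈ LinearMap.range wt := ⟨p, rfl⟩
    rw [hg, Submodule.mem_span_singleton] at h1
    obtain ⟨k, hk⟩ := h1
    exact ⟨k, by rw [← hk, smul_eq_mul]⟩
  set C : IntermediateField ℂ L := IntermediateField.adjoin ℂ
    ((x '' {i | i ≠ i0}) ∪ {y | ∃ p, wt p = 0 ∧ y = mono t v p}) with hCdef
  set σ : L := mono t v p0 with hσ
  have hσ0 : σ ≠ 0 := mono_ne ht hv0 _
  have hmono : ∀ p, ∃ y ∈ C, ∃ k : ℤ, mono t v p = y * σ ^ k := by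
    intro p
    obtain ⟨k, hk⟩ := hdvd p
    refine ⟨mono t v (p + (-k) • p0), IntermediateField.subset_adjoin ℂ _ (Or.inr ⟨_, ?_, rfl⟩), k, ?_⟩
    · rw [map_add, map_smul, hk, hp0, smul_eq_mul]
      ring
    · rw [mono_add ht hv0, mono_smul, mul_assoc, ← zpow_add₀ hσ0, neg_add_cancel, zpow_zero, mul_one]
  have htop : IntermediateField.adjoin C {σ} = ⊤ := by
    set F := (IntermediateField.adjoin C {σ}).restrictScalars ℂ with hF
    have hCF : ∀ y ∈ C, y ∈ F := by
      intro y hy
      exact (IntermediateField.adjoin C {σ}).algebraMap_mem (⟨y, hy⟩ : C)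
    have hσF : σ ∈ F := IntermediateField.mem_adjoin_simple_self C σ
    have hmF : ∀ p, mono t v p ∈ F := by
      intro p
      obtain ⟨y, hy, k, hk⟩ := hmono p
      rw [hk]
      exact mul_mem (hCF y hy) (zpow_mem hσF k)
    have htF : t ∈ F := by
      have h1 := hmF (1, 0)
      simpa [mono] using h1
    have h2 := hmem F htF
    have hFtop : F = ⊤ := by
      rw [eq_top_iff, ← hgen, IntermediateField.adjoin_le_iff]
      rintro y (⟨i, rfl⟩ | ⟨l, rfl⟩)
      · by_cases hi : i = i0
        · rw [hi]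
          exact h2.1
        · exact hCF _ (IntermediateField.subset_adjoin ℂ _ (Or.inl ⟨i, hi, rfl⟩))
      · have h3 : v l ∈ F := by
          have h4 := hmF (0, Pi.single l 1)
          have h5 : mono t v (0, Pi.single l 1) = v l := by
            unfold mono
            rw [zpow_zero, one_mul, Finset.prod_eq_single l]
            · change v l ^ (Pi.single l 1 : Fin r → ℤ) l = v l
              rw [Pi.single_eq_same, zpow_one]
            · intro l' _ hne
              change v l' ^ (Pi.single l 1 : Fin r → ℤ) l' = 1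
              rw [Pi.single_eq_of_ne hne, zpow_zero]
            · intro h6
              exact absurd (Finset.mem_univ l) h6
          rwa [h5] at h4
        have h4 : w l = v l * u l := (div_mul_cancel₀ _ (hu l)).symm
        rw [h4]
        exact mul_mem h3 (h2.2 l)
    rw [eq_top_iff]
    intro y _
    have h3 : y ∈ F := by
      rw [hFtop]
      exact IntermediateField.mem_top
    exact h3
  set A : IntermediateField ℂ L := IntermediateField.adjoin ℂ (x '' {i | i ≠ i0}) with hAdef
  have hxA : ∀ i, i ≠ i0 → x i ∈ A := fun i hi => IntermediateField.subset_adjoin ℂ _ ⟨i, hi, rfl⟩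
  have hhA : ∀ l, h l ∈ A := by
    intro l
    refine prod_mem fun i hi => prod_mem fun j _ => zpow_mem (sub_mem (hxA i ?_)
      (A.algebraMap_mem _)) _
    exact (Finset.mem_erase.1 hi).1
  have hmonoA : ∀ p, wt p = 0 → mono t v p ^ mh ∈ A := by
    intro p hp
    have h1 : mono t v p ^ mh = ∏ l, h l ^ (p.2 l * (c l : ℤ)) := by
      unfold mono
      rw [mul_pow, ← Finset.prod_pow]
      have h2 : ∀ l, (v l ^ p.2 l) ^ mh = t ^ (p.2 l * (n l * c l)) * h l ^ (p.2 l * (c l : ℤ)) := by
        intro l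
        have h3 : (v l ^ p.2 l) ^ mh = (v l ^ B.m l) ^ (p.2 l * (c l : ℤ)) := by
          rw [← zpow_natCast (v l ^ p.2 l), ← zpow_mul, ← zpow_natCast (v l), ← zpow_mul]
          congr 1
          rw [hc l]
          push_cast
          ring
        rw [h3, hveq, mul_zpow, ← zpow_mul]
        congr 2
        ring
      rw [Finset.prod_congr rfl fun l _ => h2 l, Finset.prod_mul_distrib, ← mul_assoc]
      have h4 : (t ^ p.1) ^ mh * ∏ l, t ^ (p.2 l * (n l * c l)) = 1 := by
        have h5 : ∏ l, t ^ (p.2 l * (n l * c l)) = t ^ (∑ l, p.2 l * (n l * c l)) := by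
          have : ∀ s : Finset (Fin r), ∏ l ∈ s, t ^ (p.2 l * (n l * c l)) =
              t ^ (∑ l ∈ s, p.2 l * (n l * c l)) := by
            intro s
            induction s using Finset.induction_on with
            | empty => simp
            | insert a s ha ih => rw [Finset.prod_insert ha, Finset.sum_insert ha, ih, zpow_add₀ ht]
          exact this _
        rw [h5, ← zpow_natCast (t ^ p.1), ← zpow_mul, ← zpow_add₀ ht]
        rw [hwt] at hp
        rw [hp, zpow_zero]
      rw [h4, one_mul]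
    rw [h1]
    exact prod_mem fun l _ => zpow_mem (hhA l) _
  have hCA : ∀ y ∈ C, IsAlgebraic A y := by
    intro y hy
    have h1 : C ≤ (algebraicClosure A L).restrictScalars ℂ := by
      rw [hCdef, IntermediateField.adjoin_le_iff]
      rintro z (⟨i, hi, rfl⟩ | ⟨p, hp, rfl⟩)
      · exact mem_algebraicClosure_iff.2 (isAlgebraic_algebraMap (⟨x i, hxA i hi⟩ : A))
      · refine mem_algebraicClosure_iff.2 (IsAlgebraic.of_pow hmh0 ?_)
        exact isAlgebraic_algebraMap (⟨_, hmonoA p hp⟩ : A)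
    exact mem_algebraicClosure_iff.1 (h1 hy)
  obtain ⟨yy, hyy, k, hk⟩ := hmono (1, 0)
  have htk : t = yy * σ ^ k := by
    rw [← hk]
    simp [mono]
  have hkne : k ≠ 0 := by
    intro hk0
    have htC : t ∈ C := by
      rw [htk, hk0, zpow_zero, mul_one]
      exact hyy
    have hxC : x i0 ∈ C := (hmem C htC).1
    have h1 : IsAlgebraic A (x i0) := hCA _ hxC
    have h2 : IsAlgebraic (Algebra.adjoin ℂ (x '' {i | i ≠ i0})) (x i0) :=
      alg_elt h1
    exact hind.transcendental_adjoin (s := {i | i ≠ i0}) (i := i0) (by simp) h2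
  refine ⟨C, σ, t, yy, k, b0, b1, ?_, htop, fun i hi =>
    IntermediateField.subset_adjoin ℂ _ (Or.inl ⟨i, hi, rfl⟩), hyy, hkne, ht, htk, hRel⟩
  intro hσa
  have hLC : Algebra.IsAlgebraic C L := by
    have h1 : Algebra.IsAlgebraic C (IntermediateField.adjoin C {σ}) :=
      IntermediateField.isAlgebraic_adjoin fun y hy => by
        rw [Set.mem_singleton_iff.1 hy]
        exact hσa.isIntegral
    rw [htop] at h1
    exact (IntermediateField.topEquiv (F := C) (E := L)).isAlgebraic
  have hLA : Algebra.IsAlgebraic A L := by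
    refine ⟨fun y => ?_⟩
    obtain ⟨P, hP0, hP⟩ := hLC.isAlgebraic y
    let φ : C →+* algebraicClosure A L := (algebraMap C L).codRestrict (algebraicClosure A L).toSubfield
      fun z => mem_algebraicClosure_iff.2 (hCA z z.2)
    have h1 : IsAlgebraic (algebraicClosure A L) y := by
      refine ⟨P.map φ, ?_, ?_⟩
      · rw [Ne, Polynomial.map_eq_zero]
        exact hP0
      · rw [Polynomial.aeval_def, Polynomial.eval₂_map]
        exact hP
    exact h1.restrictScalars A
  have h1 := alg_adjoin hLA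
  exact hind.transcendental_adjoin (s := {i | i ≠ i0}) (i := i0) (by simp) (h1.isAlgebraic (x i0))

/-- TARGET 2. If `t` is a unit at the place then none of the values `a j` is taken. Proof: in the
first case of `Rel`, `X - a j = t`. In the second case: if `P.ord (X - a j) > 0`, say `a j = b0`,
then `X - b1 = (X - b0) + (b0 - b1)` has order 0, so `t` would have positive order; similarly for
`a j = b1`. -/
theorem Rel.ord_le {q : ℕ} {a : Fin q → ℂ} {b0 b1 : ℂ} {E : Type} [Field E] [Algebra ℂ E] {X t : E}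
    (h : Rel a b0 b1 X t) (P : Place ℂ E) (hX : ∀ j, X ≠ algebraMap ℂ E (a j)) (ht : t ≠ 0)
    (h0 : P.ord t = 0) (j : Fin q) : P.ord (X - algebraMap ℂ E (a j)) ≤ 0 := by
  rcases h with ⟨h1, h2⟩ | ⟨h1, h2, h3⟩
  · rw [h2 j, ← h1, h0]
  · have key : ∀ b b' : ℂ, b ≠ b' → X - algebraMap ℂ E b ≠ 0 → 0 < P.ord (X - algebraMap ℂ E b) →
        X - algebraMap ℂ E b' ≠ 0 ∧ P.ord (X - algebraMap ℂ E b') = 0 := by
      intro b b' hb hXb hpos
      have h4 : b - b' ≠ 0 := sub_ne_zero.2 hb
      have h5 : P.ord (algebraMap ℂ E (b - b')) = 0 := P.ord_const h4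
      have h6 : algebraMap ℂ E (b - b') ≠ 0 := (map_ne_zero _).2 h4
      have h7 := P.ord_add_eq h6 hXb (by rw [h5]; exact hpos)
      have h8 : algebraMap ℂ E (b - b') + (X - algebraMap ℂ E b) = X - algebraMap ℂ E b' := by
        rw [map_sub]
        ring
      rw [h8, h5] at h7
      exact h7
    by_contra hcon
    push Not at hcon
    have hXj : X - algebraMap ℂ E (a j) ≠ 0 := sub_ne_zero.2 (hX j)
    rcases h3 j with h4 | h4
    · rw [h4] at hcon hXj
      obtain ⟨h5, h6⟩ := key b0 b1 h1 hXj hcon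
      have h7 := P.ord_mul ht h5
      rw [h2, h0, h6] at h7
      omega
    · rw [h4] at hcon hXj
      obtain ⟨h5, h6⟩ := key b1 b0 (Ne.symm h1) hXj hcon
      have h7 := P.ord_mul ht hXj
      rw [h2, h0, h6] at h7
      omega

private theorem hz_hom {k : Type} [Field k] {M : ℕ} (i0 : Fin (M + 1))
    (G : MvPolynomial (Fin (M + 1)) k) :
    (Pool.Agent.TH466.QG.hz i0 G).IsHomogeneous G.totalDegree := by
  unfold Pool.Agent.TH466.QG.hz
  refine MvPolynomial.IsHomogeneous.sum _ _ _ fun d hd => ?_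
  have h1 := (MvPolynomial.homogeneousComponent_isHomogeneous d G).mul
    ((MvPolynomial.isHomogeneous_X k i0).pow (G.totalDegree - d))
  have h2 : d + 1 * (G.totalDegree - d) = G.totalDegree := by
    have := Finset.mem_range.1 hd
    omega
  rwa [h2] at h1

/-- the elements of the function field are values at the generic point -/
private theorem value_self {M : ℕ} {L : Type} [Field L] [Algebra ℂ L] {y : Fin (M + 1) → L}
    (hy : y ≠ 0) (hgen : coords ℂ y = ⊤) (f : L) : Value y f y f := by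
  obtain ⟨j0, hj0'⟩ := Function.ne_iff.1 hy
  have hj0 : y j0 ≠ 0 := hj0'
  obtain ⟨H, hH, hG⟩ := Pool.Agent.TH466.QG.exists_den (Pool.Agent.TH466.QG.adjoin_norm hgen hj0)
    (Set.finite_singleton f)
  obtain ⟨G, hG⟩ := hG f rfl
  have hA := (hz_hom j0 G).mul ((MvPolynomial.isHomogeneous_X ℂ j0).pow H.totalDegree)
  have hB := (hz_hom j0 H).mul ((MvPolynomial.isHomogeneous_X ℂ j0).pow G.totalDegree)
  have hdeg : H.totalDegree + 1 * G.totalDegree = G.totalDegree + 1 * H.totalDegree := by ring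
  rw [hdeg] at hB
  have hvA : val y (Pool.Agent.TH466.QG.hz j0 G * MvPolynomial.X j0 ^ H.totalDegree) =
      y j0 ^ G.totalDegree * MvPolynomial.aeval (fun i => y i / y j0) G * y j0 ^ H.totalDegree := by
    rw [← Pool.Agent.TH466.QG.val_hz G hj0]
    change MvPolynomial.aeval y _ = _
    rw [map_mul, map_pow, MvPolynomial.aeval_X]
    rfl
  have hvB : val y (Pool.Agent.TH466.QG.hz j0 H * MvPolynomial.X j0 ^ G.totalDegree) =
      y j0 ^ H.totalDegree * MvPolynomial.aeval (fun i => y i / y j0) H * y j0 ^ G.totalDegree := by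
    rw [← Pool.Agent.TH466.QG.val_hz H hj0]
    change MvPolynomial.aeval y _ = _
    rw [map_mul, map_pow, MvPolynomial.aeval_X]
    rfl
  have heq : f * val y (Pool.Agent.TH466.QG.hz j0 H * MvPolynomial.X j0 ^ G.totalDegree) =
      val y (Pool.Agent.TH466.QG.hz j0 G * MvPolynomial.X j0 ^ H.totalDegree) := by
    rw [hvA, hvB, ← hG]
    ring
  refine ⟨_, _, _, hA, hB, ?_, heq, heq⟩
  rw [hvB]
  exact mul_ne_zero (mul_ne_zero (pow_ne_zero _ hj0) hH) (pow_ne_zero _ hj0)

/-- TARGET 3. Proof: `Pool.Agent.W602.GT.not_log_gt` (file W602/GT/NG.lean) with `σ` of `cover_gm` and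
the derivation `δ` over `C` with `δ σ = σ` (it exists, see `exists_sigma` in
TH152/OC/Gm.lean; restrict the scalars to `ℂ`; the constants of `δ` contain `C`, so that
`(consts δ)⟮σ⟯ = ⊤`). Let `P` be a place with `P.ord c = 0` for all constants `c ≠ 0` of `δ` and
`P.ord σ = 0`. Then `P.ord t = 0`, so `P.ord (x i0 - a i0 j) ≤ 0` for all `j` by `Rel.ord_le`, and
`P.ord (x i - a i j) = 0` for `i ≠ i0`, as these are constants of `δ`. So `¬ CentreIn D y P` by
`hD L y x`, with `Value y (x i) y (x i)` from `hgen : coords ℂ y = ⊤` (every element of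
`L = coords ℂ y` is a quotient of the values at `y` of two forms of the same degree: see
`Pool.Agent.TH466.QG.adjoin_norm`, `exists_den`, `hz`, `val_hz`, `hz_form` for the passage to forms). -/
theorem not_loggt {x : Fin N → L} {w : Fin r → L} (hC : B.Cover x w) {i0 : Fin N}
    (hi0 : B.p i0 ≤ 2) {M : ℕ} {y : Fin (M + 1) → L} (hy : y ≠ 0) (hgen : coords ℂ y = ⊤)
    {D : Set (MvPolynomial (Fin (M + 1)) ℂ)} {O : ∀ i, Set (Fin (B.p i))}
    (hD : Fibres B.a y D x O) (d : ℕ) : ¬ LogGT y D d := by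
  obtain ⟨C, σ, t, yy, k, b0, b1, hσt, htop, hxC, hyC, -, ht, htk, hRel⟩ := cover_gm hC hi0
  have hxa : ∀ i j, x i ≠ algebraMap ℂ L (B.a i j) := by
    intro i j h
    have := hC.ind.transcendental i
    rw [h] at this
    exact this (isAlgebraic_algebraMap _)
  have hσ0 : σ ≠ 0 := by
    rintro rfl
    exact hσt isAlgebraic_zero
  have hchar : CharZero C := charZero_of_injective_algebraMap (algebraMap ℂ C).injective
  obtain ⟨δ, hδ⟩ := exists_sigma hσt htop
  let δ' : Derivation ℂ L L := δ.restrictScalars ℂ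
  have hδ' : ∀ z, δ' z = δ z := fun z => rfl
  have hcC : ∀ c ∈ C, δ' c = 0 := by
    intro c hc
    rw [hδ']
    exact δ.map_algebraMap (⟨c, hc⟩ : C)
  have htop' : (consts δ')⟮σ⟯ = ⊤ := by
    rw [eq_top_iff]
    rintro z -
    have hz : z ∈ C⟮σ⟯ := by rw [htop]; exact IntermediateField.mem_top
    induction hz using IntermediateField.adjoin_induction with
    | mem w hw =>
      rw [Set.mem_singleton_iff.1 hw]
      exact IntermediateField.mem_adjoin_simple_self _ σ
    | algebraMap c =>
      exact (consts δ')⟮σ⟯.algebraMap_mem (⟨(c : L), hcC c c.2⟩ : consts δ')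
    | add u v _ _ hu hv => exact add_mem hu hv
    | inv u _ hu => exact inv_mem hu
    | mul u v _ _ hu hv => exact mul_mem hu hv
  refine not_log_gt δ' hσ0 (by rw [hδ', hδ]) htop' ?_
  intro P hP1 hP2 hcen
  have hyy0 : yy ≠ 0 := by
    rintro rfl
    rw [zero_mul] at htk
    exact ht htk
  have hPt : P.ord t = 0 := by
    rw [htk, P.ord_mul hyy0 (zpow_ne_zero _ hσ0), P.ord_zpow, hP2, hP1 yy (hcC yy hyC) hyy0]
    simp
  obtain ⟨i, j, -, hpos⟩ := (hD L y x ⟨hy, fun G _ h => h⟩
    (fun i => value_self hy hgen (x i)) hxa P).1 hcen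
  by_cases hi : i = i0
  · subst hi
    have := hRel.ord_le P (hxa i) ht hPt j
    omega
  · have h1 : x i - algebraMap ℂ L (B.a i j) ∈ C := sub_mem (hxC i hi) (C.algebraMap_mem _)
    have h2 := hP1 _ (hcC _ h1) (sub_ne_zero.2 (hxa i j))
    omega

end Pool.Agent.H583_GQ
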