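import Pool.Agent.H583_GP.Main
import Pool.Agent.H583_GQ.Main
import Pool.Agent.H583_GQ.Cov
import Pool.Agent.H583_GQ.Gm
import Pool.Agent.H583_GQ.Imp

/-!
The criterion for quasi-projective varieties, and the equivalences for the complements of fibres in
the abelian covers of products of projective lines.
-/

set_option autoImplicit false
set_option linter.overlappingInstances false
set_option linter.unusedSectionVars false

open FF IntermediateField Filter Pool.Agent.W602.GT Pool.Agent.TH466.QG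

namespace Pool.Agent.H583_GQ

open Pool.Agent.H583_GP (Branch)

variable {M : ℕ} {L : Type} [Field L] [Algebra ℂ L] {y : Fin (M + 1) → L}
  {N : ℕ} {p : Fin N → ℕ} {a : ∀ i, Fin (p i) → ℂ}
  {D : Set (MvPolynomial (Fin (M + 1)) ℂ)} {x : Fin N → L} {T : Set (∀ i, Fin (p i) → ℕ)}

/-- the criterion for the total multiplicities -/
theorem wideStrong_of_sum (h : ∀ k ∈ T, k ≠ 0 →
    ∑ i, (p i : ℝ) / max 1 ((p i : ℝ) - 2) < ((∑ i, ∑ j, k i j : ℕ) : ℝ)) : WideStrong p T := by
  have h0 : 0 ≤ ∑ i, (p i : ℝ) / max 1 ((p i : ℝ) - 2) := Finset.sum_nonneg fun i _ =>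
    div_nonneg (Nat.cast_nonneg _) (zero_le_one.trans (le_max_left _ _))
  obtain ⟨α, β, h1⟩ := total (S := T)
    (μ := ((⌊∑ i, (p i : ℝ) / max 1 ((p i : ℝ) - 2)⌋₊ + 1 : ℕ) : ℝ))
    (t := fun i => max 1 ((p i : ℝ) - 2)) (fun i => lt_max_of_lt_left one_pos)
    (fun k hk hk0 => by
      have h2 := (Nat.floor_lt h0).2 (h k hk hk0)
      exact_mod_cast h2) (by
      push_cast
      exact Nat.lt_floor_add_one _)
  exact ⟨α, β, h1⟩

/-- the criterion for the total multiplicities -/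
theorem strong_of_sum (hp : ∀ i, 3 ≤ p i) (h : ∀ k ∈ T, k ≠ 0 →
    ∑ i, (p i : ℝ) / ((p i : ℝ) - 2) < ((∑ i, ∑ j, k i j : ℕ) : ℝ)) : Strong p T := by
  refine (wideStrong_of_sum fun k hk hk0 => ?_).strong hp
  have h1 : ∑ i, (p i : ℝ) / max 1 ((p i : ℝ) - 2) = ∑ i, (p i : ℝ) / ((p i : ℝ) - 2) := by
    refine Finset.sum_congr rfl fun i _ => ?_
    have : (3 : ℝ) ≤ p i := by exact_mod_cast hp i
    rw [max_eq_right (by linarith)]
  rw [h1]
  exact h k hk hk0

/-- The variety itself is one of its subvarieties. -/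
theorem StronglyLog.self (h : StronglyLog y D) (hy : y ≠ 0) (hgen : coords ℂ y = ⊤)
    (hD : ¬ In D y) {w : ℕ} (hw : 1 ≤ w) (htr : Algebra.trdeg ℂ L = w) : LogGT y D w := by
  obtain ⟨R, hR, hyR, h⟩ := h
  exact h L w y ⟨hy, hgen, fun _ _ h => h⟩ hD hyR hw htr

/-- **The criterion.** -/
theorem criterion (ha : ∀ i, Function.Injective (a i)) (hF : Family a y D x T) (hy : y ≠ 0)
    (hgen : coords ℂ y = ⊤) :
    (Good p T → (PseudoPicard y D ∧ PseudoBrody y D ∧ PseudoGm y D) ∧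
      (AlgebraicIndependent ℂ x → 1 ≤ N → LogGT y D N)) ∧
    (Strong p T → StronglyLog y D) := by
  refine ⟨fun hT => ?_, fun hT => strongly ha hF hy hgen hT⟩
  have h1 := picard ha hF hy hgen hT
  exact ⟨⟨h1, brody_of_picard h1, gm_of_brody (brody_of_picard h1)⟩,
    fun hx hN => loggt ha hF hy hgen hT hx hN⟩

variable {r : ℕ} {B : Branch N r} {w : Fin r → L}

/-- **The complements of fibres in the covers.** -/
theorem covers (hC : B.Cover x w) (hN : 1 ≤ N) (hy : y ≠ 0) (hgen : coords ℂ y = ⊤)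
    {O : ∀ i, Set (Fin (B.p i))} (hD : Fibres B.a y D x O) (hD0 : ¬ In D y) :
    (Wide B.p (AdmO B O) → List.TFAE [LogGT y D N, PseudoPicard y D, PseudoBrody y D, PseudoGm y D,
      ∀ i, 3 ≤ B.p i]) ∧
    (WideStrong B.p (AdmO B O) → (StronglyLog y D ↔ ∀ i, 3 ≤ B.p i)) := by
  have hF := cover_family hC.map hy hgen hD
  have hno : ∀ i, B.p i ≤ 2 → ¬ LogGT y D N ∧ ¬ PseudoGm y D := fun i hi =>
    ⟨not_loggt hC hi hy hgen hD N, not_gm hC hi hy hgen hD⟩
  refine ⟨fun hW => ?_, fun hW => ⟨fun h => ?_, fun h => strongly B.inj hF hy hgen (hW.strong h)⟩⟩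
  · tfae_have 5 → 1 := fun h => loggt B.inj hF hy hgen (hW.good h) hC.ind hN
    tfae_have 5 → 2 := fun h => picard B.inj hF hy hgen (hW.good h)
    tfae_have 2 → 3 := brody_of_picard
    tfae_have 3 → 4 := gm_of_brody
    tfae_have 1 → 5 := fun h => by
      by_contra hcon
      push Not at hcon
      obtain ⟨i, hi⟩ := hcon
      exact (hno i (by omega)).1 h
    tfae_have 4 → 5 := fun h => by
      by_contra hcon
      push Not at hcon
      obtain ⟨i, hi⟩ := hcon
      exact (hno i (by omega)).2 h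
    tfae_finish
  · by_contra hcon
    push Not at hcon
    obtain ⟨i, hi⟩ := hcon
    exact (hno i (by omega)).1 (h.self hy hgen hD0 hN hC.trdeg)

end Pool.Agent.H583_GQ
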