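import Pool.Agent.H583_GQ.Lin
import Pool.Agent.H583_GQ.Wts
import Pool.Agent.W601.VF.Cov4

/-!
Varieties over a function field with functions which take constant values with high multiplicities:
the height inequality.
-/

set_option autoImplicit false

namespace Pool.Agent.H583_GQ

open FF MvPolynomial Pool.Agent.W603.LV Pool.Agent.W603.PV Pool.Agent.W601.VF

universe u v w

variable {k : Type u} [Field k] {F : Type v} [Field F] [Algebra k F] {M N : ℕ} {q : Fin N → ℕ}

/-- the values of the functions `A i / B i` at the point `x` -/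
noncomputable def vals (A B : Fin N → MvPolynomial (Fin (M + 1)) F) {L : Type w} [Field L]
    [Algebra F L] (x : Fin (M + 1) → L) : Fin N → L :=
  fun i => aeval x (A i) / aeval x (B i)

/-- `x` is a point, over an extension `L` of `F`, of the projective variety with the homogeneous
ideal `p`, outside the divisor `Q = 0`, at which the functions `A i / B i` are defined and different
from the constants `a i j`. -/
structure GoodPt (p : Ideal (MvPolynomial (Fin (M + 1)) F)) (Q : MvPolynomial (Fin (M + 1)) F)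
    (A B : Fin N → MvPolynomial (Fin (M + 1)) F) (a : ∀ i, Fin (q i) → k) {L : Type w} [Field L]
    [Algebra k L] [Algebra F L] (x : Fin (M + 1) → L) : Prop where
  pt : IsPt p x
  off : aeval x Q ≠ 0
  den : ∀ i, aeval x (B i) ≠ 0
  val : ∀ i j, vals A B x i ≠ algebraMap k L (a i j)

/-- The multiplicities of the values `a i j` of the functions `A i / B i` on the projective variety
with the homogeneous ideal `p` over the function field `F`, outside the divisor `Q = 0`, are in the
set `T`: for every point `x` over a finite extension `L` of `F`, at which the functions are defined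
and different from the `a i j`, and every place of `L`, not over `S`, at which `x` does not meet the
divisor. -/
def MultIn (p : Ideal (MvPolynomial (Fin (M + 1)) F)) (Q : MvPolynomial (Fin (M + 1)) F) (e : ℕ)
    (A B : Fin N → MvPolynomial (Fin (M + 1)) F) (a : ∀ i, Fin (q i) → k)
    (T : Set (∀ i, Fin (q i) → ℕ)) (S : Finset (Place k F)) : Prop :=
  ∀ (L : Type w) [Field L] [Algebra k L] [Algebra F L] [IsScalarTower k F L]
    [FiniteDimensional F L] (x : Fin (M + 1) → L), GoodPt p Q A B a x →
    ∀ P : Place k L, (∀ v ∈ S, ¬ Over P v) → P ∉ meets (k := k) Q e x →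
      multk a P (vals A B x) ∈ T

/-- The height inequality for the values of the functions. -/
def ValueBound (p : Ideal (MvPolynomial (Fin (M + 1)) F)) (Q : MvPolynomial (Fin (M + 1)) F)
    (e : ℕ) (A B : Fin N → MvPolynomial (Fin (M + 1)) F) (a : ∀ i, Fin (q i) → k) (R : ℕ) : Prop :=
  ∃ C : ℕ, ∀ (L : Type w) [Field L] [Algebra k L] [Algebra F L] [IsScalarTower k F L]
    [FiniteDimensional F L] (x : Fin (M + 1) → L), GoodPt p Q A B a x →
    ∑ i, hgt k (vals A B x i) ≤
      R * (canDeg k L + ((meets (k := k) Q e x).ncard : ℤ)) + C * Module.finrank F L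

/-- The projective variety with the homogeneous prime ideal `p` is not contained in the divisor
`Q = 0`, `Q` a form of degree `e`, and the `A i / B i` are quotients of forms of the same degree,
which define rational functions on the variety that are not equal to the constants `a i j`, and a
generically finite rational map to the product of `N` projective lines. -/
structure Functions (p : Ideal (MvPolynomial (Fin (M + 1)) F)) [p.IsPrime]
    (Q : MvPolynomial (Fin (M + 1)) F) (e : ℕ) (A B : Fin N → MvPolynomial (Fin (M + 1)) F)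
    (a : ∀ i, Fin (q i) → k) : Prop where
  homog : IsHomog p
  proper : ∃ j, X j ∉ p
  homQ : Q.IsHomogeneous e
  notQ : Q ∉ p
  forms : ∀ i, ∃ δ : ℕ, (A i).IsHomogeneous δ ∧ (B i).IsHomogeneous δ
  den : ∀ i, B i ∉ p
  val : ∀ i j, A i - C (algebraMap k F (a i j)) * B i ∉ p
  gen : ∀ j l : Fin (M + 1),
    IsAlgebraic (IntermediateField.adjoin F (Set.range fun i => cls p (A i) / cls p (B i)))
      (cls p (X j) / cls p (X l))

variable [IsAlgClosed k] [CharZero k] [IsFF k F]

/-- The bound for the values. -/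
theorem value_bound {p : Ideal (MvPolynomial (Fin (M + 1)) F)} {Q : MvPolynomial (Fin (M + 1)) F}
    {e : ℕ} {A B : Fin N → MvPolynomial (Fin (M + 1)) F} {a : ∀ i, Fin (q i) → k}
    (ha : ∀ i, Function.Injective (a i)) {T : Set (∀ i, Fin (q i) → ℕ)} {S : Finset (Place k F)}
    (hM : MultIn.{u, v, w} p Q e A B a T S) {α : Fin N → ℕ} {β : ∀ i, Fin (q i) → ℕ}
    (hT : NGood q T α β) : ValueBound.{u, v, w} p Q e A B a (∑ i, α i) := by
  classical
  obtain ⟨C2, hC2⟩ := over_card.{u, v, w} (k := k) S
  obtain ⟨t, ht⟩ := IsFF.exists_transcendental (k := k) (K := F)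
  refine ⟨(∑ i, α i) * (C2 + 2 * (hgt k t).toNat), ?_⟩
  intro L _ _ _ _ _ x hx
  have hL : IsFF k L := isFF_of_finite (F := F)
  obtain ⟨hSfin, hScard⟩ := hC2 L
  have hx0 : ∃ j, x j ≠ 0 := by
    by_contra hcon
    push Not at hcon
    exact hx.pt.1 (funext hcon)
  have hMfin : (meets (k := k) Q e x).Finite := meets_finite Q e hx0
  have hcan := canDeg_ge (k := k) (K := L) (t := algebraMap F L t)
    ((transcendental_algebraMap_iff (algebraMap F L).injective).2 ht)
  rw [hgt_algebraMap t] at hcan
  have htn : ((hgt k t).toNat : ℤ) = hgt k t := Int.toNat_of_nonneg (hgt_nonneg _)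
  rw [← htn] at hcan
  have h1 := lin_ineq (k := k) ha hT.1 hx.val (hMfin.toFinset ∪ hSfin.toFinset) (by
    intro P hP
    rw [Finset.mem_union, not_or, Set.Finite.mem_toFinset, Set.Finite.mem_toFinset] at hP
    exact hT.2 _ (hM L x hx P (fun v hv h => hP.2 ⟨v, hv, h⟩) hP.1))
  have h2 : ((hMfin.toFinset ∪ hSfin.toFinset).card : ℤ) ≤
      ((meets (k := k) Q e x).ncard : ℤ) + C2 * Module.finrank F L := by
    have h3 := Finset.card_union_le hMfin.toFinset hSfin.toFinset
    rw [← Set.ncard_eq_toFinset_card _ hMfin, ← Set.ncard_eq_toFinset_card _ hSfin] at h3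
    have h4 : ((hMfin.toFinset ∪ hSfin.toFinset).card : ℤ) ≤ ((meets (k := k) Q e x).ncard : ℤ) +
        (({P : Place k L | ∃ v ∈ S, Over P v}.ncard : ℕ) : ℤ) := by exact_mod_cast h3
    linarith
  have hm0 : (0 : ℤ) ≤ (Module.finrank F L : ℤ) := by positivity
  have h3 : max (canDeg k L + ((hMfin.toFinset ∪ hSfin.toFinset).card : ℤ)) 0 ≤
      canDeg k L + ((meets (k := k) Q e x).ncard : ℤ) +
        (C2 + 2 * (hgt k t).toNat) * Module.finrank F L := by
    have h4 : (0 : ℤ) ≤ ((meets (k := k) Q e x).ncard : ℤ) := Int.natCast_nonneg _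
    have h5 : (0 : ℤ) ≤ (C2 : ℤ) * Module.finrank F L := mul_nonneg (Int.natCast_nonneg _) hm0
    have h6 : (0 : ℤ) ≤ ((hgt k t).toNat : ℤ) * Module.finrank F L :=
      mul_nonneg (Int.natCast_nonneg _) hm0
    refine max_le ?_ ?_
    · nlinarith
    · nlinarith
  refine h1.trans ((mul_le_mul_of_nonneg_left h3 (Int.natCast_nonneg _)).trans (le_of_eq ?_))
  push_cast
  ring

/-- **The height inequality.** -/
theorem vojta {p : Ideal (MvPolynomial (Fin (M + 1)) F)} [p.IsPrime]
    {Q : MvPolynomial (Fin (M + 1)) F} {e : ℕ} {A B : Fin N → MvPolynomial (Fin (M + 1)) F}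
    {a : ∀ i, Fin (q i) → k} {R : ℕ} (hV : ValueBound.{u, v, w} p Q e A B a R)
    (hF : Functions p Q e A B a) : Vojta.{u, v, w} k p Q e := by
  classical
  obtain ⟨C1, hC1⟩ := hV
  obtain ⟨hp, hx, hQ, hQp, hforms, hden, hval, hgen⟩ := hF
  obtain ⟨l, hl⟩ := hx
  obtain ⟨t, ht⟩ := IsFF.exists_transcendental (k := k) (K := F)
  choose δ hδA hδB using hforms
  set Aq := MvPolynomial (Fin (M + 1)) F ⧸ p with hAq
  set mk : MvPolynomial (Fin (M + 1)) F →+* Aq := Ideal.Quotient.mk p with hmk
  have hmk0 : ∀ H : MvPolynomial (Fin (M + 1)) F, mk H = 0 ↔ H ∈ p := fun H =>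
    Ideal.Quotient.eq_zero_iff_mem
  obtain ⟨g', hg', B0, E, hbound⟩ := alg_bound.{u, v, w, 0, 0, v} (k := k)
    (fun i => mk (A i)) (fun i => mk (B i)) (fun i h0 => hden i ((hmk0 _).1 h0))
    (fun j : Fin (M + 1) => mk (X j)) (fun _ => mk (X l)) (fun _ h0 => hl ((hmk0 _).1 h0))
    (fun j => hgen j l)
  obtain ⟨g, rfl⟩ := Ideal.Quotient.mk_surjective g'
  have hgp : g ∉ p := fun h => hg' ((hmk0 _).2 h)
  obtain ⟨r, hr⟩ := exists_component hp hgp
  set HE := (∑ c ∈ E, hgt k c).toNat with hHE
  set h0 := (hgt k t).toNat with hh0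
  set G : MvPolynomial (Fin (M + 1)) F := homogeneousComponent r g * Q * X l * (∏ i, B i) *
    ∏ i, ∏ j, (A i - C (algebraMap k F (a i j)) * B i) with hG
  refine ⟨r + e + 1 + ∑ i, δ i + ∑ i, q i * δ i, G, ?_, ?_,
    (((Dvd.intro_left _ rfl).mul_right _).mul_right _).mul_right _,
    (M + 1) * B0 * R, (M + 1) * B0 * (R * (2 * h0) + C1 + HE), ?_⟩
  · refine ((((homogeneousComponent_isHomogeneous r g).mul hQ).mul (isHomogeneous_X _ _)).mul
      (IsHomogeneous.prod Finset.univ B δ fun i _ => hδB i)).mul ?_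
    refine IsHomogeneous.prod Finset.univ _ _ fun i _ => ?_
    have h1 := IsHomogeneous.prod Finset.univ
      (fun j => A i - C (algebraMap k F (a i j)) * B i) (fun _ => δ i) fun j _ => by
        have h2 := (isHomogeneous_C (Fin (M + 1)) (algebraMap k F (a i j))).mul (hδB i)
        rw [zero_add] at h2
        exact (hδA i).sub h2
    rwa [Finset.sum_const, Finset.card_univ, Fintype.card_fin, smul_eq_mul] at h1
  · intro h
    rcases Ideal.IsPrime.mem_or_mem inferInstance h with h | h
    · rcases Ideal.IsPrime.mem_or_mem inferInstance h with h | h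
      · rcases Ideal.IsPrime.mem_or_mem inferInstance h with h | h
        · rcases Ideal.IsPrime.mem_or_mem inferInstance h with h | h
          · exact hr h
          · exact hQp h
        · exact hl h
      · obtain ⟨i, _, hi⟩ := (Ideal.IsPrime.prod_mem_iff (hp := inferInstance)).1 h
        exact hden i hi
    · obtain ⟨i, _, hi⟩ := (Ideal.IsPrime.prod_mem_iff (hp := inferInstance)).1 h
      obtain ⟨j, _, hj⟩ := (Ideal.IsPrime.prod_mem_iff (hp := inferInstance)).1 hi
      exact hval i j hj
  -- the bound for scaled points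
  have key : ∀ (L : Type w) [Field L] [Algebra k L] [Algebra F L] [IsScalarTower k F L]
      [FiniteDimensional F L] (x : Fin (M + 1) → L), GoodPt p Q A B a x → x l ≠ 0 →
      aeval x g ≠ 0 → pht k x ≤ ((M + 1) * B0 * R : ℕ) *
        (canDeg k L + ((meets (k := k) Q e x).ncard : ℤ)) +
        ((M + 1) * B0 * (R * (2 * h0) + C1 + HE) : ℕ) * Module.finrank F L := by
    intro L _ _ _ _ _ x hx hxl hxg
    have hL : IsFF k L := isFF_of_finite (F := F)
    have h1 := hC1 L x hx
    set θ : Aq →ₐ[F] L := Ideal.Quotient.liftₐ p (aeval x) hx.pt.2 with hθ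
    have hθmk : ∀ H, θ (mk H) = aeval x H := fun H => rfl
    have hcan := canDeg_ge (k := k) (K := L) (t := algebraMap F L t)
      ((transcendental_algebraMap_iff (algebraMap F L).injective).2 ht)
    rw [hgt_algebraMap t] at hcan
    have htn : (h0 : ℤ) = hgt k t := Int.toNat_of_nonneg (hgt_nonneg _)
    rw [← htn] at hcan
    set m : ℤ := (Module.finrank F L : ℤ) with hm
    have hm0 : 0 ≤ m := by positivity
    set Mt : ℤ := ((meets (k := k) Q e x).ncard : ℤ) with hMt
    have hM0 : 0 ≤ Mt := by positivity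
    set Y : ℤ := R * (canDeg k L + Mt + 2 * h0 * m) + C1 * m with hY
    have hcan2 : 0 ≤ canDeg k L + Mt + 2 * h0 * m := by linarith
    have hY0 : 0 ≤ Y := add_nonneg (mul_nonneg (Int.natCast_nonneg _) hcan2)
      (mul_nonneg (Int.natCast_nonneg _) hm0)
    have hYb : ∀ i, hgt k (vals A B x i) ≤ Y := by
      intro i
      refine (Finset.single_le_sum (f := fun i => hgt k (vals A B x i))
        (fun i _ => hgt_nonneg _) (Finset.mem_univ i)).trans (h1.trans ?_)
      rw [hY]
      have h2 : (0 : ℤ) ≤ R * (2 * h0 * m) := by positivity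
      have h3 : (R : ℤ) * (canDeg k L + Mt + 2 * h0 * m) =
        R * (canDeg k L + Mt) + R * (2 * h0 * m) := by ring
      linarith
    have h3 := hbound L θ (by rw [hθmk]; exact hxg) Y hY0 (by
      intro i
      rw [hθmk, hθmk]
      exact hYb i)
    have h4 : ∑ c ∈ E, hgt k (algebraMap F L c) = m * ∑ c ∈ E, hgt k c := by
      rw [Finset.mul_sum]
      exact Finset.sum_congr rfl fun c _ => hgt_algebraMap c
    have hHE0 : (HE : ℤ) = ∑ c ∈ E, hgt k c :=
      Int.toNat_of_nonneg (Finset.sum_nonneg fun _ _ => hgt_nonneg _)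
    have h5 : pht k x ≤ ∑ j : Fin (M + 1), (B0 * Y + B0 * (m * HE)) := by
      refine (pht_le (k := k) x hxl).trans (Finset.sum_le_sum fun j _ => ?_)
      have h6 := (h3 j).2
      rw [hθmk, hθmk, aeval_X, aeval_X, h4, ← hHE0] at h6
      exact h6
    rw [Finset.sum_const, Finset.card_univ, Fintype.card_fin, nsmul_eq_mul] at h5
    refine h5.trans (le_of_eq ?_)
    rw [hY]
    push_cast
    ring
  intro L _ _ _ _ _ x hxp hxG
  have hL : IsFF k L := isFF_of_finite (F := F)
  rw [hG, map_mul, map_mul, map_mul, map_mul, aeval_X, map_prod, map_prod] at hxG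
  have hxB : ∀ i, aeval x (B i) ≠ 0 := fun i =>
    Finset.prod_ne_zero_iff.1 (right_ne_zero_of_mul (left_ne_zero_of_mul hxG)) i
      (Finset.mem_univ i)
  have hxA : ∀ i j, aeval x (A i - C (algebraMap k F (a i j)) * B i) ≠ 0 := fun i j => by
    have h1 := Finset.prod_ne_zero_iff.1 (right_ne_zero_of_mul hxG) i (Finset.mem_univ i)
    rw [map_prod] at h1
    exact Finset.prod_ne_zero_iff.1 h1 j (Finset.mem_univ j)
  have hxG' := left_ne_zero_of_mul (left_ne_zero_of_mul hxG)
  have hxl : x l ≠ 0 := right_ne_zero_of_mul hxG'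
  have hxQ : aeval x Q ≠ 0 := right_ne_zero_of_mul (left_ne_zero_of_mul hxG')
  have hxg := left_ne_zero_of_mul (left_ne_zero_of_mul hxG')
  have hinf : Infinite L := by
    have : CharZero L := charZero_of_injective_algebraMap (algebraMap k L).injective
    infer_instance
  obtain ⟨c, hc, hcG⟩ := exists_scale g x r hxg
  have h1 := key L (fun j => c * x j) ⟨⟨fun h0 => ?_, fun H hH => ?_⟩, ?_, fun i => ?_,
    fun i j h0 => ?_⟩ (mul_ne_zero hc hxl) hcG
  · rw [pht_scale ⟨l, hxl⟩ hc, meets_scale hQ ⟨l, hxl⟩ hxQ hc] at h1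
    exact h1
  · exact mul_ne_zero hc hxl (congrFun h0 l)
  · rw [aeval_scale_sum]
    refine Finset.sum_eq_zero fun e' _ => ?_
    rw [hxp _ (hp H hH e'), mul_zero]
  · rw [aeval_scale hQ]
    exact mul_ne_zero (pow_ne_zero _ hc) hxQ
  · rw [aeval_scale (hδB i)]
    exact mul_ne_zero (pow_ne_zero _ hc) (hxB i)
  · unfold vals at h0
    rw [aeval_scale (hδA i), aeval_scale (hδB i), mul_div_mul_left _ _ (pow_ne_zero _ hc),
      div_eq_iff (hxB i)] at h0
    apply hxA i j
    rw [map_sub, map_mul, aeval_C, h0, ← IsScalarTower.algebraMap_apply, sub_self]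

end Pool.Agent.H583_GQ
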