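import Pool.Agent.H583_GQ.Top
import Pool.Agent.H583_GQ.Mod
import Pool.Agent.H583_GQ.Ptd
import Pool.Agent.H583_GQ.VF

/-!
Degrees of curves and pointed maps: the equivalences for the covers.
-/

set_option autoImplicit false
set_option linter.overlappingInstances false
set_option linter.unusedSectionVars false

open FF IntermediateField Filter Pool.Agent.W602.GT Pool.Agent.TH466.QG

namespace Pool.Agent.H583_GQ

open Pool.Agent.H583_GP (Branch)

variable {M N r : ℕ} {L : Type} [Field L] [Algebra ℂ L] {y : Fin (M + 1) → L}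
  {D : Set (MvPolynomial (Fin (M + 1)) ℂ)} {B : Branch N r} {x : Fin N → L} {w : Fin r → L}

/-- **The degrees of curves.** -/
theorem covers_degrees (hC : B.Cover x w) (hN : 1 ≤ N) (hy : y ≠ 0) (hgen : coords ℂ y = ⊤)
    {O : ∀ i, Set (Fin (B.p i))} (hD : Fibres B.a y D x O) (hW : Wide B.p (AdmO B O)) :
    List.TFAE [LogGT y D N, LinBounded y D, Bounded y D, BoundedEach y D, ∀ i, 3 ≤ B.p i] := by
  have hF := cover_family hC.map hy hgen hD
  tfae_have 5 → 1 := fun h => loggt B.inj hF hy hgen (hW.good h) hC.ind hN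
  tfae_have 5 → 2 := fun h => linBounded B.inj hF hy hgen (hW.good h)
  tfae_have 2 → 3 := fun h => h.bounded
  tfae_have 3 → 4 := fun h => h.each
  tfae_have 1 → 5 := fun h => by
    by_contra hcon
    push Not at hcon
    obtain ⟨i, hi⟩ := hcon
    exact not_loggt hC (i0 := i) (by omega) hy hgen hD N h
  tfae_have 4 → 5 := fun h => by
    by_contra hcon
    push Not at hcon
    obtain ⟨i, hi⟩ := hcon
    exact not_gm hC (i0 := i) (by omega) hy hgen hD (gm_of_each h)
  tfae_finish

/-- the empty boundary -/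
theorem fibres_one : Fibres B.a y {1} x fun _ => ∅ := by
  intro E _ _ z x' _ _ _ P
  constructor
  · intro h
    exact absurd h (not_centre_one P)
  · rintro ⟨i, j, hj, -⟩
    exact absurd hj (Set.notMem_empty j)

theorem wide_one (h : B.Wide) : Wide B.p (AdmO B fun _ => ∅) := by
  obtain ⟨α, β, h1, h2, h3, h4⟩ := h
  exact ⟨α, β, h1, h2, h3, fun k hk => h4 k hk.1⟩

/-- **Pointed maps.** -/
theorem covers_pointed (hB : B.Wide) (hN : 1 ≤ N) (hC : B.Cover x w) (hy : y ≠ 0)
    (hgen : coords ℂ y = ⊤) :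
    List.TFAE [GeneralType ℂ L N, PseudoPointed y, ∀ i, 3 ≤ B.p i] := by
  obtain ⟨h1, h2⟩ := Pool.Agent.H583_GP.equivalence hB hN hC hy hgen
  have hD : Fibres B.a y {1} x fun _ => ∅ := fibres_one
  have hF := cover_family hC.map hy hgen hD
  tfae_have 1 ↔ 3 := h1.trans h2
  tfae_have 3 → 2 := fun h => pointed_of_lin (linBounded B.inj hF hy hgen ((wide_one hB).good h))
  tfae_have 2 → 3 := fun h => by
    by_contra hcon
    push Not at hcon
    obtain ⟨i, hi⟩ := hcon
    exact not_gm hC (i0 := i) (by omega) hy hgen hD (gm_of_pointed h)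
  tfae_finish

end Pool.Agent.H583_GQ
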