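import Pool.Agent.H583_GQ.Hts
import Pool.Agent.H583_GQ.Gm
import Pool.Agent.W601.VF.Cov
import Pool.Agent.TH152.BB.Val

/-!
The powers of a morphism from the multiplicative group have unbounded degrees.
-/

set_option autoImplicit false
set_option linter.overlappingInstances false
set_option linter.unusedSectionVars false

open FF IntermediateField Filter Pool.Agent.W602.GT Pool.Agent.TH466.QG Pool.Agent.W603.LV
  Pool.Agent.W603.PV Pool.Agent.W601.VF
open Pool.Agent.Y221.PD (TorusCurve)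

namespace Pool.Agent.H583_GQ

variable {M : ℕ} {L : Type} [Field L] [Algebra ℂ L] {y : Fin (M + 1) → L}
  {D : Set (MvPolynomial (Fin (M + 1)) ℂ)}

/-- The degrees of the curves in `X - {D = 0}`, where `X` is the projective variety with the generic
point `y`, are bounded in terms of `2 * g - 2 + s`, outside a proper closed subset; here `g` is the
genus and `s` the number of the points at infinity. -/
def Bounded (y : Fin (M + 1) → L) (D : Set (MvPolynomial (Fin (M + 1)) ℂ)) : Prop :=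
  ∃ R : MvPolynomial (Fin (M + 1)) ℂ, IsForm R ∧ val y R ≠ 0 ∧ ∃ β : ℤ → ℤ,
    ∀ (E : Type) [Field E] [Algebra ℂ E] [IsFF ℂ E] (z : Fin (M + 1) → E), Pt y z → ¬ In D z →
      val z R ≠ 0 → pht ℂ z ≤ β (canDeg ℂ E + ({P : Place ℂ E | CentreIn D z P}.ncard : ℤ))

theorem LinBounded.bounded (h : LinBounded y D) : Bounded y D := by
  obtain ⟨R, hR, hyR, A, h⟩ := h
  exact ⟨R, hR, hyR, fun n => A * max n 0, h⟩

/-- the places of the field of rational functions at which `X` is a unit -/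
theorem exists_s (P : Place ℂ (RatFunc ℂ)) (hP : P.ord RatFunc.X = 0) :
    ∃ s : ℂ, s ≠ 0 ∧ ∀ g : Polynomial ℂ, Ge P 0 (algebraMap (Polynomial ℂ) (RatFunc ℂ) g) ∧
      (g.eval s ≠ 0 → P.ord (algebraMap (Polynomial ℂ) (RatFunc ℂ) g) = 0) := by
  have hreg : ∀ g : Polynomial ℂ, Ge P 0 (algebraMap (Polynomial ℂ) (RatFunc ℂ) g) := by
    intro g
    induction g using Polynomial.induction_on' with
    | add f g hf hg =>
      rw [map_add]
      exact hf.add hg
    | monomial n c =>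
      rw [← Polynomial.C_mul_X_pow_eq_monomial, map_mul, map_pow, RatFunc.algebraMap_X]
      have h1 : Ge P 0 (algebraMap (Polynomial ℂ) (RatFunc ℂ) (Polynomial.C c)) := by
        by_cases hc : c = 0
        · left
          rw [hc, map_zero, map_zero]
        · right
          have h2 : algebraMap (Polynomial ℂ) (RatFunc ℂ) (Polynomial.C c) =
              algebraMap ℂ (RatFunc ℂ) c := by
            rw [RatFunc.algebraMap_eq_C, RatFunc.algebraMap_C]
          rw [h2, P.ord_const hc]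
      have h2 : Ge P 0 ((RatFunc.X : RatFunc ℂ) ^ n) := Or.inr (by rw [P.ord_pow, hP, mul_zero])
      have h3 := h1.mul h2
      rwa [add_zero] at h3
  obtain ⟨s, hs⟩ := exists_const P (f := (RatFunc.X : RatFunc ℂ)) (Or.inr hP.ge)
  have hne : (RatFunc.X : RatFunc ℂ) - algebraMap ℂ (RatFunc ℂ) s ≠ 0 := by
    intro h
    rw [sub_eq_zero] at h
    exact RatFunc.transcendental_X (h ▸ isAlgebraic_algebraMap s)
  have hs1 := hs.resolve_left hne
  refine ⟨s, ?_, fun g => ⟨hreg g, fun hg => ?_⟩⟩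
  · rintro rfl
    rw [map_zero, sub_zero, hP] at hs1
    omega
  · obtain ⟨q, hq⟩ : ∃ q : Polynomial ℂ, g = Polynomial.C (g.eval s) +
        (Polynomial.X - Polynomial.C s) * q := by
      obtain ⟨q, hq⟩ := Polynomial.X_sub_C_dvd_sub_C_eval (a := s) (p := g)
      exact ⟨q, by rw [← hq]; ring⟩
    have h2 : algebraMap (Polynomial ℂ) (RatFunc ℂ) (Polynomial.C (g.eval s)) =
        algebraMap ℂ (RatFunc ℂ) (g.eval s) := by
      rw [RatFunc.algebraMap_eq_C, RatFunc.algebraMap_C]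
    have h3 : algebraMap (Polynomial ℂ) (RatFunc ℂ) (Polynomial.X - Polynomial.C s) =
        RatFunc.X - algebraMap ℂ (RatFunc ℂ) s := by
      rw [map_sub, RatFunc.algebraMap_X, RatFunc.algebraMap_eq_C, RatFunc.algebraMap_C]
    have h4 : Ge P 1 (algebraMap (Polynomial ℂ) (RatFunc ℂ) ((Polynomial.X - Polynomial.C s) * q))
        := by
      rw [map_mul, h3]
      have := hs.mul (hreg q)
      rwa [add_zero] at this
    rw [hq, map_add, h2]
    have hc0 : algebraMap ℂ (RatFunc ℂ) (g.eval s) ≠ 0 := by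
      rw [Ne, FaithfulSMul.algebraMap_eq_zero_iff]
      exact hg
    rcases h4 with h4 | h4
    · rw [h4, add_zero]
      exact P.ord_const hg
    · by_cases h5 : algebraMap (Polynomial ℂ) (RatFunc ℂ) ((Polynomial.X - Polynomial.C s) * q) = 0
      · rw [h5, add_zero]
        exact P.ord_const hg
      · have h6 := (P.ord_add_eq hc0 h5 (by rw [P.ord_const hg]; omega)).2
        rw [h6]
        exact P.ord_const hg

/-- the morphism given by `f`, composed with `t ↦ τ * t ^ n` -/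
noncomputable def cmp (f : Fin (M + 1) → Polynomial ℂ) (τ : ℂ) (n : ℕ) :
    Fin (M + 1) → Polynomial ℂ :=
  fun i => (f i).comp (Polynomial.C τ * Polynomial.X ^ n)

/-- the coordinates as rational functions -/
noncomputable def cmz (f : Fin (M + 1) → Polynomial ℂ) (τ : ℂ) (n : ℕ) :
    Fin (M + 1) → RatFunc ℂ :=
  fun i => algebraMap (Polynomial ℂ) (RatFunc ℂ) (cmp f τ n i)

theorem cmp_eval (f : Fin (M + 1) → Polynomial ℂ) (τ : ℂ) (n : ℕ) (i : Fin (M + 1)) (s : ℂ) :
    (cmp f τ n i).eval s = (f i).eval (τ * s ^ n) := by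
  unfold cmp
  simp only [Polynomial.eval_comp, Polynomial.eval_mul, Polynomial.eval_pow, Polynomial.eval_X,
    Polynomial.eval_C]

theorem cmz_val (f : Fin (M + 1) → Polynomial ℂ) (τ : ℂ) (n : ℕ)
    (G : MvPolynomial (Fin (M + 1)) ℂ) : val (cmz f τ n) G =
      algebraMap (Polynomial ℂ) (RatFunc ℂ) (MvPolynomial.aeval (cmp f τ n) G) :=
  val_polyX _ G

theorem cmp_aeval (f : Fin (M + 1) → Polynomial ℂ) (τ : ℂ) (n : ℕ)
    (G : MvPolynomial (Fin (M + 1)) ℂ) (s : ℂ) :
    (MvPolynomial.aeval (cmp f τ n) G).eval s =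
      MvPolynomial.eval (fun i => (f i).eval (τ * s ^ n)) G := by
  have h1 : (MvPolynomial.aeval (cmp f τ n) G).eval s =
      MvPolynomial.aeval (fun i => (cmp f τ n i).eval s) G := by
    have := MvPolynomial.map_aeval (cmp f τ n) (Polynomial.evalRingHom s) G
    rw [Polynomial.coe_evalRingHom] at this
    rw [this, MvPolynomial.aeval_def, MvPolynomial.coe_eval₂Hom]
    congr 1
    ext c
    simp
  rw [h1, MvPolynomial.aeval_eq_eval]
  simp only [cmp_eval]

theorem root_of {τ : ℂ} (hτ : τ ≠ 0) {n : ℕ} (hn : 0 < n) (t : ℂ) : ∃ s : ℂ, τ * s ^ n = t := by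
  obtain ⟨s, hs⟩ := IsAlgClosed.exists_pow_nat_eq (t / τ) hn
  exact ⟨s, by rw [hs, mul_div_cancel₀ _ hτ]⟩

theorem cmz_ne {f : Fin (M + 1) → Polynomial ℂ} {τ : ℂ} (hτ : τ ≠ 0) {n : ℕ} (hn : 0 < n)
    {G : MvPolynomial (Fin (M + 1)) ℂ} {t : ℂ}
    (ht : MvPolynomial.eval (fun i => (f i).eval t) G ≠ 0) : val (cmz f τ n) G ≠ 0 := by
  intro h0
  obtain ⟨s, hs⟩ := root_of hτ hn t
  rw [cmz_val, ← map_zero (algebraMap (Polynomial ℂ) (RatFunc ℂ))] at h0
  have h1 := cmp_aeval f τ n G s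
  rw [RatFunc.algebraMap_injective ℂ h0, Polynomial.eval_zero, hs] at h1
  exact ht h1.symm

theorem cmz_pt {f : Fin (M + 1) → Polynomial ℂ} (hf : TorusCurve y f) {τ : ℂ} (hτ : τ ≠ 0) {n : ℕ}
    (hn : 0 < n) : Pt y (cmz f τ n) := by
  constructor
  · obtain ⟨i, hi⟩ := hf.ne 1 one_ne_zero
    intro h0
    have h1 := cmz_ne (f := f) hτ hn (G := MvPolynomial.X i) (t := 1) (by rwa [MvPolynomial.eval_X])
    apply h1
    unfold Pool.Agent.W602.GT.val
    rw [MvPolynomial.aeval_X, h0]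
    rfl
  · intro G hG hyG
    rw [cmz_val]
    have h1 : MvPolynomial.aeval (cmp f τ n) G * Polynomial.X = 0 := by
      refine Polynomial.funext fun s => ?_
      rw [Polynomial.eval_mul, Polynomial.eval_X, Polynomial.eval_zero, cmp_aeval]
      by_cases hs : s = 0
      · rw [hs, mul_zero]
      · rw [hf.mem G hG hyG _ (mul_ne_zero hτ (pow_ne_zero _ hs)), zero_mul]
    rw [(mul_eq_zero.1 h1).resolve_right Polynomial.X_ne_zero, map_zero]

theorem not_in {f : Fin (M + 1) → Polynomial ℂ} {t : ℂ} (h : ¬ In D fun i => (f i).eval t) :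
    ∃ G ∈ D, IsForm G ∧ MvPolynomial.eval (fun i => (f i).eval t) G ≠ 0 := by
  unfold In at h
  push Not at h
  obtain ⟨G, hG, hGf, h1⟩ := h
  refine ⟨G, hG, hGf, fun h2 => h1 ?_⟩
  unfold Pool.Agent.W602.GT.val
  rw [MvPolynomial.aeval_eq_eval]
  exact h2

theorem cmz_in {f : Fin (M + 1) → Polynomial ℂ}
    (hfD : ∀ t, t ≠ 0 → ¬ In D fun i => (f i).eval t) {τ : ℂ} (hτ : τ ≠ 0) {n : ℕ} (hn : 0 < n) :
    ¬ In D (cmz f τ n) := by
  intro h0
  obtain ⟨G, hG, hGf, h1⟩ := not_in (hfD 1 one_ne_zero)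
  exact cmz_ne hτ hn h1 (h0 G hG hGf)

theorem cmz_cen {f : Fin (M + 1) → Polynomial ℂ}
    (hfD : ∀ t, t ≠ 0 → ¬ In D fun i => (f i).eval t) {τ : ℂ} (hτ : τ ≠ 0) (n : ℕ) :
    {P : Place ℂ (RatFunc ℂ) | CentreIn D (cmz f τ n) P} ⊆
      {P : Place ℂ (RatFunc ℂ) | P.ord RatFunc.X ≠ 0} := by
  intro P hP hX
  obtain ⟨s, hs, hg⟩ := exists_s P hX
  obtain ⟨G, hG, ⟨d, hd⟩, h2⟩ := not_in (hfD (τ * s ^ n) (mul_ne_zero hτ (pow_ne_zero _ hs)))
  have h3 : P.ord (val (cmz f τ n) G) = 0 := by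
    rw [cmz_val]
    exact (hg _).2 (by rw [cmp_aeval]; exact h2)
  rcases hP G hG d hd with h4 | ⟨j, hj, h4⟩
  · rw [cmz_val, ← map_zero (algebraMap (Polynomial ℂ) (RatFunc ℂ))] at h4
    have h5 := cmp_aeval f τ n G s
    rw [RatFunc.algebraMap_injective ℂ h4, Polynomial.eval_zero] at h5
    exact h2 h5.symm
  · have h5 : 0 ≤ P.ord (cmz f τ n j) := (hg (cmp f τ n j)).1.resolve_left hj
    rw [h3] at h4
    have h6 : (0 : ℤ) ≤ d * P.ord (cmz f τ n j) := mul_nonneg (Int.natCast_nonneg _) h5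
    omega

/-- the degrees of the compositions -/
theorem cmz_pht {f : Fin (M + 1) → Polynomial ℂ} (hf : TorusCurve y f) {τ : ℂ} (hτ : τ ≠ 0) {n : ℕ}
    (hn : 0 < n) : (n : ℤ) ≤ pht ℂ (cmz f τ n) := by
  classical
  have hinj : Function.Injective (algebraMap (Polynomial ℂ) (RatFunc ℂ)) :=
    RatFunc.algebraMap_injective ℂ
  obtain ⟨i, j, a, ha, hja, hgc⟩ : ∃ (i j : Fin (M + 1)) (a : ℂ), a ≠ 0 ∧
      (f j).eval a ≠ 0 ∧ ∀ c : ℂ, f i ≠ Polynomial.C c * f j := by
    obtain ⟨i, j, a, b, ha, hb, hab⟩ := hf.nonconst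
    have key : ∀ i j : Fin (M + 1), (f i).eval a * (f j).eval b ≠ (f j).eval a * (f i).eval b →
        (f j).eval a ≠ 0 → ∃ (i j : Fin (M + 1)) (a : ℂ), a ≠ 0 ∧
          (f j).eval a ≠ 0 ∧ ∀ c : ℂ, f i ≠ Polynomial.C c * f j := by
      intro i j hab hj
      refine ⟨i, j, a, ha, hj, fun c hc => hab ?_⟩
      rw [hc, Polynomial.eval_mul, Polynomial.eval_mul, Polynomial.eval_C, Polynomial.eval_C]
      ring
    by_cases hj : (f j).eval a = 0
    · refine key j i (fun h => hab ?_) (fun h => hab ?_)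
      · rw [h]
      · rw [hj, h]
        ring
    · exact key i j hab hj
  have hzj : cmz f τ n j ≠ 0 := by
    have h1 := cmz_ne (f := f) hτ hn (G := MvPolynomial.X j) (t := a) (by rwa [MvPolynomial.eval_X])
    unfold Pool.Agent.W602.GT.val at h1
    rwa [MvPolynomial.aeval_X] at h1
  have hcm : ∀ c : ℂ, cmz f τ n i / cmz f τ n j ≠ algebraMap ℂ (RatFunc ℂ) c := by
    intro c hc
    rw [div_eq_iff hzj] at hc
    have h1 : cmp f τ n i = Polynomial.C c * cmp f τ n j := by
      apply hinj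
      rw [map_mul, RatFunc.algebraMap_C, ← RatFunc.algebraMap_eq_C]
      exact hc
    apply hgc c
    refine Polynomial.funext fun t => ?_
    obtain ⟨s, rfl⟩ := root_of hτ hn t
    have h2 := congrArg (Polynomial.eval s) h1
    rw [Polynomial.eval_mul, Polynomial.eval_C, cmp_eval, cmp_eval] at h2
    rw [h2, Polynomial.eval_mul, Polynomial.eval_C]
  refine le_trans ?_ (ratio_le (k := ℂ) hzj i)
  set c := (f i).eval a / (f j).eval a with hc
  have haτ : a / τ ≠ 0 := div_ne_zero ha hτ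
  let roots : Finset ℂ := (Polynomial.nthRoots n (a / τ)).toFinset
  have hroots : ∀ s ∈ roots, τ * s ^ n = a := fun s hs => by
    rw [Multiset.mem_toFinset, Polynomial.mem_nthRoots hn] at hs
    rw [hs, mul_div_cancel₀ _ hτ]
  have hcard : roots.card = n := by
    obtain ⟨s0, hs0⟩ := IsAlgClosed.exists_pow_nat_eq (a / τ) hn
    have hprim := Complex.isPrimitiveRoot_exp n hn.ne'
    have h1 : (Polynomial.nthRoots n (a / τ)).card = n := by
      rw [hprim.card_nthRoots, if_pos ⟨s0, hs0⟩]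
    rw [Multiset.toFinset_card_of_nodup (hprim.nthRoots_nodup haτ), h1]
  have hpos : ∀ s ∈ roots, 0 < (placeX s).ord (cmz f τ n i / cmz f τ n j -
      algebraMap ℂ (RatFunc ℂ) c) := by
    intro s hs
    have h1 : cmz f τ n i / cmz f τ n j - algebraMap ℂ (RatFunc ℂ) c =
        algebraMap (Polynomial ℂ) (RatFunc ℂ) (cmp f τ n i - Polynomial.C c * cmp f τ n j) /
          cmz f τ n j := by
      rw [map_sub, map_mul, RatFunc.algebraMap_C, ← RatFunc.algebraMap_eq_C, sub_div,
        mul_div_assoc]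
      change _ = cmz f τ n i / cmz f τ n j - _ * (cmz f τ n j / cmz f τ n j)
      rw [div_self hzj, mul_one]
    have h2 : cmp f τ n i - Polynomial.C c * cmp f τ n j ≠ 0 := by
      intro h0
      apply hcm c
      rw [← sub_eq_zero, h1, h0, map_zero, zero_div]
    have h3 : (cmp f τ n i - Polynomial.C c * cmp f τ n j).eval s = 0 := by
      rw [Polynomial.eval_sub, Polynomial.eval_mul, Polynomial.eval_C, cmp_eval, cmp_eval,
        hroots s hs, hc, div_mul_cancel₀ _ hja, sub_self]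
    have h4 : (cmp f τ n j).eval s ≠ 0 := by
      rw [cmp_eval, hroots s hs]
      exact hja
    rw [h1, (placeX s).ord_div ((map_ne_zero_iff _ hinj).2 h2) hzj]
    have h5 := placeX_pos s h2 h3
    have h6 : (placeX s).ord (cmz f τ n j) = 0 := placeX_zero s h4
    rw [h6]
    omega
  have hinjP : Set.InjOn placeX (roots : Set ℂ) := by
    intro s _ s' _ hss
    by_contra hne'
    have h1 := placeX_pos s (Polynomial.X_sub_C_ne_zero s) (by simp)
    rw [hss] at h1
    have h2 := placeX_zero s' (p := Polynomial.X - Polynomial.C s) (by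
      rw [Polynomial.eval_sub, Polynomial.eval_X, Polynomial.eval_C]
      exact sub_ne_zero.2 (Ne.symm hne'))
    omega
  refine le_trans ?_ (sum_mult hcm c (roots.image placeX))
  rw [Finset.sum_image hinjP]
  have h1 : (n : ℤ) = ∑ s ∈ roots, (1 : ℤ) := by
    rw [Finset.sum_const, nsmul_eq_mul, mul_one, hcard]
  rw [h1]
  refine Finset.sum_le_sum fun s hs => ?_
  have := hpos s hs
  omega

/-- The degrees of the morphisms from each fixed curve to `X - {D = 0}` with an image which is not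
contained in a fixed proper closed subset are bounded. The curve is given by its function field `E`
and the finite set `S` of the points at infinity. -/
def BoundedEach (y : Fin (M + 1) → L) (D : Set (MvPolynomial (Fin (M + 1)) ℂ)) : Prop :=
  ∃ R : MvPolynomial (Fin (M + 1)) ℂ, IsForm R ∧ val y R ≠ 0 ∧
    ∀ (E : Type) [Field E] [Algebra ℂ E] [IsFF ℂ E] (S : Finset (Place ℂ E)), ∃ C : ℤ,
      ∀ z : Fin (M + 1) → E, Pt y z → ¬ In D z → val z R ≠ 0 →
        (∀ P ∉ S, ¬ CentreIn D z P) → pht ℂ z ≤ C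

/-- bounds in terms of the Euler characteristic -/
theorem Bounded.each (h : Bounded y D) : BoundedEach y D := by
  classical
  obtain ⟨R, hR, hyR, β, h⟩ := h
  refine ⟨R, hR, hyR, fun E _ _ _ S => ?_⟩
  obtain ⟨B, hB⟩ : ∃ B : ℤ, ∀ m ∈ Finset.range (S.card + 1), β (canDeg ℂ E + (m : ℤ)) ≤ B := by
    obtain ⟨B, hB⟩ := ((Finset.range (S.card + 1)).image
      fun m : ℕ => β (canDeg ℂ E + (m : ℤ))).bddAbove
    exact ⟨B, fun m hm => hB (Finset.mem_coe.2 (Finset.mem_image_of_mem _ hm))⟩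
  refine ⟨B, fun z hz hD hzR hS => (h E z hz hD hzR).trans (hB _ ?_)⟩
  rw [Finset.mem_range]
  refine Nat.lt_succ_of_le ?_
  rw [← Set.ncard_coe_finset S]
  refine Set.ncard_le_ncard (fun P hP => ?_) (Finset.finite_toSet S)
  by_contra hcon
  exact hS P hcon hP

/-- **Unbounded degrees.** -/
theorem gm_of_each (h : BoundedEach y D) : PseudoGm y D := by
  classical
  obtain ⟨R, hR, hyR, h⟩ := h
  refine ⟨R, hR, hyR, fun f hf hfD t0 ht0 => ?_⟩
  by_contra hne0
  have hfin : {P : Place ℂ (RatFunc ℂ) | P.ord RatFunc.X ≠ 0}.Finite :=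
    finite_support (k := ℂ) (RatFunc.X : RatFunc ℂ)
  obtain ⟨C, hC⟩ := h (RatFunc ℂ) hfin.toFinset
  have hup : ∀ n, 0 < n → pht ℂ (cmz f 1 n) ≤ C := fun n hn =>
    hC _ (cmz_pt hf one_ne_zero hn) (cmz_in hfD one_ne_zero hn) (cmz_ne one_ne_zero hn hne0)
      fun P hP hc => hP (hfin.mem_toFinset.2 (cmz_cen hfD one_ne_zero n hc))
  have h1 := hup (C.toNat + 1) (Nat.succ_pos _)
  have h2 := cmz_pht hf one_ne_zero (n := C.toNat + 1) (Nat.succ_pos _)
  push_cast at h2
  have h3 := Int.self_le_toNat C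
  omega

/-- **Unbounded degrees.** -/
theorem gm_of_bounded (h : Bounded y D) : PseudoGm y D := gm_of_each h.each

end Pool.Agent.H583_GQ
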